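import Pool.Agent.H77.SL.Quo

/-!
# The star lemma, law level

`sl_pair`: the quotients of two stars on one line are near, from the entropies of one sample, the
relations of one sample, of stars over `zp` and of lines with parallel lines over `zr`, and the row of
the level. `sl_all`: the slopes of the two samples of a star are near and the code of the slope is few
given `zp`.
-/

set_option autoImplicit false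

namespace Pool.SL77

open Finset Polynomial
open Pool.Agent.H49.Ent Pool.Agent.H32.Dense Pool.STK
open Pool.BFL (Pb)
open Pool.STB (Pb_mono Pb_or)
open Pool.K2S (cpn)
open Pool.CLU (cpn_law cpn_pos cpn_marg)

section

variable {Ω Λ E Z R F U T T' X' : Type} [Fintype Ω] {N K : ℕ}

/-- **The entropies of the star lemma.** -/
structure SlEnt (X : SlD Ω Λ E N K) (p : Ω → ℝ) (zp : Ω → Z) (zr : Ω → R) (f : Ω → F)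
    (ufar : Ω → U) (T0 : Ω → T) (tl : Ω → T') (xc : Ω → X') (M : ℕ)
    (cF cU e₀ e₁ e₂ e₃ e₄ e₅ eT : ℝ) : Prop where
  zct : Det p zp (fun ω => (X.c0 ω, X.t ω))
  zf : Det p zr f
  ef : Det p X.ell f
  eu : Det p (fun ω => (X.ell ω, T0 ω)) ufar
  pT : Det p zp T0
  rT : Det p zr T0
  h0 : CH p f xc ≤ cF
  h1 : CH p X.ell (fun ω => (f ω, xc ω)) ≤ cU + e₀
  h2 : ∀ v : (Fin 2 → Fin (N + 1 + 1) → Fin 2 → Ω) → Ω,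
    (v = (fun W => W 1 0 0) ∨ ∃ j, v = fun W => W 0 j 1) →
    CH (slN p zp zr X.l X.c0 (N + 1)) (fun W => xc (v W))
      (fun W => (X.l (W 0 0 0), X.c0 (W 0 0 0))) ≤ e₁
  h3 : cF - e₂ ≤ CH p f zp
  h4 : cU - e₃ ≤ CH p ufar zr
  h5 : cU - e₄ ≤ CH p tl (fun ω => (X.l ω, X.c0 ω))
  h6 : CH (cpn p zp 1) (fun v => tl (v 1)) (fun v => (X.ell (v 0), (X.l (v 1), X.c0 (v 1)))) ≤ e₅
  hT : Real.log (2 * M + 1) - eT ≤ CH p X.t (fun ω => (X.l ω, X.c0 ω))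
  ht : ∀ ω, 0 < p ω → |X.t ω| ≤ (M : ℤ)
  hc : ∀ ω, 0 < p ω → |X.c0 ω| ≤ 1

/-- The good configurations. -/
theorem slg_ev (X : SlD Ω Λ E N K) {p : Ω → ℝ} (hp : IsLaw p) (zp : Ω → Z) (zr : Ω → R)
    {M : ℕ} (hM : 1 ≤ M) (zct : Det p zp (fun ω => (X.c0 ω, X.t ω)))
    (ht : ∀ ω, 0 < p ω → |X.t ω| ≤ (M : ℤ)) (hc : ∀ ω, 0 < p ω → |X.c0 ω| ≤ 1)
    {ρ0 ε εu εg ε1 ε2 δ θ Lq Y η : ℝ} (h1 : Pb p (fun ω => ¬ SamR X εg Y ω) ≤ η)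
    (h2 : Pb (cpn p zp 1) (fun v => ¬ StarR X ρ0 M ε εu δ θ v) ≤ η)
    (h3 : Pb (cpn p zr (N + 1)) (fun w => ¬ ParR X ε1 ε2 Lq Y w) ≤ η) :
    Pb (slN p zp zr X.l X.c0 (N + 1)) (fun W => ¬ SlG X ρ0 M ε εu εg ε1 ε2 δ θ Lq Y W) ≤
      7 * η := by
  classical
  have hQ := slN_law hp zp zr X.l X.c0 (N + 1)
  have Q0 := hQ.nonneg
  have hM0 : (0 : ℝ) < M := by exact_mod_cast hM
  have s1 := fun i (j : Fin (N + 1 + 1)) k =>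
    (Pool.MIC.Marg.Pb_eq (slN_one hp zp zr X.l X.c0 (N + 1) i j k)
      (fun ω => ¬ SamR X εg Y ω)).le.trans h1
  have s2 := fun i => (Pool.MIC.Marg.Pb_eq (slN_star hp zp zr X.l X.c0 (N + 1) i 0)
      (fun v => ¬ StarR X ρ0 M ε εu δ θ v)).le.trans h2
  have s3 := (Pool.MIC.Marg.Pb_eq (slN_par hp zp zr X.l X.c0 (N + 1) 0)
      (fun w => ¬ ParR X ε1 ε2 Lq Y w)).le.trans h3
  refine (Pb_mono Q0 (B := fun W => (¬ SamR X εg Y (W 0 0 0)) ∨ ((¬ SamR X εg Y (W 1 0 0)) ∨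
    ((¬ SamR X εg Y (W 0 0 1)) ∨ ((¬ SamR X εg Y (W 0 (Fin.succ 0) 1)) ∨
    ((¬ StarR X ρ0 M ε εu δ θ (W 0 0)) ∨ ((¬ StarR X ρ0 M ε εu δ θ (W 1 0)) ∨
    (¬ ParR X ε1 ε2 Lq Y (fun j => W 0 j 1)))))))) ?_).trans ?_
  · intro W hW hbad
    by_contra hcon
    rw [not_or, not_or, not_or, not_or, not_or, not_or, not_not, not_not, not_not, not_not,
      not_not, not_not, not_not] at hcon
    obtain ⟨k1, k2, k3, k4, k5, k6, k7⟩ := hcon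
    obtain ⟨g1, g2, g3, g4, g5⟩ := slN_pos hp zp zr X.l X.c0 (N + 1) hW
    have hz : ∀ i, X.c0 (W i 0 1) = X.c0 (W i 0 0) ∧ X.t (W i 0 1) = X.t (W i 0 0) := fun i => by
      have := Prod.ext_iff.1 (zct _ _ (g1 i 0 1) (g1 i 0 0) (g2 i 0))
      exact this
    have htb : ∀ ω, 0 < p ω → |(X.t ω : ℝ) / M| ≤ 1 := fun ω hω => by
      rw [abs_div, abs_of_pos hM0, div_le_one hM0]
      exact_mod_cast ht ω hω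
    exact hbad ⟨g4, g5, (hz 0).1, (hz 1).1, (hz 0).2, (hz 1).2, hc _ (g1 0 0 0),
      htb _ (g1 0 0 0), htb _ (g1 1 0 0), k1, k2, k3, k4, k5, k6, k7⟩
  · have b6 := (Pb_or Q0 (fun W => ¬ StarR X ρ0 M ε εu δ θ (W 1 0))
      (fun W => ¬ ParR X ε1 ε2 Lq Y (fun j => W 0 j 1))).trans (add_le_add (s2 1) s3)
    have b5 := (Pb_or Q0 (fun W => ¬ StarR X ρ0 M ε εu δ θ (W 0 0)) _).trans
      (add_le_add (s2 0) b6)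
    have b4 := (Pb_or Q0 (fun W => ¬ SamR X εg Y (W 0 (Fin.succ 0) 1)) _).trans
      (add_le_add (s1 0 (Fin.succ 0) 1) b5)
    have b3 := (Pb_or Q0 (fun W => ¬ SamR X εg Y (W 0 0 1)) _).trans
      (add_le_add (s1 0 0 1) b4)
    have b2 := (Pb_or Q0 (fun W => ¬ SamR X εg Y (W 1 0 0)) _).trans
      (add_le_add (s1 1 0 0) b3)
    have b1 := (Pb_or Q0 (fun W => ¬ SamR X εg Y (W 0 0 0)) _).trans
      (add_le_add (s1 0 0 0) b2)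
    refine b1.trans (le_of_eq ?_)
    ring

/-- **The quotients of two stars on one line, law level.** -/
theorem sl_pair (D : ℕ) : ∃ (Kc : ℝ) (C₀ : ℕ), 1 ≤ Kc ∧ 1 ≤ C₀ ∧
    ∀ {Ω Λ E Z R F U T T' X' : Type} [Fintype Ω] {N K : ℕ} (X : SlD Ω Λ E N K) (_ : X.Deg D)
    {p : Ω → ℝ} (_ : IsLaw p) (zp : Ω → Z) (zr : Ω → R) (f : Ω → F) (ufar : Ω → U)
    (T0 : Ω → T) (tl : Ω → T') (xc : Ω → X') {M : ℕ} (_ : 1 ≤ M)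
    {cF cU e₀ e₁ e₂ e₃ e₄ e₅ eT : ℝ}
    (_ : SlEnt X p zp zr f ufar T0 tl xc M cF cU e₀ e₁ e₂ e₃ e₄ e₅ eT)
    {ρ0 ε εu εg ε1 ε2 δ θ Lq Y η : ℝ} (_ : Pb p (fun ω => ¬ SamR X εg Y ω) ≤ η)
    (_ : Pb (cpn p zp 1) (fun v => ¬ StarR X ρ0 M ε εu δ θ v) ≤ η)
    (_ : Pb (cpn p zr (N + 1)) (fun w => ¬ ParR X ε1 ε2 Lq Y w) ≤ η)
    (Bν : Ω → Prop) (S : ℕ → E × ℤ → Finset ℤ) (n : ℕ) (Nn a b : ℕ → ℕ) (V : ℕ → ℝ)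
    {c₀ ρ Kν G : ℝ} (_ : 0 < ρ) (_ : ρ < 1) (_ : (C₀ : ℝ) ≤ ρ ^ C₀ * (2 * M + 1))
    (_ : ∀ k < n, ∀ ω, 0 < p ω → Bν ω → X.ν ω / 2 ^ a k ∈ S k (X.ell ω, X.ν ω / 2 ^ b k))
    (_ : ∀ k < n, ∀ w, (S k w).card ≤ Nn k) (_ : Pb p (fun ω => ¬ Bν ω) ≤ c₀)
    (_ : 0 < ρ0) (_ : ρ0 ≤ 1 / 2) (_ : 0 < δ) (_ : 1 ≤ θ) (_ : θ ^ 2 * ρ0 ≤ 1 / 2)
    (_ : 0 ≤ εu) (_ : εu ≤ 1) (_ : 0 ≤ εg) (_ : 0 ≤ ε1) (_ : 0 ≤ ε2) (_ : 0 ≤ Lq) (_ : 0 ≤ Y)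
    (_ : θ * (2 * εu) / δ ≤ ρ0)
    (_ : 2 * (ε + 2 * εg + K * (Lq * Lq * εu)) + Kc * (ε1 * ρ0 +
      (6 * Y + 2 * (K * (Y * Lq))) / ρ0 * (θ * (2 * εu) / δ)) + 1 ≤ Kν)
    (_ : ∀ k < n, a k ≤ b k ∧ Kν ≤ 2 ^ a k ∧ 0 < V k ∧ V (k + 1) ≤ 2 ^ b k ∧
      (C₀ : ℝ) * Nn k * 2 ^ a k ≤ ρ ^ C₀ * V k ∧ (C₀ : ℝ) * Nn k ≤ ρ ^ C₀ * M)
    (_ : 4 * (2 * Y + K * (Y * Lq)) ≤ V n)
    (_ : Kc * (θ / δ) * (V 0 / ρ0 + ((6 * Y + 2 * (K * (Y * Lq))) / ρ0 ^ 2 + ε1) *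
      (θ * (2 * εu) / δ) + ε1) + 2 * ((2 * εg + K * (Lq * Lq * εu)) * θ / δ +
        K * (Lq * Lq * εu)) + Kc * ε2 * (2 * ρ0) ≤ G),
    0 ≤ eT + ((N + 1 + 2) * e₁ + (N + 1 + 1) * e₀ + 2 * e₂ + (N + 1) * e₃ + e₄ + e₅) ∧
    Pb (cpn (cpn p zp 1) (fun v => (X.l (v 1), X.c0 (v 1))) 1)
      (fun W => ¬ |(qst (X.vN ρ0 M) (X.vU ρ0 M) (W 0 0) (W 0 1) - X.vC ρ0 M (W 0 1)) -
        (qst (X.vN ρ0 M) (X.vU ρ0 M) (W 1 0) (W 1 1) - X.vC ρ0 M (W 1 1))| ≤ G) ≤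
      c₀ + 28 * η + n * ((eT + ((N + 1 + 2) * e₁ + (N + 1 + 1) * e₀ + 2 * e₂ + (N + 1) * e₃ +
        e₄ + e₅) + Real.log 2) / Real.log (1 / ρ)) := by
  classical
  obtain ⟨K₁, C₀, hK₁, hC₀, htri⟩ := tri_ev (D * D + D)
  obtain ⟨K₂, hK₂, hquo⟩ := slg_quo D
  refine ⟨K₁ + K₂, C₀, by linarith, hC₀, ?_⟩
  intro Ω Λ E Z R F U T T' X' _ N K X hdeg p hp zp zr f ufar T0 tl xc M hM cF cU e₀ e₁ e₂ e₃ e₄
    e₅ eT HE ρ0 ε εu εg ε1 ε2 δ θ Lq Y η hS hSt hPr Bν S n Nn a b V c₀ ρ Kν G hρ hρ1 hCM hrow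
    hcard hB h0 h1 hδ hθ hθρ hu0 hu hεg hε1 hε2 hLq hY hηρ hKν hnum htopn hGn
  have hQ := slN_law hp zp zr X.l X.c0 (N + 1)
  have Q0 := hQ.nonneg
  have hθ0 : 0 < θ := by linarith
  have hgd := slg_ev X hp zp zr hM HE.zct HE.ht HE.hc (ρ0 := ρ0) (ε := ε) (εu := εu) (εg := εg)
    (ε1 := ε1) (ε2 := ε2) (δ := δ) (θ := θ) (Lq := Lq) (Y := Y) hS hSt hPr
  -- the full time
  have hful := sl_lawN hp zp zr X.l X.c0 (N + 1) (by omega) f ufar X.ell T0 tl xc X.t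
    HE.zf HE.ef HE.eu HE.pT HE.rT HE.h0 HE.h1 HE.h2 HE.h3 HE.h4 HE.h5 HE.h6
  have hcast : (((N + 1 : ℕ) : ℝ)) = (N : ℝ) + 1 := by push_cast; ring
  rw [hcast] at hful
  obtain ⟨e, he⟩ : ∃ e, e = eT + ((N + 1 + 2) * e₁ + (N + 1 + 1) * e₀ + 2 * e₂ + (N + 1) * e₃ +
        e₄ + e₅) := ⟨_, rfl⟩
  have hft : Real.log (2 * M + 1) - e ≤ CH (slN p zp zr X.l X.c0 (N + 1))
      (fun W => X.t (W 0 0 0)) (slW X) := by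
    have h2 := HE.hT
    rw [he]
    have h3 : CH (slN p zp zr X.l X.c0 (N + 1)) (fun W => X.t (W 0 0 0)) (slW X) =
        CH (slN p zp zr X.l X.c0 (N + 1)) (fun W => X.t (W 0 0 0))
          (fun W => ((X.ell (W 1 0 0), fun (j : Fin (N + 1)) => X.ell (W 0 j.succ 1)),
            (X.l (W 0 0 0), X.c0 (W 0 0 0)))) := rfl
    rw [h3]
    linarith
  have hpos := fun W (hW : 0 < slN p zp zr X.l X.c0 (N + 1) W) =>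
    slN_pos hp zp zr X.l X.c0 (N + 1) hW
  have h3 := htri (Fin 2 → Fin (N + 1 + 1) → Fin 2 → Ω) ((E × (Fin (N + 1) → E)) × (Λ × ℝ)) E
    (slN p zp zr X.l X.c0 (N + 1)) (slW X) (fun W => X.t (W 0 0 0)) (fun k => k.1.1)
    (slE0 X) (slE1 X) (slD0 X) (slD1 X) (fun k => k.2.2) (sler X)
    (fun W => X.tm ρ0 M (W 1 0 0)) (fun W => (X.nL (X.l (W 0 (Fin.succ 0) 1))).eval 0)
    (fun W => (X.nL (X.l (W 1 0 0))).eval 0) (fun W => X.ν (W 1 0 0)) (fun W => Bν (W 1 0 0))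
    S n M Nn a b V ρ0 ρ0 δ θ 0 ε1 (6 * Y + 2 * (K * (Y * Lq)))
    (ε + 2 * εg + K * (Lq * Lq * εu)) (2 * εu) (θ * (2 * εu) / δ) e c₀ (7 * η) (7 * η) ρ Kν
    hQ hM hρ hρ1 hCM (fun W hW => HE.ht _ ((hpos W hW).1 0 0 0)) hft (slE0_deg X hdeg)
    (slE1_deg X hdeg) (sler_deg X hdeg) h0 le_rfl h1 hδ hθ le_rfl
    (by rw [mul_zero, zero_mul]; linarith)
    (by rw [mul_zero, zero_mul, zero_div, add_zero]) hηρ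
    ((Pb_mono Q0 fun W _ h hc => h ⟨by
      have := hc.tri h0 h1 hu hεg (Xc := 6 * Y + 2 * (K * (Y * Lq))) le_rfl le_rfl
      exact this, hc.s1.lv⟩).trans hgd)
    (by
      have hd1 : K₁ * (ε1 * ρ0 + (6 * Y + 2 * (K * (Y * Lq))) / ρ0 * (θ * (2 * εu) / δ)) ≤
          (K₁ + K₂) * (ε1 * ρ0 + (6 * Y + 2 * (K * (Y * Lq))) / ρ0 * (θ * (2 * εu) / δ)) :=
        mul_le_mul_of_nonneg_right (by linarith) (by positivity)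
      linarith)
    (fun k hk W hW hb => hrow k hk _ ((hpos W hW).1 1 0 0) hb) hcard
    ((Pool.MIC.Marg.Pb_eq (slN_one hp zp zr X.l X.c0 (N + 1) 1 0 0)
      (fun ω => ¬ Bν ω)).le.trans hB)
    ((Pb_mono Q0 fun W _ h hc => h fun s hs => (hc.top h0 h1 hδ hθ hθρ (by linarith) s hs).trans
      htopn).trans hgd) hnum
  -- the quotients
  have h4 : Pb (slN p zp zr X.l X.c0 (N + 1)) (fun W =>
      ¬ |(qst (X.vN ρ0 M) (X.vU ρ0 M) (W 0 0 0) (W 0 0 1) - X.vC ρ0 M (W 0 0 1)) -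
        (qst (X.vN ρ0 M) (X.vU ρ0 M) (W 1 0 0) (W 1 0 1) - X.vC ρ0 M (W 1 0 1))| ≤ G) ≤
      7 * η + (c₀ + 2 * (7 * η) + 7 * η + n * ((e + Real.log 2) / Real.log (1 / ρ))) := by
    refine le_trans (Pb_mono Q0 fun W hW h => ?_) ((Pb_or Q0 _ _).trans (add_le_add hgd h3))
    by_contra hcon
    rw [not_or, not_not, not_not] at hcon
    obtain ⟨k1, k2⟩ := hcon
    apply h
    have k3 := hquo hdeg k1 h0 h1 hδ hu hεg k2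
    refine k3.trans (le_trans ?_ hGn)
    have z1 : 0 ≤ (θ / δ) * (((6 * Y + 2 * (K * (Y * Lq))) / ρ0 ^ 2 + ε1) *
      (θ * (2 * εu) / δ) + ε1) := by positivity
    have hV0 : 0 ≤ V 0 := by
      rcases Nat.eq_zero_or_pos n with hn | hn
      · rw [hn] at htopn
        refine le_trans (by positivity) htopn
      · exact (hnum 0 hn).2.2.1.le
    have z2 : 0 ≤ (θ / δ) * (V 0 / ρ0) := by positivity
    have e1 : K₁ * (θ / δ) * (V 0 / ρ0 + ((6 * Y + 2 * (K * (Y * Lq))) / ρ0 ^ 2 + ε1) *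
      (θ * (2 * εu) / δ) + ((6 * Y + 2 * (K * (Y * Lq))) / ρ0 + ε1) * (θ * 0 * ρ0 / δ) + ε1) ≤
      (K₁ + K₂) * (θ / δ) * (V 0 / ρ0 + ((6 * Y + 2 * (K * (Y * Lq))) / ρ0 ^ 2 + ε1) *
      (θ * (2 * εu) / δ) + ε1) := by
      have f1 : K₁ * (θ / δ) * (V 0 / ρ0 + ((6 * Y + 2 * (K * (Y * Lq))) / ρ0 ^ 2 + ε1) *
        (θ * (2 * εu) / δ) + ((6 * Y + 2 * (K * (Y * Lq))) / ρ0 + ε1) * (θ * 0 * ρ0 / δ) +
          ε1) = K₁ * ((θ / δ) * (V 0 / ρ0) +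
          (θ / δ) * (((6 * Y + 2 * (K * (Y * Lq))) / ρ0 ^ 2 + ε1) *
            (θ * (2 * εu) / δ) + ε1)) := by ring
      have f2 : (K₁ + K₂) * (θ / δ) * (V 0 / ρ0 + ((6 * Y + 2 * (K * (Y * Lq))) / ρ0 ^ 2 + ε1) *
        (θ * (2 * εu) / δ) + ε1) = (K₁ + K₂) * ((θ / δ) * (V 0 / ρ0) +
          (θ / δ) * (((6 * Y + 2 * (K * (Y * Lq))) / ρ0 ^ 2 + ε1) *
            (θ * (2 * εu) / δ) + ε1)) := by ring
      rw [f1, f2]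
      exact mul_le_mul_of_nonneg_right (by linarith) (add_nonneg z2 z1)
    have e2 : K₂ * ε2 * (2 * ρ0) ≤ (K₁ + K₂) * ε2 * (2 * ρ0) := by
      refine mul_le_mul_of_nonneg_right (mul_le_mul_of_nonneg_right (by linarith) hε2)
        (by linarith)
    linarith
  have h5 := Pool.MIC.Marg.Pb_eq (slN_stars hp zp zr X.l X.c0 (N + 1)) (fun W =>
      ¬ |(qst (X.vN ρ0 M) (X.vU ρ0 M) (W 0 0) (W 0 1) - X.vC ρ0 M (W 0 1)) -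
        (qst (X.vN ρ0 M) (X.vU ρ0 M) (W 1 0) (W 1 1) - X.vC ρ0 M (W 1 1))| ≤ G)
  rw [← h5, ← he]
  refine ⟨?_, h4.trans (le_of_eq (by ring))⟩
  have h6 := CH_le_card Q0 hQ.sum_one (fun W => X.t (W 0 0 0)) (slW X)
    (fun _ => Finset.Icc (-(M : ℤ)) M) (fun W hW => by
      have h7 := HE.ht _ ((hpos W hW).1 0 0 0)
      rw [abs_le] at h7
      rw [Finset.mem_Icc]
      exact h7)
  have h8 : ((M : ℤ) + 1 - -(M : ℤ)).toNat = 2 * M + 1 := by omega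
  have h9 : ((2 * M + 1 : ℕ) : ℝ) = 2 * M + 1 := by push_cast; ring
  unfold Ex at h6
  rw [← Finset.sum_mul, hQ.sum_one, one_mul, Int.card_Icc, h8, h9] at h6
  linarith

/-- **The star lemma, law level.** -/
theorem sl_all (D : ℕ) : ∃ (Kc : ℝ) (C₀ : ℕ), 1 ≤ Kc ∧ 1 ≤ C₀ ∧
    ∀ {Ω Λ E Z R Rd F U T T' X' : Type} [Fintype Ω] {N K : ℕ} (X : SlD Ω Λ E N K) (_ : X.Deg D)
    {p : Ω → ℝ} (_ : IsLaw p) (zp : Ω → Z) (zr : Ω → R) (zd : Ω → Rd) (_ : Det p zd zp)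
    (f : Ω → F) (ufar : Ω → U) (T0 : Ω → T) (tl : Ω → T') (xc : Ω → X') {M : ℕ} (_ : 1 ≤ M)
    {cF cU e₀ e₁ e₂ e₃ e₄ e₅ eT : ℝ}
    (_ : SlEnt X p zp zr f ufar T0 tl xc M cF cU e₀ e₁ e₂ e₃ e₄ e₅ eT)
    {ρ0 ε εu εg ε1 ε2 δ θ Lq Y η : ℝ} (_ : Pb p (fun ω => ¬ SamR X εg Y ω) ≤ η)
    (_ : Pb (cpn p zp 1) (fun v => ¬ StarR X ρ0 M ε εu δ θ v) ≤ η)
    (_ : Pb (cpn p zr (N + 1)) (fun w => ¬ ParR X ε1 ε2 Lq Y w) ≤ η)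
    (cs : Ω → ℝ) {nat δ' : ℝ} (_ : 0 < δ')
    (_ : Pb (cpn p zd 1) (fun v => ¬ (|X.vN ρ0 M (v 1) - X.vN ρ0 M (v 0) -
      cs (v 0) * (X.vU ρ0 M (v 1) - X.vU ρ0 M (v 0))| ≤ nat ∧
        δ' ≤ |X.vU ρ0 M (v 1) - X.vU ρ0 M (v 0)|)) ≤ η)
    (Bν : Ω → Prop) (S : ℕ → E × ℤ → Finset ℤ) (n : ℕ) (Nn a b : ℕ → ℕ) (V : ℕ → ℝ)
    {c₀ ρ Kν G : ℝ} (_ : 0 < ρ) (_ : ρ < 1) (_ : (C₀ : ℝ) ≤ ρ ^ C₀ * (2 * M + 1))
    (_ : ∀ k < n, ∀ ω, 0 < p ω → Bν ω → X.ν ω / 2 ^ a k ∈ S k (X.ell ω, X.ν ω / 2 ^ b k))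
    (_ : ∀ k < n, ∀ w, (S k w).card ≤ Nn k) (_ : Pb p (fun ω => ¬ Bν ω) ≤ c₀)
    (_ : 0 < ρ0) (_ : ρ0 ≤ 1 / 2) (_ : 0 < δ) (_ : 1 ≤ θ) (_ : θ ^ 2 * ρ0 ≤ 1 / 2)
    (_ : 0 ≤ εu) (_ : εu ≤ 1) (_ : 0 ≤ εg) (_ : 0 ≤ ε1) (_ : 0 ≤ ε2) (_ : 0 ≤ Lq) (_ : 0 ≤ Y)
    (_ : θ * (2 * εu) / δ ≤ ρ0)
    (_ : 2 * (ε + 2 * εg + K * (Lq * Lq * εu)) + Kc * (ε1 * ρ0 +
      (6 * Y + 2 * (K * (Y * Lq))) / ρ0 * (θ * (2 * εu) / δ)) + 1 ≤ Kν)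
    (_ : ∀ k < n, a k ≤ b k ∧ Kν ≤ 2 ^ a k ∧ 0 < V k ∧ V (k + 1) ≤ 2 ^ b k ∧
      (C₀ : ℝ) * Nn k * 2 ^ a k ≤ ρ ^ C₀ * V k ∧ (C₀ : ℝ) * Nn k ≤ ρ ^ C₀ * M)
    (_ : 4 * (2 * Y + K * (Y * Lq)) ≤ V n)
    (_ : Kc * (θ / δ) * (V 0 / ρ0 + ((6 * Y + 2 * (K * (Y * Lq))) / ρ0 ^ 2 + ε1) *
      (θ * (2 * εu) / δ) + ε1) + 2 * ((2 * εg + K * (Lq * Lq * εu)) * θ / δ +
        K * (Lq * Lq * εu)) + Kc * ε2 * (2 * ρ0) ≤ G)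
    (sc : ℝ) (_ : 0 < sc) (Kf Nf : ℕ) (_ : 2 * ((2 * G * (θ * δ) + nat) / δ') / sc + 1 ≤ Kf)
    (_ : ∀ ω, 0 < p ω → |⌊cs ω / sc⌋| ≤ (Nf : ℤ)),
    Pb (cpn p zp 1) (fun v => ¬ |cs (v 0) - cs (v 1)| ≤
      2 * ((2 * G * (θ * δ) + nat) / δ')) ≤
      10 * (c₀ + 28 * η + n * ((eT + ((N + 1 + 2) * e₁ + (N + 1 + 1) * e₀ + 2 * e₂ +
        (N + 1) * e₃ + e₄ + e₅) + Real.log 2) / Real.log (1 / ρ))) ∧
    CH p (fun ω => ⌊cs ω / sc⌋) zp ≤ Real.log 2 + Real.log (2 * Kf + 1) +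
      10 * (c₀ + 28 * η + n * ((eT + ((N + 1 + 2) * e₁ + (N + 1 + 1) * e₀ + 2 * e₂ +
        (N + 1) * e₃ + e₄ + e₅) + Real.log 2) / Real.log (1 / ρ))) *
          Real.log (2 * Nf + 1) := by
  classical
  obtain ⟨Kc, C₀, hKc, hC₀, hpr⟩ := sl_pair D
  refine ⟨Kc, C₀, hKc, hC₀, ?_⟩
  intro Ω Λ E Z R Rd F U T T' X' _ N K X hdeg p hp zp zr zd hdp f ufar T0 tl xc M hM cF cU
    e₀ e₁ e₂ e₃ e₄ e₅ eT HE ρ0 ε εu εg ε1 ε2 δ θ Lq Y η hS hSt hPr cs nat δ' hδ' hnat Bν S n Nn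
    a b V c₀ ρ Kν G hρ hρ1 hCM hrow hcard hB h0 h1 hδ hθ hθρ hu0 hu hεg hε1 hε2 hLq hY hηρ hKν
    hnum htopn hGn sc hsc Kf Nf hKf hNf
  obtain ⟨he0, hpp⟩ := hpr X hdeg hp zp zr f ufar T0 tl xc hM HE hS hSt hPr Bν S n Nn a b V hρ hρ1
    hCM hrow hcard hB h0 h1 hδ hθ hθρ hu0 hu hεg hε1 hε2 hLq hY hηρ hKν hnum htopn hGn
  have hq0 := (cpn_law hp zp 1).nonneg
  have hη0 : 0 ≤ η := (Pool.MIC.Pb_nonneg hp.nonneg _).trans hS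
  have hc0 : 0 ≤ c₀ := (Pool.MIC.Pb_nonneg hp.nonneg _).trans hB
  have hlr : 0 < Real.log (1 / ρ) := Real.log_pos (by rw [lt_div_iff₀ hρ]; linarith)
  obtain ⟨E, hE⟩ : ∃ E, E = c₀ + 28 * η + n * ((eT + ((N + 1 + 2) * e₁ + (N + 1 + 1) * e₀ +
    2 * e₂ + (N + 1) * e₃ + e₄ + e₅) + Real.log 2) / Real.log (1 / ρ)) := ⟨_, rfl⟩
  rw [← hE] at hpp ⊢
  have hηE : η ≤ E := by
    have h2 : 0 ≤ n * ((eT + ((N + 1 + 2) * e₁ + (N + 1 + 1) * e₀ +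
      2 * e₂ + (N + 1) * e₃ + e₄ + e₅) + Real.log 2) / Real.log (1 / ρ)) := by
      have h3 : 0 ≤ Real.log 2 := Real.log_nonneg (by norm_num)
      have h4 : 0 ≤ (eT + ((N + 1 + 2) * e₁ + (N + 1 + 1) * e₀ +
        2 * e₂ + (N + 1) * e₃ + e₄ + e₅) + Real.log 2) / Real.log (1 / ρ) :=
        div_nonneg (add_nonneg he0 h3) hlr.le
      exact mul_nonneg (Nat.cast_nonneg _) h4
    rw [hE]
    linarith
  have hfin := sl_fin hp zp zd X.l X.c0 (X.vN ρ0 M) (X.vU ρ0 M) (X.vC ρ0 M) cs hdp (θ := θ)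
    (nat := nat) hδ hδ' hpp ((Pb_mono hq0 fun v _ h hs => h ⟨hs.s0, hs.s1⟩).trans (hSt.trans hηE))
    (hnat.trans hηE)
  refine ⟨hfin, ?_⟩
  have hfl : Pb (cpn p zp 1) (fun v => ¬ |⌊cs (v 0) / sc⌋ - ⌊cs (v 1) / sc⌋| ≤ (Kf : ℤ)) ≤
      10 * E := by
    refine (Pb_mono hq0 fun v _ h hs => h ?_).trans hfin
    have h2 : |cs (v 0) / sc - cs (v 1) / sc| ≤ 2 * ((2 * G * (θ * δ) + nat) / δ') / sc := by
      rw [← sub_div, abs_div, abs_of_pos hsc]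
      exact div_le_div_of_nonneg_right hs hsc.le
    have h3 : (|⌊cs (v 0) / sc⌋ - ⌊cs (v 1) / sc⌋| : ℝ) < Kf + 1 := by
      rw [abs_lt]
      rw [abs_le] at h2
      have a1 := Int.floor_le (cs (v 0) / sc)
      have a2 := Int.lt_floor_add_one (cs (v 0) / sc)
      have a3 := Int.floor_le (cs (v 1) / sc)
      have a4 := Int.lt_floor_add_one (cs (v 1) / sc)
      constructor <;> linarith [h2.1, h2.2]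
    have h4 : |⌊cs (v 0) / sc⌋ - ⌊cs (v 1) / sc⌋| < (Kf : ℤ) + 1 := by exact_mod_cast h3
    linarith
  have hfew := few_of_near hp zp (fun ω => ⌊cs ω / sc⌋) Kf (2 * Nf + 1)
    (fun _ => Finset.Icc (-(Nf : ℤ)) Nf) (by omega) (fun ω hω => by
      have h7 := hNf ω hω
      rw [abs_le] at h7
      rw [Finset.mem_Icc]
      exact h7) (fun _ => by
      rw [Int.card_Icc]
      omega) hfl
  have h9 : ((2 * Nf + 1 : ℕ) : ℝ) = 2 * Nf + 1 := by push_cast; ring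
  rw [h9] at hfew
  exact hfew

end

end Pool.SL77
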