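import Pool.Agent.H40.FR.Grid

/-!
# Polynomials of bounded degree on short intervals

`mkv`: values and the derivative on three times the interval. `mvt`, `tay`: increments.
-/

set_option autoImplicit false

namespace Pool.SL77

open Finset Polynomial

/-- A polynomial and its derivative on three times the interval. -/
theorem mkv (D : ℕ) : ∃ C : ℝ, 1 ≤ C ∧ ∀ (q : ℝ[X]) (x ρ S : ℝ), q.natDegree ≤ D →
    0 < ρ → (∀ s : ℝ, |s - x| ≤ ρ → |q.eval s| ≤ S) → ∀ s : ℝ, |s - x| ≤ 3 * ρ →
      |q.eval s| ≤ C * S ∧ |(derivative q).eval s| ≤ C * S / ρ := by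
  obtain ⟨C₁, hC₁, huc⟩ := Pool.Agent.H40.FR.unit_coef D
  have hD0 : (0 : ℝ) ≤ D := Nat.cast_nonneg D
  have h3D : (1 : ℝ) ≤ 3 ^ D := one_le_pow₀ (by norm_num)
  refine ⟨(D + 1) * ((D + 1) * (C₁ * 3 ^ D)), ?_, ?_⟩
  · exact one_le_mul_of_one_le_of_one_le (by linarith) (one_le_mul_of_one_le_of_one_le
      (by linarith) (one_le_mul_of_one_le_of_one_le hC₁ h3D))
  intro q x ρ S hq hρ hS s hs
  have hS0 : 0 ≤ S := (abs_nonneg _).trans (hS x (by rw [sub_self, abs_zero]; exact hρ.le))
  obtain ⟨r, hr⟩ : ∃ r : ℝ[X], r = q.comp (C x + C ρ * X) := ⟨_, rfl⟩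
  have hlin : (C x + C ρ * X : ℝ[X]).natDegree ≤ 1 := by
    refine (natDegree_add_le _ _).trans (max_le ?_ ?_)
    · rw [natDegree_C]
      exact Nat.zero_le _
    · exact (natDegree_C_mul_le _ _).trans natDegree_X_le
  have hrd : r.natDegree ≤ D := by
    rw [hr]
    refine natDegree_comp_le.trans ?_
    calc q.natDegree * (C x + C ρ * X : ℝ[X]).natDegree ≤ D * 1 := Nat.mul_le_mul hq hlin
      _ = D := Nat.mul_one D
  have hc := huc r S hrd (fun t ht => by
    rw [hr, eval_comp]
    refine hS _ ?_
    simp only [eval_add, eval_mul, eval_C, eval_X]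
    rw [show x + ρ * t - x = ρ * t by ring, abs_mul, abs_of_pos hρ, abs_of_nonneg ht.1]
    calc ρ * t ≤ ρ * 1 := mul_le_mul_of_nonneg_left ht.2 hρ.le
      _ = ρ := mul_one _)
  obtain ⟨τ, hτ⟩ : ∃ τ : ℝ, τ = (s - x) / ρ := ⟨_, rfl⟩
  have hsτ : x + ρ * τ = s := by rw [hτ]; field_simp; ring
  have hτ3 : |τ| ≤ 3 := by
    rw [hτ, abs_div, abs_of_pos hρ, div_le_iff₀ hρ]
    exact hs
  have hpow : ∀ j ≤ D, |τ| ^ j ≤ 3 ^ D := fun j hj =>
    (pow_le_pow_left₀ (abs_nonneg _) hτ3 j).trans (pow_le_pow_right₀ (by norm_num) hj)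
  have hC0 : 0 ≤ C₁ * S := mul_nonneg (by linarith) hS0
  constructor
  · have e1 : q.eval s = r.eval τ := by
      rw [hr, eval_comp]
      simp only [eval_add, eval_mul, eval_C, eval_X]
      rw [hsτ]
    rw [e1, eval_eq_sum_range' (n := D + 1) (by omega)]
    refine (Finset.abs_sum_le_sum_abs _ _).trans ?_
    refine (Finset.sum_le_sum (g := fun _ => C₁ * S * 3 ^ D) fun j hj => ?_).trans ?_
    · rw [abs_mul, abs_pow]
      exact mul_le_mul (hc j) (hpow j (by have := mem_range.1 hj; omega))
        (by positivity) hC0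
    · rw [Finset.sum_const, card_range, nsmul_eq_mul]
      push_cast
      have : (D + 1 : ℝ) * (C₁ * S * 3 ^ D) * 1 ≤ (D + 1 : ℝ) * (C₁ * S * 3 ^ D) * (D + 1) := by
        refine mul_le_mul_of_nonneg_left (by linarith) ?_
        have := mul_nonneg hC0 (show (0 : ℝ) ≤ 3 ^ D by positivity)
        exact mul_nonneg (by linarith) this
      nlinarith
  · have e1 : ρ * (derivative q).eval s = (derivative r).eval τ := by
      rw [hr, derivative_comp, eval_mul, eval_comp]
      simp only [derivative_add, derivative_C, derivative_mul, derivative_X, zero_add, zero_mul,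
        mul_one, eval_add, eval_mul, eval_C, eval_X]
      rw [hsτ]
    rw [le_div_iff₀ hρ]
    have e2 : |(derivative q).eval s| * ρ = |(derivative r).eval τ| := by
      rw [← e1, abs_mul, abs_of_pos hρ, mul_comm]
    rw [e2, eval_eq_sum_range' (n := D + 1)
      (lt_of_le_of_lt (natDegree_derivative_le r) (by omega))]
    refine (Finset.abs_sum_le_sum_abs _ _).trans ?_
    refine (Finset.sum_le_sum (g := fun _ => C₁ * S * (D + 1) * 3 ^ D) fun j hj => ?_).trans ?_
    · rw [abs_mul, abs_pow, coeff_derivative, abs_mul]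
      have hj' : j ≤ D := by have := mem_range.1 hj; omega
      have h1 : |((j : ℝ) + 1)| ≤ D + 1 := by
        have : (j : ℝ) ≤ D := by exact_mod_cast hj'
        have h0 : (0 : ℝ) ≤ j := Nat.cast_nonneg j
        rw [abs_of_nonneg (by linarith)]
        linarith
      exact mul_le_mul (mul_le_mul (hc _) h1 (abs_nonneg _) hC0) (hpow j hj')
        (by positivity) (mul_nonneg hC0 (by linarith))
    · rw [Finset.sum_const, card_range, nsmul_eq_mul]
      push_cast
      apply le_of_eq
      ring

/-- The mean value theorem. -/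
theorem mvt (q : ℝ[X]) {a b M : ℝ} (h : ∀ s : ℝ, |s - a| ≤ |b - a| → |(derivative q).eval s| ≤ M) :
    |q.eval b - q.eval a| ≤ M * |b - a| := by
  have h1 := Convex.norm_image_sub_le_of_norm_deriv_le (f := fun x => q.eval x) (C := M)
    (s := Metric.closedBall a |b - a|) (x := a) (y := b) (fun x _ => q.differentiableAt)
    (fun x hx => by
      rw [Polynomial.deriv, Real.norm_eq_abs]
      refine h x ?_
      rwa [Metric.mem_closedBall, Real.dist_eq] at hx) (convex_closedBall _ _)
    (Metric.mem_closedBall_self (abs_nonneg _))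
    (by rw [Metric.mem_closedBall, Real.dist_eq])
  simpa [Real.norm_eq_abs] using h1

/-- The first order expansion. -/
theorem tay (q : ℝ[X]) {a b M : ℝ}
    (h : ∀ s : ℝ, |s - a| ≤ |b - a| → |(derivative (derivative q)).eval s| ≤ M) :
    |q.eval b - q.eval a - (derivative q).eval a * (b - a)| ≤ M * |b - a| * |b - a| := by
  have h1 := mvt (q - C ((derivative q).eval a) * X) (a := a) (b := b) (M := M * |b - a|)
    (fun s hs => by
      have e1 : (derivative (q - C ((derivative q).eval a) * X)).eval s =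
          (derivative q).eval s - (derivative q).eval a := by
        simp
      rw [e1]
      have hM : 0 ≤ M := (abs_nonneg _).trans (h a (by rw [sub_self, abs_zero]; exact abs_nonneg _))
      refine (mvt (derivative q) (a := a) (b := s) (M := M) fun s' hs' =>
        h s' (hs'.trans hs)).trans ?_
      exact mul_le_mul_of_nonneg_left hs hM)
  have e2 : (q - C ((derivative q).eval a) * X).eval b -
      (q - C ((derivative q).eval a) * X).eval a =
      q.eval b - q.eval a - (derivative q).eval a * (b - a) := by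
    simp only [eval_sub, eval_mul, eval_C, eval_X]
    ring
  rw [e2] at h1
  exact h1

end Pool.SL77
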