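import Pool.Agent.H77.SL.Pol

/-!
# The triangle on one line

`star_core`: `er` is the error of the parallel line, `E0`, `E1` the errors along the two other lines,
which meet the line at the times `A`, `B` (near to `c0`); `D0`, `D1` are their heights over the
parallel line. The value of `E0` at `A` is the value of `E1` at the point `c0 + (..)`, an affine
function of `A`; if the derivative of the difference is small then the two normalized derivatives of
`E0 - er` at `A` and of `E1 - er` at `B` are near.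
-/

set_option autoImplicit false

namespace Pool.SL77

open Finset Polynomial

/-- The inverse of a number near to another one. -/
theorem inv_near {x y δ θ κ : ℝ} (hδ : 0 < δ) (hθ : 1 ≤ θ) (hy : δ ≤ θ * |y|)
    (hx : δ ≤ 2 * θ * |x|) (h : |x - y| ≤ κ) : |1 / x - 1 / y| ≤ 2 * θ ^ 2 * κ / δ ^ 2 := by
  have hθ0 : 0 < θ := by linarith
  have hy0 : 0 < |y| := by
    by_contra hc
    have h0 : |y| = 0 := le_antisymm (not_lt.1 hc) (abs_nonneg _)
    rw [h0, mul_zero] at hy
    linarith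
  have hx0 : 0 < |x| := by
    by_contra hc
    have h0 : |x| = 0 := le_antisymm (not_lt.1 hc) (abs_nonneg _)
    rw [h0, mul_zero] at hx
    linarith
  have hyn : y ≠ 0 := abs_pos.1 hy0
  have hxn : x ≠ 0 := abs_pos.1 hx0
  have e1 : 1 / x - 1 / y = (y - x) / (x * y) := by field_simp
  rw [e1, abs_div, abs_mul, abs_sub_comm, div_le_div_iff₀ (mul_pos hx0 hy0) (by positivity)]
  have hκ : 0 ≤ κ := (abs_nonneg _).trans h
  have h1 : δ * δ ≤ (2 * θ * |x|) * (θ * |y|) :=
    mul_le_mul hx hy hδ.le (by positivity)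
  calc |x - y| * δ ^ 2 ≤ κ * (δ * δ) := by
        rw [pow_two]
        exact mul_le_mul_of_nonneg_right h (by positivity)
    _ ≤ κ * ((2 * θ * |x|) * (θ * |y|)) := mul_le_mul_of_nonneg_left h1 hκ
    _ = 2 * θ ^ 2 * κ * (|x| * |y|) := by ring

/-- The quotient by a number which is not small. -/
theorem quo_le {x r M δ θ : ℝ} (hδ : 0 < δ) (hx : δ ≤ θ * |x|) (hr : |r| ≤ M) :
    |r / x| ≤ M * θ / δ := by
  have hx0 : 0 < |x| := by
    by_contra hc
    have h0 : |x| = 0 := le_antisymm (not_lt.1 hc) (abs_nonneg _)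
    rw [h0, mul_zero] at hx
    linarith
  have hM : 0 ≤ M := (abs_nonneg _).trans hr
  rw [abs_div, div_le_div_iff₀ hx0 hδ]
  calc |r| * δ ≤ M * (θ * |x|) := mul_le_mul hr hx hδ.le hM
    _ = M * θ * |x| := by ring

/-- **The triangle on one line.** -/
theorem star_core (D : ℕ) : ∃ K : ℝ, 1 ≤ K ∧ ∀ (E0 E1 er D0 D1 : ℝ[X])
    (A B c0 ρ0 ρt δ θ κ ε1 X ε εu η : ℝ),
    E0.natDegree ≤ D → E1.natDegree ≤ D → er.natDegree ≤ D →
    0 < ρt → ρt ≤ ρ0 → ρ0 ≤ 1 / 2 → 0 < δ → 1 ≤ θ → θ * κ * ρ0 ≤ δ / 2 → |c0| ≤ 1 →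
    |A - c0| ≤ ρ0 → |B - c0| ≤ ρ0 →
    (∀ s : ℝ, |s - A| ≤ ρt → |E0.eval s - er.eval s| ≤ X) → |E0.eval A - er.eval A| ≤ ε →
    (∀ s : ℝ, |s - B| ≤ ρt → |E1.eval s - er.eval s| ≤ X) → |E1.eval B - er.eval B| ≤ ε →
    (∀ s : ℝ, |s| ≤ 1 → |er.eval s| ≤ ε1) →
    (∀ s : ℝ, |s| ≤ 2 → |(derivative (derivative D0)).eval s| ≤ κ) →
    (∀ s : ℝ, |s| ≤ 2 → |(derivative (derivative D1)).eval s| ≤ κ) →
    δ ≤ θ * |(derivative D0).eval c0| → δ ≤ θ * |(derivative D1).eval c0| →
    |D0.eval A - D1.eval B| ≤ εu → θ * εu / δ + 2 * θ * κ * ρ0 ^ 2 / δ ≤ η → η ≤ ρt →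
    |E0.eval A - E1.eval (c0 + (D0.eval c0 - D1.eval c0 +
        (derivative D0).eval c0 * (A - c0)) / (derivative D1).eval c0)| ≤
      2 * ε + K * (ε1 * ρ0 + X / ρt * η) ∧
    ∀ V' : ℝ, |(derivative E0).eval A -
        (derivative D0).eval c0 / (derivative D1).eval c0 *
          (derivative E1).eval (c0 + (D0.eval c0 - D1.eval c0 +
            (derivative D0).eval c0 * (A - c0)) / (derivative D1).eval c0)| ≤ V' →
      |((derivative E0).eval A - (derivative er).eval A) / (derivative D0).eval A -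
        ((derivative E1).eval B - (derivative er).eval B) / (derivative D1).eval B| ≤
        K * (θ / δ) * (V' + (X / ρt ^ 2 + ε1) * η + (X / ρt + ε1) * (θ * κ * ρ0 / δ) + ε1) := by
  obtain ⟨K, hK, hmk⟩ := mkv D
  refine ⟨4 * (K * K), by nlinarith, ?_⟩
  intro E0 E1 er D0 D1 A B c0 ρ0 ρt δ θ κ ε1 X ε εu η hE0 hE1 her hρt hρt0 hρ0 hδ hθ hθρ hc0 hA hB
    hG0 hG0A hG1 hG1B herr hD0 hD1 hd0 hd1 hAB hη hηt
  have hθ0 : 0 < θ := by linarith
  have hK0 : 0 ≤ K := by linarith
  have hρ00 : 0 < ρ0 := by linarith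
  have hX0 : 0 ≤ X := (abs_nonneg _).trans (hG0 A (by rw [sub_self, abs_zero]; exact hρt.le))
  have he10 : 0 ≤ ε1 := (abs_nonneg _).trans (herr 0 (by rw [abs_zero]; norm_num))
  have hεu : 0 ≤ εu := (abs_nonneg _).trans hAB
  have hκ0 : 0 ≤ κ := (abs_nonneg _).trans (hD0 0 (by rw [abs_zero]; norm_num))
  have hη0 : 0 ≤ η := le_trans (by positivity) hη
  have hA2 : |A| ≤ 3 / 2 := by
    have := abs_add_le (A - c0) c0
    rw [sub_add_cancel] at this
    linarith
  have hB2 : |B| ≤ 3 / 2 := by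
    have := abs_add_le (B - c0) c0
    rw [sub_add_cancel] at this
    linarith
  -- the error of the parallel line
  have her1 : ∀ s : ℝ, |s| ≤ 3 → |(derivative er).eval s| ≤ K * ε1 := fun s hs => by
    have := (hmk er 0 1 ε1 her one_pos (fun s hs => herr s (by rwa [sub_zero] at hs)) s
      (by rw [sub_zero]; linarith)).2
    rwa [div_one] at this
  have her2 : ∀ s : ℝ, |s| ≤ 3 → |(derivative (derivative er)).eval s| ≤ K * (K * ε1) :=
    fun s hs => by
      have := (hmk (derivative er) 0 1 (K * ε1)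
        ((natDegree_derivative_le er).trans (by omega)) one_pos
        (fun s hs => her1 s (by rw [sub_zero] at hs; linarith)) s (by rw [sub_zero]; linarith)).2
      rwa [div_one] at this
  -- the errors along the two other lines
  have hG : ∀ (E : ℝ[X]) (x : ℝ), E.natDegree ≤ D →
      (∀ s : ℝ, |s - x| ≤ ρt → |E.eval s - er.eval s| ≤ X) →
      (∀ s : ℝ, |s - x| ≤ 3 * ρt → |(derivative (E - er)).eval s| ≤ K * X / ρt) ∧
      ∀ s : ℝ, |s - x| ≤ 3 * ρt →
        |(derivative (derivative (E - er))).eval s| ≤ K * (K * X / ρt) / ρt := by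
    intro E x hE h
    have hdeg : (E - er).natDegree ≤ D := (natDegree_sub_le _ _).trans (max_le hE her)
    have g1 : ∀ s : ℝ, |s - x| ≤ 3 * ρt → |(derivative (E - er)).eval s| ≤ K * X / ρt :=
      fun s hs => (hmk (E - er) x ρt X hdeg hρt (fun s hs => by
        rw [eval_sub]; exact h s hs) s hs).2
    exact ⟨g1, fun s hs => (hmk (derivative (E - er)) x ρt (K * X / ρt)
      ((natDegree_derivative_le _).trans (by omega)) hρt
      (fun s hs => g1 s (by linarith)) s hs).2⟩
  obtain ⟨g01, g02⟩ := hG E0 A hE0 hG0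
  obtain ⟨g11, g12⟩ := hG E1 B hE1 hG1
  -- the slopes at the center
  obtain ⟨d0, hd0e⟩ : ∃ d0, d0 = (derivative D0).eval c0 := ⟨_, rfl⟩
  obtain ⟨d1, hd1e⟩ : ∃ d1, d1 = (derivative D1).eval c0 := ⟨_, rfl⟩
  obtain ⟨β, hβ⟩ : ∃ β, β = c0 + (D0.eval c0 - D1.eval c0 + d0 * (A - c0)) / d1 := ⟨_, rfl⟩
  rw [← hd0e] at hd0 ⊢
  rw [← hd1e] at hd1 ⊢
  rw [← hβ]
  have hd1p : 0 < |d1| := by
    by_contra hc
    have h0 : |d1| = 0 := le_antisymm (not_lt.1 hc) (abs_nonneg _)
    rw [h0, mul_zero] at hd1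
    linarith
  have hd1n : d1 ≠ 0 := abs_pos.1 hd1p
  have hd0p : 0 < |d0| := by
    by_contra hc
    have h0 : |d0| = 0 := le_antisymm (not_lt.1 hc) (abs_nonneg _)
    rw [h0, mul_zero] at hd0
    linarith
  have hd0n : d0 ≠ 0 := abs_pos.1 hd0p
  have hnear2 : ∀ s x : ℝ, |s - c0| ≤ |x - c0| → |x - c0| ≤ ρ0 → |s| ≤ 2 := by
    intro s x h1 h2
    have := abs_add_le (s - c0) c0
    rw [sub_add_cancel] at this
    linarith
  have t0 := tay D0 (a := c0) (b := A) (M := κ) fun s hs => hD0 s (hnear2 s A hs hA)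
  have t1 := tay D1 (a := c0) (b := B) (M := κ) fun s hs => hD1 s (hnear2 s B hs hB)
  rw [← hd0e] at t0
  rw [← hd1e] at t1
  have hsq : ∀ x : ℝ, |x - c0| ≤ ρ0 → κ * |x - c0| * |x - c0| ≤ κ * ρ0 ^ 2 := by
    intro x hx
    have h1 : |x - c0| * |x - c0| ≤ ρ0 * ρ0 :=
      mul_le_mul hx hx (abs_nonneg _) hρ00.le
    calc κ * |x - c0| * |x - c0| = κ * (|x - c0| * |x - c0|) := by ring
      _ ≤ κ * (ρ0 * ρ0) := mul_le_mul_of_nonneg_left h1 hκ0
      _ = κ * ρ0 ^ 2 := by ring
  have hβB : |β - B| ≤ η := by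
    have e1 : d1 * (β - B) = (D0.eval A - D1.eval B) -
        (D0.eval A - D0.eval c0 - d0 * (A - c0)) + (D1.eval B - D1.eval c0 - d1 * (B - c0)) := by
      rw [hβ]
      field_simp
      ring
    have e2 : |d1 * (β - B)| ≤ εu + 2 * (κ * ρ0 ^ 2) := by
      rw [e1]
      refine (abs_add_le _ _).trans ?_
      have := abs_sub (D0.eval A - D1.eval B) (D0.eval A - D0.eval c0 - d0 * (A - c0))
      have a1 := t0.trans (hsq A hA)
      have a2 := t1.trans (hsq B hB)
      linarith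
    rw [abs_mul] at e2
    refine le_trans ?_ hη
    have e3 : δ * |β - B| ≤ θ * (|d1| * |β - B|) := by
      calc δ * |β - B| ≤ θ * |d1| * |β - B| :=
            mul_le_mul_of_nonneg_right hd1 (abs_nonneg _)
        _ = θ * (|d1| * |β - B|) := by ring
    have e4 : δ * |β - B| ≤ θ * (εu + 2 * (κ * ρ0 ^ 2)) :=
      e3.trans (mul_le_mul_of_nonneg_left e2 hθ0.le)
    have e5 : θ * εu / δ + 2 * θ * κ * ρ0 ^ 2 / δ = θ * (εu + 2 * (κ * ρ0 ^ 2)) / δ := by
      ring
    rw [e5, le_div_iff₀ hδ, mul_comm]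
    exact e4
  have hAc : |A - B| ≤ 2 * ρ0 := by
    have := abs_sub_le A c0 B
    rw [abs_sub_comm c0 B] at this
    linarith
  have hβ3 : ∀ s : ℝ, |s - B| ≤ |β - B| → |s| ≤ 3 := by
    intro s hs
    have := abs_add_le (s - B) B
    rw [sub_add_cancel] at this
    linarith
  have hβt : ∀ s : ℝ, |s - B| ≤ |β - B| → |s - B| ≤ 3 * ρt := fun s hs => by linarith
  have m1 := mvt er (a := B) (b := A) (M := K * ε1) fun s hs => her1 s (by
    have := abs_add_le (s - B) B
    rw [sub_add_cancel] at this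
    linarith)
  have m2 := mvt er (a := B) (b := β) (M := K * ε1) fun s hs => her1 s (hβ3 s hs)
  have m3 := mvt (E1 - er) (a := B) (b := β) (M := K * X / ρt) fun s hs => g11 s (hβt s hs)
  have m4 := mvt (derivative er) (a := B) (b := β) (M := K * (K * ε1)) fun s hs =>
    her2 s (hβ3 s hs)
  have m5 := mvt (derivative (E1 - er)) (a := B) (b := β) (M := K * (K * X / ρt) / ρt)
    fun s hs => g12 s (hβt s hs)
  have hKe : 0 ≤ K * ε1 := mul_nonneg hK0 he10
  have hKX : 0 ≤ K * X / ρt := div_nonneg (mul_nonneg hK0 hX0) hρt.le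
  have hXt : 0 ≤ X / ρt := div_nonneg hX0 hρt.le
  have hXt2 : 0 ≤ X / ρt ^ 2 := div_nonneg hX0 (by positivity)
  have hKK : K ≤ K * K := by nlinarith
  constructor
  · -- the value
    rw [eval_sub, eval_sub] at m3
    have e1 : E0.eval A - E1.eval β = (E0.eval A - er.eval A) + (er.eval A - er.eval B) -
        (E1.eval B - er.eval B) - (E1.eval β - er.eval β - (E1.eval B - er.eval B)) -
        (er.eval β - er.eval B) := by ring
    have a1 : |er.eval A - er.eval B| ≤ K * ε1 * (2 * ρ0) :=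
      m1.trans (mul_le_mul_of_nonneg_left hAc hKe)
    have a2 : |er.eval β - er.eval B| ≤ K * ε1 * ρ0 :=
      m2.trans (mul_le_mul_of_nonneg_left (by linarith) hKe)
    have a3 : |E1.eval β - er.eval β - (E1.eval B - er.eval B)| ≤ K * X / ρt * η :=
      m3.trans (mul_le_mul_of_nonneg_left hβB hKX)
    rw [e1]
    have b1 := abs_sub ((E0.eval A - er.eval A) + (er.eval A - er.eval B) -
        (E1.eval B - er.eval B) - (E1.eval β - er.eval β - (E1.eval B - er.eval B)))
        (er.eval β - er.eval B)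
    have b2 := abs_sub ((E0.eval A - er.eval A) + (er.eval A - er.eval B) -
        (E1.eval B - er.eval B)) (E1.eval β - er.eval β - (E1.eval B - er.eval B))
    have b3 := abs_sub ((E0.eval A - er.eval A) + (er.eval A - er.eval B))
        (E1.eval B - er.eval B)
    have b4 := abs_add_le (E0.eval A - er.eval A) (er.eval A - er.eval B)
    have e2 : 2 * ε + 4 * (K * K) * (ε1 * ρ0 + X / ρt * η) =
        2 * ε + 4 * (K * K) * (ε1 * ρ0) + 4 * (K * K) * (X / ρt * η) := by ring
    have e3 : K * X / ρt * η ≤ 4 * (K * K) * (X / ρt * η) := by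
      have h1 : 0 ≤ X / ρt * η := mul_nonneg hXt hη0
      calc K * X / ρt * η = K * (X / ρt * η) := by ring
        _ ≤ 4 * (K * K) * (X / ρt * η) := mul_le_mul_of_nonneg_right (by linarith) h1
    have e4 : 3 * K * (ε1 * ρ0) ≤ 4 * (K * K) * (ε1 * ρ0) :=
      mul_le_mul_of_nonneg_right (by linarith) (mul_nonneg he10 hρ00.le)
    rw [e2]
    have e5 : K * ε1 * (2 * ρ0) + K * ε1 * ρ0 = 3 * K * (ε1 * ρ0) := by ring
    linarith
  · -- the derivatives
    intro V' hV'
    have hdA : |(derivative D0).eval A - d0| ≤ κ * ρ0 := by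
      rw [hd0e]
      refine (mvt (derivative D0) (a := c0) (b := A) (M := κ) fun s hs =>
        hD0 s (hnear2 s A hs hA)).trans ?_
      exact mul_le_mul_of_nonneg_left hA hκ0
    have hdB : |(derivative D1).eval B - d1| ≤ κ * ρ0 := by
      rw [hd1e]
      refine (mvt (derivative D1) (a := c0) (b := B) (M := κ) fun s hs =>
        hD1 s (hnear2 s B hs hB)).trans ?_
      exact mul_le_mul_of_nonneg_left hB hκ0
    have hlow : ∀ x y : ℝ, |x - y| ≤ κ * ρ0 → δ ≤ θ * |y| → δ ≤ 2 * θ * |x| := by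
      intro x y h1 h2
      have h3 : |y| ≤ |x| + κ * ρ0 := by
        have := abs_sub_abs_le_abs_sub y x
        rw [abs_sub_comm] at this
        linarith
      have h4 : θ * |y| ≤ θ * |x| + θ * κ * ρ0 := by
        calc θ * |y| ≤ θ * (|x| + κ * ρ0) := mul_le_mul_of_nonneg_left h3 hθ0.le
          _ = θ * |x| + θ * κ * ρ0 := by ring
      linarith
    have hxA := hlow _ _ hdA hd0
    have hxB := hlow _ _ hdB hd1
    have i0 := inv_near hδ hθ hd0 hxA hdA
    have i1 := inv_near hδ hθ hd1 hxB hdB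
    -- sizes
    have r0 := her1 A (by linarith)
    have r1 := her1 B (by linarith)
    have hG0A' : |(derivative E0).eval A - (derivative er).eval A| ≤ K * X / ρt := by
      have := g01 A (by rw [sub_self, abs_zero]; positivity)
      rwa [derivative_sub, eval_sub] at this
    have hG1B' : |(derivative E1).eval B - (derivative er).eval B| ≤ K * X / ρt := by
      have := g11 B (by rw [sub_self, abs_zero]; positivity)
      rwa [derivative_sub, eval_sub] at this
    have s0 : |(derivative E0).eval A| ≤ K * (X / ρt + ε1) := by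
      have := abs_add_le ((derivative E0).eval A - (derivative er).eval A)
        ((derivative er).eval A)
      rw [sub_add_cancel] at this
      calc |(derivative E0).eval A| ≤ K * X / ρt + K * ε1 := by linarith
        _ = K * (X / ρt + ε1) := by ring
    have s1 : |(derivative E1).eval B| ≤ K * (X / ρt + ε1) := by
      have := abs_add_le ((derivative E1).eval B - (derivative er).eval B)
        ((derivative er).eval B)
      rw [sub_add_cancel] at this
      calc |(derivative E1).eval B| ≤ K * X / ρt + K * ε1 := by linarith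
        _ = K * (X / ρt + ε1) := by ring
    have s2 : |(derivative E1).eval β - (derivative E1).eval B| ≤
        K * K * (X / ρt ^ 2 + ε1) * η := by
      rw [derivative_sub, eval_sub, eval_sub] at m5
      have e1 : (derivative E1).eval β - (derivative E1).eval B =
          ((derivative E1).eval β - (derivative er).eval β -
            ((derivative E1).eval B - (derivative er).eval B)) +
          ((derivative er).eval β - (derivative er).eval B) := by ring
      rw [e1]
      refine (abs_add_le _ _).trans ?_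
      have a1 := m4.trans (mul_le_mul_of_nonneg_left hβB (mul_nonneg hK0 hKe))
      have a2 := m5.trans (mul_le_mul_of_nonneg_left hβB
        (div_nonneg (mul_nonneg hK0 hKX) hρt.le))
      calc _ ≤ K * (K * X / ρt) / ρt * η + K * (K * ε1) * η := add_le_add a2 a1
        _ = K * K * (X / ρt ^ 2 + ε1) * η := by
          field_simp
    -- the five differences
    obtain ⟨x0, hx0⟩ : ∃ x0, x0 = (derivative D0).eval A := ⟨_, rfl⟩
    obtain ⟨x1, hx1⟩ : ∃ x1, x1 = (derivative D1).eval B := ⟨_, rfl⟩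
    rw [← hx0] at hxA i0 ⊢
    rw [← hx1] at hxB i1 ⊢
    have b1 : |(derivative E0).eval A * (1 / x0 - 1 / d0)| ≤
        K * (X / ρt + ε1) * (2 * θ ^ 2 * (κ * ρ0) / δ ^ 2) := by
      rw [abs_mul]
      exact mul_le_mul s0 i0 (abs_nonneg _) (mul_nonneg hK0 (by linarith))
    have b2 : |(derivative E1).eval B * (1 / x1 - 1 / d1)| ≤
        K * (X / ρt + ε1) * (2 * θ ^ 2 * (κ * ρ0) / δ ^ 2) := by
      rw [abs_mul]
      exact mul_le_mul s1 i1 (abs_nonneg _) (mul_nonneg hK0 (by linarith))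
    have b3 : |((derivative E0).eval A - d0 / d1 * (derivative E1).eval β) / d0| ≤
        V' * θ / δ := quo_le hδ hd0 hV'
    have b4 : |((derivative E1).eval β - (derivative E1).eval B) / d1| ≤
        K * K * (X / ρt ^ 2 + ε1) * η * θ / δ := quo_le hδ hd1 s2
    have b5 : |(derivative er).eval A / x0| ≤ K * ε1 * (2 * θ) / δ := quo_le hδ hxA r0
    have b6 : |(derivative er).eval B / x1| ≤ K * ε1 * (2 * θ) / δ := quo_le hδ hxB r1
    have e1 : ((derivative E0).eval A - (derivative er).eval A) / x0 -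
        ((derivative E1).eval B - (derivative er).eval B) / x1 =
        (derivative E0).eval A * (1 / x0 - 1 / d0) +
        ((derivative E0).eval A - d0 / d1 * (derivative E1).eval β) / d0 +
        ((derivative E1).eval β - (derivative E1).eval B) / d1 -
        (derivative E1).eval B * (1 / x1 - 1 / d1) -
        (derivative er).eval A / x0 + (derivative er).eval B / x1 := by
      field_simp
      ring
    rw [e1]
    obtain ⟨y1, hy1⟩ : ∃ y1, y1 = (derivative E0).eval A * (1 / x0 - 1 / d0) := ⟨_, rfl⟩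
    obtain ⟨y2, hy2⟩ : ∃ y2, y2 = (derivative E1).eval B * (1 / x1 - 1 / d1) := ⟨_, rfl⟩
    obtain ⟨y3, hy3⟩ : ∃ y3, y3 = ((derivative E0).eval A -
      d0 / d1 * (derivative E1).eval β) / d0 := ⟨_, rfl⟩
    obtain ⟨y4, hy4⟩ : ∃ y4, y4 = ((derivative E1).eval β -
      (derivative E1).eval B) / d1 := ⟨_, rfl⟩
    obtain ⟨y5, hy5⟩ : ∃ y5, y5 = (derivative er).eval A / x0 := ⟨_, rfl⟩
    obtain ⟨y6, hy6⟩ : ∃ y6, y6 = (derivative er).eval B / x1 := ⟨_, rfl⟩
    rw [← hy1] at b1 ⊢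
    rw [← hy2] at b2 ⊢
    rw [← hy3] at b3 ⊢
    rw [← hy4] at b4 ⊢
    rw [← hy5] at b5 ⊢
    rw [← hy6] at b6 ⊢
    have f1 : |y1 + y3 + y4 - y2 - y5 + y6| ≤ |y1| + |y3| + |y4| + |y2| + |y5| + |y6| := by
      have c1 := abs_add_le (y1 + y3 + y4 - y2 - y5) y6
      have c2 := abs_sub (y1 + y3 + y4 - y2) y5
      have c3 := abs_sub (y1 + y3 + y4) y2
      have c4 := abs_add_le (y1 + y3) y4
      have c5 := abs_add_le y1 y3
      linarith
    refine f1.trans ?_
    have hV0 : 0 ≤ V' := (abs_nonneg _).trans hV'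
    have hθδ : 0 ≤ θ / δ := by positivity
    have g1 : K * (X / ρt + ε1) * (2 * θ ^ 2 * (κ * ρ0) / δ ^ 2) =
        2 * K * (θ / δ) * ((X / ρt + ε1) * (θ * κ * ρ0 / δ)) := by
      field_simp
    have g2 : V' * θ / δ = (θ / δ) * V' := by ring
    have g3 : K * K * (X / ρt ^ 2 + ε1) * η * θ / δ =
        K * K * (θ / δ) * ((X / ρt ^ 2 + ε1) * η) := by ring
    have g4 : K * ε1 * (2 * θ) / δ = 2 * K * (θ / δ) * ε1 := by ring
    rw [g1] at b1 b2
    rw [g2] at b3
    rw [g3] at b4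
    rw [g4] at b5 b6
    have z1 : 0 ≤ (θ / δ) * ((X / ρt + ε1) * (θ * κ * ρ0 / δ)) := by positivity
    have z2 : 0 ≤ (θ / δ) * V' := by positivity
    have z3 : 0 ≤ (θ / δ) * ((X / ρt ^ 2 + ε1) * η) := by positivity
    have z4 : 0 ≤ (θ / δ) * ε1 := by positivity
    have w1 : 4 * K * ((θ / δ) * ((X / ρt + ε1) * (θ * κ * ρ0 / δ))) ≤
        4 * (K * K) * ((θ / δ) * ((X / ρt + ε1) * (θ * κ * ρ0 / δ))) :=
      mul_le_mul_of_nonneg_right (by linarith) z1
    have w2 : (θ / δ) * V' ≤ 4 * (K * K) * ((θ / δ) * V') := by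
      have : 1 ≤ 4 * (K * K) := by nlinarith
      calc (θ / δ) * V' = 1 * ((θ / δ) * V') := (one_mul _).symm
        _ ≤ _ := mul_le_mul_of_nonneg_right this z2
    have w3 : K * K * ((θ / δ) * ((X / ρt ^ 2 + ε1) * η)) ≤
        4 * (K * K) * ((θ / δ) * ((X / ρt ^ 2 + ε1) * η)) :=
      mul_le_mul_of_nonneg_right (by nlinarith) z3
    have w4 : 4 * K * ((θ / δ) * ε1) ≤ 4 * (K * K) * ((θ / δ) * ε1) :=
      mul_le_mul_of_nonneg_right (by linarith) z4
    have e9 : 4 * (K * K) * (θ / δ) *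
        (V' + (X / ρt ^ 2 + ε1) * η + (X / ρt + ε1) * (θ * κ * ρ0 / δ) + ε1) =
        4 * (K * K) * ((θ / δ) * V') + 4 * (K * K) * ((θ / δ) * ((X / ρt ^ 2 + ε1) * η)) +
        4 * (K * K) * ((θ / δ) * ((X / ρt + ε1) * (θ * κ * ρ0 / δ))) +
        4 * (K * K) * ((θ / δ) * ε1) := by ring
    rw [e9]
    have q1 : 2 * K * (θ / δ) * ((X / ρt + ε1) * (θ * κ * ρ0 / δ)) +
        2 * K * (θ / δ) * ((X / ρt + ε1) * (θ * κ * ρ0 / δ)) =
        4 * K * ((θ / δ) * ((X / ρt + ε1) * (θ * κ * ρ0 / δ))) := by ring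
    have q2 : 2 * K * (θ / δ) * ε1 + 2 * K * (θ / δ) * ε1 = 4 * K * ((θ / δ) * ε1) := by ring
    have q3 : K * K * (θ / δ) * ((X / ρt ^ 2 + ε1) * η) =
        K * K * ((θ / δ) * ((X / ρt ^ 2 + ε1) * η)) := by ring
    rw [q3] at b4
    linarith

end Pool.SL77
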