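import Pool.Agent.H77.SL.Law
import Pool.Agent.H98.STB.Law

/-!
# The end of the star lemma

`pick_dbl`: one copy for each label. `few_of_near`: a number which is near for two copies is few given
the label. `sl_fin`: the quotients `e` of two stars on one line are near; two samples over the deeper
base `zd` have the natural relation: the slopes `c` of the two samples of a star are near.
-/

set_option autoImplicit false

namespace Pool.SL77

open Finset Real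
open Pool.Agent.H49.Ent Pool.Agent.H32.Dense Pool.STK
open Pool.BFL (Pb)
open Pool.STB (Pb_mono Pb_or)
open Pool.K2S (cpn)
open Pool.CLU (cpn_law cpn_pos cpn_marg)
open Pool.MIC (cpn_pair)

section

variable {Ω Z R Λ C Y : Type} [Fintype Ω]

/-- **One copy for each label.** -/
theorem pick_dbl {q : Ω → ℝ} (hq : IsLaw q) (y : Ω → Y) (Rel : Ω → Ω → Prop) {η : ℝ}
    (h : Pb (dbl q y) (fun v => ¬ Rel v.1 v.2) ≤ η) :
    ∃ s : Y → Ω, Pb q (fun ω => ¬ Rel ω (s (y ω))) ≤ η := by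
  classical
  have q0 := hq.nonneg
  obtain ⟨ω₀, -⟩ : ∃ ω₀ : Ω, 0 < q ω₀ := by
    by_contra hc
    push Not at hc
    have h1 := Finset.sum_nonpos (s := Finset.univ) (f := q) fun w _ => hc w
    rw [hq.sum_one] at h1
    linarith
  obtain ⟨hh, hhe⟩ : ∃ hh : Y → Ω → ℝ, hh = fun γ g =>
    ∑ ω, (if y ω = γ then (if ¬ Rel ω g then q ω else 0) else 0) := ⟨_, rfl⟩
  have hmin : ∀ γ : Y, ∃ g : Ω, ∀ g' : Ω, hh γ g ≤ hh γ g' := fun γ => by
    obtain ⟨g, -, hg⟩ := Finset.exists_min_image (Finset.univ : Finset Ω) (hh γ)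
      ⟨ω₀, Finset.mem_univ _⟩
    exact ⟨g, fun g' => hg g' (Finset.mem_univ _)⟩
  choose s hs using hmin
  refine ⟨s, le_trans ?_ h⟩
  -- the probability for the pairs
  have e1 : Pb (dbl q y) (fun v => ¬ Rel v.1 v.2) = ∑ g, q g / law q y (y g) * hh (y g) g := by
    unfold Pb
    rw [Fintype.sum_prod_type, Finset.sum_comm]
    refine Finset.sum_congr rfl fun g _ => ?_
    rw [hhe]
    simp only
    rw [Finset.mul_sum]
    refine Finset.sum_congr rfl fun ω _ => ?_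
    unfold dbl Pool.Agent.H49.Ent.glue
    simp only
    by_cases h1 : y ω = y g
    · rw [if_pos h1, if_pos h1, h1]
      by_cases h2 : ¬ Rel ω g
      · rw [if_pos h2, if_pos h2]
        ring
      · rw [if_neg h2, if_neg h2, mul_zero]
    · rw [if_neg h1, if_neg h1, mul_zero]
      split_ifs <;> rfl
  have e2 : Pb q (fun ω => ¬ Rel ω (s (y ω))) =
      ∑ g, q g / law q y (y g) * hh (y g) (s (y g)) := by
    have e3 : ∀ g, q g / law q y (y g) * hh (y g) (s (y g)) =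
        ∑ ω, (if y ω = y g then q g / law q y (y ω) *
          (if ¬ Rel ω (s (y ω)) then q ω else 0) else 0) := by
      intro g
      rw [hhe]
      simp only
      rw [Finset.mul_sum]
      refine Finset.sum_congr rfl fun ω _ => ?_
      by_cases h1 : y ω = y g
      · rw [if_pos h1, if_pos h1, h1]
      · rw [if_neg h1, if_neg h1, mul_zero]
    rw [Finset.sum_congr rfl fun g _ => e3 g, Finset.sum_comm]
    unfold Pb
    refine Finset.sum_congr rfl fun ω _ => ?_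
    have e4 : ∑ g, (if y ω = y g then q g / law q y (y ω) *
        (if ¬ Rel ω (s (y ω)) then q ω else 0) else 0) =
        (∑ g, (if y g = y ω then q g else 0)) / law q y (y ω) *
          (if ¬ Rel ω (s (y ω)) then q ω else 0) := by
      rw [Finset.sum_div, Finset.sum_mul]
      refine Finset.sum_congr rfl fun g _ => ?_
      by_cases h1 : y ω = y g
      · rw [if_pos h1, if_pos h1.symm]
      · rw [if_neg h1, if_neg (fun h => h1 h.symm), zero_div, zero_mul]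
    rw [e4]
    have e5 : ∑ g, (if y g = y ω then q g else 0) = law q y (y ω) := by
      unfold law
      refine Finset.sum_congr rfl fun g _ => ?_
      congr 1
    rw [e5]
    by_cases h1 : 0 < q ω
    · rw [div_self (law_pos q0 y h1).ne', one_mul]
      by_cases h2 : Rel ω (s (y ω)) <;> simp [h2]
    · have h2 : q ω = 0 := le_antisymm (not_lt.1 h1) (q0 ω)
      rw [h2]
      simp
  rw [e1, e2]
  refine Finset.sum_le_sum fun g _ => ?_
  exact mul_le_mul_of_nonneg_left (hs (y g) g) (div_nonneg (q0 g) (law_nonneg q0 _ _))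

/-- **Few from near copies.** -/
theorem few_of_near {p : Ω → ℝ} (hp : IsLaw p) (r : Ω → R) (X : Ω → ℤ) (K N : ℕ)
    (F₀ : R → Finset ℤ) {η : ℝ} (hN : 1 ≤ N) (hF : ∀ ω, 0 < p ω → X ω ∈ F₀ (r ω))
    (hF₀ : ∀ v, (F₀ v).card ≤ N)
    (h : Pb (cpn p r 1) (fun v => ¬ |X (v 0) - X (v 1)| ≤ (K : ℤ)) ≤ η) :
    CH p X r ≤ Real.log 2 + Real.log (2 * K + 1) + η * Real.log N := by
  classical
  have h2 := cpn_pair hp.nonneg r 1 (i := 0) (i' := 1) (by decide)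
  have h3 := Pool.MIC.Marg.Pb_eq h2 (fun w : Ω × Ω => ¬ |X w.1 - X w.2| ≤ (K : ℤ))
  rw [h3] at h
  obtain ⟨s, hs⟩ := pick_dbl hp r (fun ω ω' => |X ω - X ω'| ≤ (K : ℤ)) h
  have h4 := Pool.H52.TIE.CH_le_two hp X r (fun ω => |X ω - X (s (r ω))| ≤ (K : ℤ))
    (fun v => Finset.Icc (X (s v) - K) (X (s v) + K)) F₀ (K := 2 * K + 1) (N := N)
    (fun ω _ hω => by
      rw [Finset.mem_Icc]
      rw [abs_le] at hω
      constructor <;> linarith [hω.1, hω.2])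
    (fun v => by
      rw [Int.card_Icc]
      have : (X (s v) + K + 1 - (X (s v) - K) : ℤ) = ((2 * K + 1 : ℕ) : ℤ) := by
        push_cast
        ring
      rw [this, Int.toNat_natCast]) hF hF₀ (by omega) hN
  have h5 : ((2 * K + 1 : ℕ) : ℝ) = 2 * K + 1 := by push_cast; ring
  rw [h5] at h4
  refine h4.trans ?_
  have h6 : Pb p (fun ω => ¬ |X ω - X (s (r ω))| ≤ (K : ℤ)) * Real.log N ≤ η * Real.log N :=
    mul_le_mul_of_nonneg_right hs (Real.log_nonneg (by exact_mod_cast hN))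
  linarith

/-- The triple: two samples over `zd` and one more over `zp`. -/
noncomputable def tri3 (p : Ω → ℝ) (zd : Ω → R) (zp : Ω → Z) : (Fin 2 → Ω) × Ω → ℝ :=
  glue (cpn p zd 1) p (fun v => zp (v 0)) zp

theorem tri3_marg {p : Ω → ℝ} (hp : IsLaw p) (zd : Ω → R) (zp : Ω → Z) (hdp : Det p zd zp)
    (i : Fin 2) : Marg (tri3 p zd zp) (dbl p zp) (fun w => (w.1 i, w.2)) := by
  classical
  have hm := cpn_marg hp.nonneg zd 1 i
  have h1 : tri3 p zd zp = glue (cpn p zd 1) p (fun v => zp (v i)) zp := by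
    funext w
    unfold tri3 Pool.Agent.H49.Ent.glue
    simp only
    have hl : ∀ j : Fin 2, law (cpn p zd 1) (fun v => zp (v j)) = law p zp := fun j =>
      funext fun z => (cpn_marg hp.nonneg zd 1 j).law zp z
    rw [hl 0, hl i]
    by_cases hw : 0 < cpn p zd 1 w.1
    · have h2 := cpn_pos hp.nonneg zd 1 w.1 hw
      have h3 : zp (w.1 i) = zp (w.1 0) := hdp _ _ (h2.1 i) (h2.1 0) (h2.2 i)
      rw [h3]
    · have h2 : cpn p zd 1 w.1 = 0 :=
        le_antisymm (not_lt.1 hw) ((cpn_law hp zd 1).nonneg w.1)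
      rw [h2]
      simp
  rw [h1]
  exact Marg.glue (Z₁ := zp) (Z₂ := zp) hm (Marg.id p)

theorem tri3_fst {p : Ω → ℝ} (hp : IsLaw p) (zd : Ω → R) (zp : Ω → Z) :
    Marg (tri3 p zd zp) (cpn p zd 1) (fun w => w.1) := by
  unfold tri3
  exact marg_fst (cpn_law hp zd 1).nonneg fun z => (cpn_marg hp.nonneg zd 1 0).law zp z

theorem tri3_nonneg {p : Ω → ℝ} (hp : IsLaw p) (zd : Ω → R) (zp : Ω → Z) (w : (Fin 2 → Ω) × Ω) :
    0 ≤ tri3 p zd zp w := glue_nonneg (cpn_law hp zd 1).nonneg hp.nonneg w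

/-- The quotient of a star. -/
noncomputable def qst (a f : Ω → ℝ) (x y : Ω) : ℝ := (a x - a y) / (f x - f y)

/-- The slope of one sample from two quotients. -/
theorem slope_of {a0 a1 a2 f0 f1 f2 c g θδ nat δ' : ℝ} (hδ' : 0 < δ') (h02 : f0 - f2 ≠ 0)
    (h12 : f1 - f2 ≠ 0) (hg : |(a0 - a2) / (f0 - f2) - (a1 - a2) / (f1 - f2)| ≤ g)
    (hθ : |f1 - f2| ≤ θδ) (hn : |a1 - a0 - c * (f1 - f0)| ≤ nat) (hs : δ' ≤ |f1 - f0|) :
    |c - (a0 - a2) / (f0 - f2)| ≤ (g * θδ + nat) / δ' := by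
  obtain ⟨q0, hq0⟩ : ∃ q0, q0 = (a0 - a2) / (f0 - f2) := ⟨_, rfl⟩
  obtain ⟨q1, hq1⟩ : ∃ q1, q1 = (a1 - a2) / (f1 - f2) := ⟨_, rfl⟩
  have e0 : a0 - a2 = q0 * (f0 - f2) := by rw [hq0]; field_simp
  have e1 : a1 - a2 = q1 * (f1 - f2) := by rw [hq1]; field_simp
  rw [← hq0, ← hq1] at hg
  rw [← hq0]
  have e2 : (c - q0) * (f1 - f0) = (q1 - q0) * (f1 - f2) - (a1 - a0 - c * (f1 - f0)) := by
    have e3 : a1 - a0 = q1 * (f1 - f2) - q0 * (f0 - f2) := by rw [← e0, ← e1]; ring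
    rw [e3]
    ring
  have hg0 : 0 ≤ g := (abs_nonneg _).trans hg
  have h1 : |c - q0| * |f1 - f0| ≤ g * θδ + nat := by
    rw [← abs_mul, e2]
    refine (abs_sub _ _).trans (add_le_add ?_ hn)
    rw [abs_mul, abs_sub_comm q1 q0]
    exact mul_le_mul hg hθ (abs_nonneg _) hg0
  rw [le_div_iff₀ hδ']
  exact (mul_le_mul_of_nonneg_left hs (abs_nonneg _)).trans h1

/-- **The end of the star lemma.** -/
theorem sl_fin {p : Ω → ℝ} (hp : IsLaw p) (zp : Ω → Z) (zd : Ω → R) (l : Ω → Λ) (c0 : Ω → C)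
    (a f c2 c : Ω → ℝ) (hdp : Det p zd zp)
    {g δ δ' θ nat η : ℝ} (hδ : 0 < δ) (hδ' : 0 < δ')
    (h1 : Pb (cpn (cpn p zp 1) (fun v => (l (v 1), c0 (v 1))) 1)
      (fun W => ¬ |(qst a f (W 0 0) (W 0 1) - c2 (W 0 1)) -
        (qst a f (W 1 0) (W 1 1) - c2 (W 1 1))| ≤ g) ≤ η)
    (h2 : Pb (cpn p zp 1) (fun v => ¬ (δ ≤ θ * |f (v 0) - f (v 1)| ∧
      |f (v 0) - f (v 1)| ≤ θ * δ)) ≤ η)
    (h3 : Pb (cpn p zd 1) (fun v => ¬ (|a (v 1) - a (v 0) - c (v 0) * (f (v 1) - f (v 0))| ≤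
      nat ∧ δ' ≤ |f (v 1) - f (v 0)|)) ≤ η) :
    Pb (cpn p zp 1) (fun v => ¬ |c (v 0) - c (v 1)| ≤
      2 * ((2 * g * (θ * δ) + nat) / δ')) ≤ 10 * η := by
  classical
  have hq := cpn_law hp zp 1
  have q0 := hq.nonneg
  have t0 := fun w => tri3_nonneg hp zd zp w
  have hsep : ∀ x y : Ω, δ ≤ θ * |f x - f y| → f x - f y ≠ 0 := by
    intro x y h hc
    rw [hc, abs_zero, mul_zero] at h
    linarith
  -- one quotient for each line
  have p1 := cpn_pair hq.nonneg (fun v : Fin 2 → Ω => (l (v 1), c0 (v 1))) 1 (i := 0) (i' := 1)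
    (by decide)
  have p2 := Pool.MIC.Marg.Pb_eq p1 (fun w : (Fin 2 → Ω) × (Fin 2 → Ω) =>
    ¬ |(qst a f (w.1 0) (w.1 1) - c2 (w.1 1)) - (qst a f (w.2 0) (w.2 1) - c2 (w.2 1))| ≤ g)
  obtain ⟨s, hs⟩ := pick_dbl hq (fun v : Fin 2 → Ω => (l (v 1), c0 (v 1)))
    (fun v v' => |(qst a f (v 0) (v 1) - c2 (v 1)) - (qst a f (v' 0) (v' 1) - c2 (v' 1))| ≤ g)
    (p2.symm.le.trans h1)
  obtain ⟨Φ, hΦ⟩ : ∃ Φ : Λ × C → ℝ, Φ = fun k => qst a f (s k 0) (s k 1) - c2 (s k 1) :=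
    ⟨_, rfl⟩
  -- transfer of the events of a star to the triple
  have hpr := cpn_pair hp.nonneg zp 1 (i := 0) (i' := 1) (by decide)
  have hpr' := cpn_pair hp.nonneg zp 1 (i := 1) (i' := 0) (by decide)
  have htr : ∀ (A : Ω × Ω → Prop) (i : Fin 2), Pb (tri3 p zd zp) (fun w => A (w.1 i, w.2)) =
      Pb (cpn p zp 1) (fun v => A (v 0, v 1)) := fun A i => by
    rw [Pool.MIC.Marg.Pb_eq (tri3_marg hp zd zp hdp i) A,
      Pool.MIC.Marg.Pb_eq hpr A]
  have hΦe : ∀ i : Fin 2, Pb (tri3 p zd zp) (fun w =>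
      ¬ |(qst a f (w.1 i) w.2 - c2 w.2) - Φ (l w.2, c0 w.2)| ≤ g) ≤ η := fun i => by
    have h := htr (fun x => ¬ |(qst a f x.1 x.2 - c2 x.2) - Φ (l x.2, c0 x.2)| ≤ g) i
    rw [h, hΦ]
    exact hs
  have hse : ∀ i : Fin 2, Pb (tri3 p zd zp) (fun w => ¬ (δ ≤ θ * |f (w.1 i) - f w.2| ∧
      |f (w.1 i) - f w.2| ≤ θ * δ)) ≤ η := fun i => by
    have h := htr (fun x => ¬ (δ ≤ θ * |f x.1 - f x.2| ∧ |f x.1 - f x.2| ≤ θ * δ)) i
    rw [h]
    exact h2
  have hna : Pb (tri3 p zd zp) (fun w => ¬ (|a (w.1 1) - a (w.1 0) - c (w.1 0) *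
      (f (w.1 1) - f (w.1 0))| ≤ nat ∧ δ' ≤ |f (w.1 1) - f (w.1 0)|)) ≤ η := by
    rw [Pool.MIC.Marg.Pb_eq (tri3_fst hp zd zp) (fun v => ¬ (|a (v 1) - a (v 0) - c (v 0) *
      (f (v 1) - f (v 0))| ≤ nat ∧ δ' ≤ |f (v 1) - f (v 0)|))]
    exact h3
  -- the slope of the first sample
  have hone : Pb (tri3 p zd zp) (fun w => ¬ |c (w.1 0) - qst a f (w.1 0) w.2| ≤
      (2 * g * (θ * δ) + nat) / δ') ≤ 5 * η := by
    refine (Pb_mono t0 (B := fun w =>
      (¬ |(qst a f (w.1 0) w.2 - c2 w.2) - Φ (l w.2, c0 w.2)| ≤ g) ∨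
      ((¬ |(qst a f (w.1 1) w.2 - c2 w.2) - Φ (l w.2, c0 w.2)| ≤ g) ∨
      ((¬ (δ ≤ θ * |f (w.1 0) - f w.2| ∧ |f (w.1 0) - f w.2| ≤ θ * δ)) ∨
      ((¬ (δ ≤ θ * |f (w.1 1) - f w.2| ∧ |f (w.1 1) - f w.2| ≤ θ * δ)) ∨
      (¬ (|a (w.1 1) - a (w.1 0) - c (w.1 0) *
        (f (w.1 1) - f (w.1 0))| ≤ nat ∧ δ' ≤ |f (w.1 1) - f (w.1 0)|)))))) ?_).trans ?_
    · intro w _ hw
      by_contra hcon
      rw [not_or, not_or, not_or, not_or, not_not, not_not, not_not, not_not, not_not] at hcon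
      obtain ⟨k1, k2, k3, k4, k5⟩ := hcon
      apply hw
      have k6 : |(a (w.1 0) - a w.2) / (f (w.1 0) - f w.2) -
          (a (w.1 1) - a w.2) / (f (w.1 1) - f w.2)| ≤ 2 * g := by
        unfold qst at k1 k2
        have e1 : (a (w.1 0) - a w.2) / (f (w.1 0) - f w.2) -
            (a (w.1 1) - a w.2) / (f (w.1 1) - f w.2) =
            ((a (w.1 0) - a w.2) / (f (w.1 0) - f w.2) - c2 w.2 - Φ (l w.2, c0 w.2)) -
            ((a (w.1 1) - a w.2) / (f (w.1 1) - f w.2) - c2 w.2 - Φ (l w.2, c0 w.2)) := by ring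
        rw [e1]
        refine (abs_sub _ _).trans ?_
        linarith
      exact slope_of hδ' (hsep _ _ k3.1) (hsep _ _ k4.1) k6 k4.2 k5.1 k5.2
    · have b1 := hΦe 0
      have b2 := hΦe 1
      have b3 := hse 0
      have b4 := hse 1
      refine (Pb_or t0 _ _).trans ?_
      refine (add_le_add b1 ((Pb_or t0 _ _).trans (add_le_add b2 ((Pb_or t0 _ _).trans
        (add_le_add b3 ((Pb_or t0 _ _).trans (add_le_add b4 hna))))))).trans ?_
      linarith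
  have hD : Pb (dbl p zp) (fun x => ¬ |c x.1 - qst a f x.1 x.2| ≤
      (2 * g * (θ * δ) + nat) / δ') ≤ 5 * η := by
    rw [← Pool.MIC.Marg.Pb_eq (tri3_marg hp zd zp hdp 0) (fun x => ¬ |c x.1 - qst a f x.1 x.2| ≤
      (2 * g * (θ * δ) + nat) / δ')]
    exact hone
  have h01 : Pb (cpn p zp 1) (fun v => ¬ |c (v 0) - qst a f (v 0) (v 1)| ≤
      (2 * g * (θ * δ) + nat) / δ') ≤ 5 * η := by
    rw [Pool.MIC.Marg.Pb_eq hpr (fun x => ¬ |c x.1 - qst a f x.1 x.2| ≤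
      (2 * g * (θ * δ) + nat) / δ')]
    exact hD
  have h10 : Pb (cpn p zp 1) (fun v => ¬ |c (v 1) - qst a f (v 1) (v 0)| ≤
      (2 * g * (θ * δ) + nat) / δ') ≤ 5 * η := by
    rw [Pool.MIC.Marg.Pb_eq hpr' (fun x => ¬ |c x.1 - qst a f x.1 x.2| ≤
      (2 * g * (θ * δ) + nat) / δ')]
    exact hD
  refine (Pb_mono q0 (B := fun v => (¬ |c (v 0) - qst a f (v 0) (v 1)| ≤
      (2 * g * (θ * δ) + nat) / δ') ∨ (¬ |c (v 1) - qst a f (v 1) (v 0)| ≤
      (2 * g * (θ * δ) + nat) / δ')) ?_).trans ?_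
  · intro v _ hv
    by_contra hcon
    rw [not_or, not_not, not_not] at hcon
    obtain ⟨k1, k2⟩ := hcon
    apply hv
    have e0 : qst a f (v 1) (v 0) = qst a f (v 0) (v 1) := by
      unfold qst
      rw [← neg_sub (a (v 0)) (a (v 1)), ← neg_sub (f (v 0)) (f (v 1)), neg_div_neg_eq]
    rw [e0] at k2
    have e1 : c (v 0) - c (v 1) = (c (v 0) - qst a f (v 0) (v 1)) -
        (c (v 1) - qst a f (v 0) (v 1)) := by ring
    rw [e1]
    refine (abs_sub _ _).trans ?_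
    linarith
  · refine (Pb_or q0 _ _).trans ?_
    linarith

end

end Pool.SL77
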