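import Pool.Agent.H77.SL.Tri

/-!
# The formula of the quotients

`Qc`, `Qh`, `Qd`: the interpolation polynomial of the parallel lines along a path, at a fixed height,
and its derivative in the height. `f_val`, `f_der`: the values and the derivatives of the errors `E`
of `star_core` in terms of the own paths.
-/

set_option autoImplicit false

namespace Pool.SL77

open Finset Polynomial

section

variable {K : ℕ}

/-- The interpolation polynomial along the path `D`. -/
noncomputable def Qc (q c : Fin K → ℝ[X]) (D : ℝ[X]) : ℝ[X] := ∑ k, (q k).comp D * c k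

/-- The interpolation polynomial at the height `h`. -/
noncomputable def Qh (q c : Fin K → ℝ[X]) (h : ℝ) : ℝ[X] := ∑ k, C ((q k).eval h) * c k

/-- The derivative in the height at the height `h`. -/
noncomputable def Qd (q c : Fin K → ℝ[X]) (h : ℝ) : ℝ[X] :=
  ∑ k, C ((derivative (q k)).eval h) * c k

theorem Qc_eval (q c : Fin K → ℝ[X]) (D : ℝ[X]) (x : ℝ) :
    (Qc q c D).eval x = ∑ k, (q k).eval (D.eval x) * (c k).eval x := by
  unfold Qc
  rw [eval_finsetSum]
  refine Finset.sum_congr rfl fun k _ => ?_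
  rw [eval_mul, eval_comp]

theorem Qh_eval (q c : Fin K → ℝ[X]) (h x : ℝ) :
    (Qh q c h).eval x = ∑ k, (q k).eval h * (c k).eval x := by
  unfold Qh
  rw [eval_finsetSum]
  refine Finset.sum_congr rfl fun k _ => ?_
  rw [eval_mul, eval_C]

theorem Qd_eval (q c : Fin K → ℝ[X]) (h x : ℝ) :
    (Qd q c h).eval x = ∑ k, (derivative (q k)).eval h * (c k).eval x := by
  unfold Qd
  rw [eval_finsetSum]
  refine Finset.sum_congr rfl fun k _ => ?_
  rw [eval_mul, eval_C]

theorem Qc_der (q c : Fin K → ℝ[X]) (D : ℝ[X]) (x : ℝ) :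
    (derivative (Qc q c D)).eval x = ∑ k, ((derivative (q k)).eval (D.eval x) *
      (derivative D).eval x * (c k).eval x + (q k).eval (D.eval x) *
        (derivative (c k)).eval x) := by
  unfold Qc
  rw [derivative_sum, eval_finsetSum]
  refine Finset.sum_congr rfl fun k _ => ?_
  rw [derivative_mul, derivative_comp, eval_add, eval_mul, eval_mul, eval_mul, eval_comp,
    eval_comp]
  ring

theorem Qh_der (q c : Fin K → ℝ[X]) (h x : ℝ) :
    (derivative (Qh q c h)).eval x = ∑ k, (q k).eval h * (derivative (c k)).eval x := by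
  unfold Qh
  rw [derivative_sum, eval_finsetSum]
  refine Finset.sum_congr rfl fun k _ => ?_
  rw [derivative_C_mul, eval_mul, eval_C]

theorem Qc_deg {q c : Fin K → ℝ[X]} {D : ℝ[X]} {d : ℕ} (hq : ∀ k, (q k).natDegree ≤ d)
    (hc : ∀ k, (c k).natDegree ≤ d) (hD : D.natDegree ≤ d) :
    (Qc q c D).natDegree ≤ d * d + d := by
  unfold Qc
  refine natDegree_sum_le_of_forall_le _ _ fun k _ => ?_
  refine natDegree_mul_le.trans (add_le_add ?_ (hc k))
  exact natDegree_comp_le.trans (Nat.mul_le_mul (hq k) hD)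

theorem Qh_deg {q c : Fin K → ℝ[X]} {d : ℕ} (hc : ∀ k, (c k).natDegree ≤ d) (h : ℝ) :
    (Qh q c h).natDegree ≤ d := by
  unfold Qh
  refine natDegree_sum_le_of_forall_le _ _ fun k _ => ?_
  exact (natDegree_C_mul_le _ _).trans (hc k)

theorem Qd_deg {q c : Fin K → ℝ[X]} {d : ℕ} (hc : ∀ k, (c k).natDegree ≤ d) (h : ℝ) :
    (Qd q c h).natDegree ≤ d := by
  unfold Qd
  refine natDegree_sum_le_of_forall_le _ _ fun k _ => ?_
  exact (natDegree_C_mul_le _ _).trans (hc k)

/-- Bounds of the weights and of the slopes near the height `h`. -/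
structure QB (q c : Fin K → ℝ[X]) (h L : ℝ) : Prop where
  q1 : ∀ k, ∀ y : ℝ, |y - h| ≤ 1 → |(derivative (q k)).eval y| ≤ L
  q2 : ∀ k, ∀ y : ℝ, |y - h| ≤ 1 → |(derivative (derivative (q k))).eval y| ≤ L
  c0 : ∀ k, ∀ s : ℝ, |s| ≤ 4 → |(c k).eval s| ≤ L
  c1 : ∀ k, ∀ s : ℝ, |s| ≤ 4 → |(derivative (c k)).eval s| ≤ L

theorem qb_sum {q c : Fin K → ℝ[X]} {h L : ℝ} (H : QB q c h L) {y x εd : ℝ}
    (hy : |y - h| ≤ εd) (hε : εd ≤ 1) (hx : |x| ≤ 4) :
    |∑ k, ((q k).eval y - (q k).eval h) * (c k).eval x| ≤ K * (L * L * εd) ∧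
    |∑ k, ((q k).eval y - (q k).eval h) * (derivative (c k)).eval x| ≤ K * (L * L * εd) ∧
    |∑ k, ((derivative (q k)).eval y - (derivative (q k)).eval h) * (c k).eval x| ≤
      K * (L * L * εd) := by
  have h0 : ∀ k : Fin K, 0 ≤ L := fun k => (abs_nonneg _).trans (H.c0 k 0 (by
    rw [abs_zero]; norm_num))
  have hεd0 : 0 ≤ εd := (abs_nonneg _).trans hy
  have hs : ∀ f g : Fin K → ℝ, (∀ k, |f k| ≤ L * εd) → (∀ k, |g k| ≤ L) →
      |∑ k, f k * g k| ≤ K * (L * L * εd) := by
    intro f g hf hg
    refine (Finset.abs_sum_le_sum_abs _ _).trans ?_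
    refine (Finset.sum_le_sum (g := fun _ => L * L * εd) fun k _ => ?_).trans ?_
    · rw [abs_mul]
      calc |f k| * |g k| ≤ (L * εd) * L :=
            mul_le_mul (hf k) (hg k) (abs_nonneg _) (mul_nonneg (h0 k) hεd0)
        _ = L * L * εd := by ring
    · rw [Finset.sum_const, Finset.card_univ, Fintype.card_fin, nsmul_eq_mul]
  have hq : ∀ k, |(q k).eval y - (q k).eval h| ≤ L * εd := fun k => by
    refine (mvt (q k) (a := h) (b := y) (M := L) fun s hs =>
      H.q1 k s (hs.trans (hy.trans hε))).trans ?_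
    exact mul_le_mul_of_nonneg_left hy (h0 k)
  have hq' : ∀ k, |(derivative (q k)).eval y - (derivative (q k)).eval h| ≤ L * εd := fun k => by
    refine (mvt (derivative (q k)) (a := h) (b := y) (M := L) fun s hs =>
      H.q2 k s (hs.trans (hy.trans hε))).trans ?_
    exact mul_le_mul_of_nonneg_left hy (h0 k)
  exact ⟨hs _ _ hq fun k => H.c0 k x hx, hs _ _ hq fun k => H.c1 k x hx,
    hs _ _ hq' fun k => H.c0 k x hx⟩

/-- **The value of the error at the meeting time.** -/
theorem f_val {q c : Fin K → ℝ[X]} {h L : ℝ} (H : QB q c h L) {m n n2 nr gr D : ℝ[X]}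
    {x l lr ε εg εd : ℝ} (hx : |x| ≤ 4) (hD : |D.eval x - h| ≤ εd) (hε : εd ≤ 1)
    (h1 : |n.eval x - l - m.eval x| ≤ εg) (h2 : |nr.eval x - lr - gr.eval x| ≤ εg)
    (h3 : |n.eval x - n2.eval x| ≤ ε) :
    |(m - gr - Qc q c D).eval x + (l - lr) - (n2 - nr - Qh q c h).eval x| ≤
      ε + 2 * εg + K * (L * L * εd) := by
  obtain ⟨b1, -, -⟩ := qb_sum H hD hε hx
  have e1 : (m - gr - Qc q c D).eval x + (l - lr) - (n2 - nr - Qh q c h).eval x =
      (n.eval x - n2.eval x) - (n.eval x - l - m.eval x) + (nr.eval x - lr - gr.eval x) -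
        ∑ k, ((q k).eval (D.eval x) - (q k).eval h) * (c k).eval x := by
    rw [eval_sub, eval_sub, eval_sub, eval_sub, Qc_eval, Qh_eval]
    have e2 : ∑ k, ((q k).eval (D.eval x) - (q k).eval h) * (c k).eval x =
        ∑ k, (q k).eval (D.eval x) * (c k).eval x - ∑ k, (q k).eval h * (c k).eval x := by
      rw [← Finset.sum_sub_distrib]
      exact Finset.sum_congr rfl fun k _ => by ring
    rw [e2]
    ring
  rw [e1]
  have a1 := abs_sub ((n.eval x - n2.eval x) - (n.eval x - l - m.eval x) +
    (nr.eval x - lr - gr.eval x)) (∑ k, ((q k).eval (D.eval x) - (q k).eval h) * (c k).eval x)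
  have a2 := abs_add_le ((n.eval x - n2.eval x) - (n.eval x - l - m.eval x))
    (nr.eval x - lr - gr.eval x)
  have a3 := abs_sub (n.eval x - n2.eval x) (n.eval x - l - m.eval x)
  linarith

/-- **The derivative of the error at the meeting time.** -/
theorem f_der {q c : Fin K → ℝ[X]} {h L : ℝ} (H : QB q c h L) {m n n2 nr gr D : ℝ[X]}
    {x εg εd δ θ : ℝ} (hδ : 0 < δ) (hx : |x| ≤ 4) (hD : |D.eval x - h| ≤ εd)
    (hε : εd ≤ 1) (hs : δ ≤ θ * |(derivative D).eval x|)
    (h1 : |(derivative n).eval x - (derivative m).eval x| ≤ εg)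
    (h2 : |(derivative nr).eval x - (derivative gr).eval x| ≤ εg) :
    |((derivative (m - gr - Qc q c D)).eval x -
        (derivative (n2 - nr - Qh q c h)).eval x) / (derivative D).eval x -
      (((derivative n).eval x - (derivative n2).eval x) / (derivative D).eval x -
        (Qd q c h).eval x)| ≤
      (2 * εg + K * (L * L * εd)) * θ / δ + K * (L * L * εd) := by
  obtain ⟨-, b2, b3⟩ := qb_sum H hD hε hx
  obtain ⟨x0, hx0⟩ : ∃ x0, x0 = (derivative D).eval x := ⟨_, rfl⟩
  have hx0n : x0 ≠ 0 := by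
    intro hc
    rw [← hx0, hc, abs_zero, mul_zero] at hs
    linarith
  have e0 : (derivative (m - gr - Qc q c D)).eval x - (derivative (n2 - nr - Qh q c h)).eval x =
      ((derivative n).eval x - (derivative n2).eval x) -
        x0 * (Qd q c h).eval x -
      x0 * (∑ k, ((derivative (q k)).eval (D.eval x) - (derivative (q k)).eval h) *
        (c k).eval x) + ((((derivative nr).eval x - (derivative gr).eval x) -
        ((derivative n).eval x - (derivative m).eval x)) -
        ∑ k, ((q k).eval (D.eval x) - (q k).eval h) * (derivative (c k)).eval x) := by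
    rw [derivative_sub, derivative_sub, derivative_sub, derivative_sub, eval_sub, eval_sub,
      eval_sub, eval_sub, Qc_der, Qh_der, Qd_eval]
    have e1 : ∑ k, ((derivative (q k)).eval (D.eval x) * (derivative D).eval x * (c k).eval x +
        (q k).eval (D.eval x) * (derivative (c k)).eval x) =
        x0 * ∑ k, (derivative (q k)).eval (D.eval x) * (c k).eval x +
          ∑ k, (q k).eval (D.eval x) * (derivative (c k)).eval x := by
      rw [Finset.mul_sum, ← Finset.sum_add_distrib, hx0]
      exact Finset.sum_congr rfl fun k _ => by ring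
    have e2 : ∑ k, ((derivative (q k)).eval (D.eval x) - (derivative (q k)).eval h) *
        (c k).eval x = ∑ k, (derivative (q k)).eval (D.eval x) * (c k).eval x -
          ∑ k, (derivative (q k)).eval h * (c k).eval x := by
      rw [← Finset.sum_sub_distrib]
      exact Finset.sum_congr rfl fun k _ => by ring
    have e3 : ∑ k, ((q k).eval (D.eval x) - (q k).eval h) * (derivative (c k)).eval x =
        ∑ k, (q k).eval (D.eval x) * (derivative (c k)).eval x -
          ∑ k, (q k).eval h * (derivative (c k)).eval x := by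
      rw [← Finset.sum_sub_distrib]
      exact Finset.sum_congr rfl fun k _ => by ring
    rw [e1, e2, e3]
    ring
  rw [← hx0] at hs ⊢
  rw [e0]
  obtain ⟨s1, hs1⟩ : ∃ s1, s1 = ∑ k, ((derivative (q k)).eval (D.eval x) -
    (derivative (q k)).eval h) * (c k).eval x := ⟨_, rfl⟩
  obtain ⟨s2, hs2⟩ : ∃ s2, s2 = ∑ k, ((q k).eval (D.eval x) - (q k).eval h) *
    (derivative (c k)).eval x := ⟨_, rfl⟩
  rw [← hs1] at b3 ⊢
  rw [← hs2] at b2 ⊢
  have e4 : (((derivative n).eval x - (derivative n2).eval x) - x0 * (Qd q c h).eval x -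
      x0 * s1 + ((((derivative nr).eval x - (derivative gr).eval x) -
        ((derivative n).eval x - (derivative m).eval x)) - s2)) / x0 -
      (((derivative n).eval x - (derivative n2).eval x) / x0 - (Qd q c h).eval x) =
      ((((derivative nr).eval x - (derivative gr).eval x) -
        ((derivative n).eval x - (derivative m).eval x)) - s2) / x0 - s1 := by
    field_simp
    ring
  rw [e4]
  refine (abs_sub _ _).trans (add_le_add ?_ b3)
  refine quo_le hδ hs ?_
  have a1 := abs_sub ((((derivative nr).eval x - (derivative gr).eval x) -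
        ((derivative n).eval x - (derivative m).eval x))) s2
  have a2 := abs_sub ((derivative nr).eval x - (derivative gr).eval x)
    ((derivative n).eval x - (derivative m).eval x)
  linarith

end

end Pool.SL77
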