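import Pool.Agent.H77.SL.All
import Pool.Agent.H54.ND.Own
import Pool.Agent.H36.NA.Lit

/-!
# The star lemma: the record of the data, in the letters of the near-alive step

`cpl`: the polynomial of a code. `slX`: the data of the star lemma from own paths `nP`, slope paths
`cP` of the lines, coded own paths `uc`, representatives `NR`, `CR`; the weights are those of the
quadrature `Qk` over the lines `ai k`, the base is the line `1`. `ellC`, `tdg`, `slF`: the letters of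
one sample over labels `H` of a window `w`.
-/

set_option autoImplicit false

namespace Pool.SL77

open Finset Polynomial
open Pool.Agent.H49.Ent Pool.Agent.H32.Dense Pool.STK
open Pool.BFL (Pb)
open Pool.STB (Pb_mono Pb_or)
open Pool.K2S (cpn)
open Pool.CLU (cpn_law cpn_pos cpn_marg)
open Pool.ND54 (ai ti)

/-- **The polynomial of a code** with scale `σ`. -/
noncomputable def cpl {d : ℕ} (σ : ℝ) (a : Fin (d + 1) → ℤ) : ℝ[X] :=
  ∑ i, C ((a i : ℝ) / σ) * X ^ (i : ℕ)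

theorem cpl_deg {d : ℕ} (σ : ℝ) (a : Fin (d + 1) → ℤ) : (cpl σ a).natDegree ≤ d := by
  unfold cpl
  refine natDegree_sum_le_of_forall_le _ _ fun i _ => ?_
  refine (natDegree_C_mul_X_pow_le _ _).trans ?_
  have := i.2
  omega

theorem cpl_coeff {d : ℕ} (σ : ℝ) (a : Fin (d + 1) → ℤ) (i : Fin (d + 1)) :
    (cpl σ a).coeff i = (a i : ℝ) / σ := by
  unfold cpl
  rw [finsetSum_coeff, Finset.sum_eq_single i]
  · rw [coeff_C_mul_X_pow, if_pos rfl]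
  · intro j _ hj
    rw [coeff_C_mul_X_pow, if_neg]
    intro h
    exact hj (Fin.ext h.symm)
  · intro h
    exact absurd (Finset.mem_univ _) h

/-- The index of an auxiliary line among the lines other than the own one. -/
def aj {D : ℕ} (k : Fin D) : Fin (2 * D + 1) := ⟨D + 1 + k.1, by have := k.2; omega⟩

theorem aj_succ {D : ℕ} (k : Fin D) : (aj k).succ = ai k := by
  unfold aj ai
  apply Fin.ext
  simp only [Fin.val_succ]
  omega

section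

variable {Ω Λ E : Type}

/-- **The data of the star lemma**: the unit of the target is `2 ^ (-Xd)`, the unit of the moved place
is `1 / G`, `uc` is in this unit. -/
noncomputable def slX (D Xd : ℕ) (G : ℝ) (l : Ω → Λ) (le : Λ → E) (nP cP : Λ → ℝ[X])
    (uc NR CR : E → ℝ[X]) (c0 : Ω → ℝ) (t : Ω → ℤ) : SlD Ω Λ E (2 * D) D where
  l := l
  le := le
  nL := fun x => C (2 ^ Xd) * nP x
  cL := fun x => C (2 ^ Xd / G) * cP x
  uC := uc
  gC := fun e => C (2 ^ Xd) * (NR e - C ((NR e).eval 0))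
  qk := fun v k => (Pool.NDD66.Qk (fun k => (uc (v (aj k))).eval 0) ((uc (v 0)).eval 0) k).comp
    (X + C ((uc (v 0)).eval 0))
  ck := fun v k => C (2 ^ Xd / G) * CR (v (aj k))
  c0 := c0
  t := t
  ν := fun ω => ⌊2 ^ Xd * (nP (l ω)).eval 0⌋

/-- The degrees. -/
theorem slX_deg {D Xd d : ℕ} {G : ℝ} {l : Ω → Λ} {le : Λ → E} {nP cP : Λ → ℝ[X]}
    {uc NR CR : E → ℝ[X]} {c0 : Ω → ℝ} {t : Ω → ℤ} (hn : ∀ x, (nP x).natDegree ≤ d)
    (hc : ∀ x, (cP x).natDegree ≤ d) (hu : ∀ x, (uc x).natDegree ≤ d)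
    (hN : ∀ x, (NR x).natDegree ≤ d) (hC : ∀ x, (CR x).natDegree ≤ d) (hD : D ≤ d) :
    (slX D Xd G l le nP cP uc NR CR c0 t).Deg d := by
  have h1 : ∀ (x : ℝ) (P : ℝ[X]), P.natDegree ≤ d → (C x * P).natDegree ≤ d := fun x P hP =>
    (natDegree_C_mul_le _ _).trans hP
  refine ⟨fun x => h1 _ _ (hn x), fun x => h1 _ _ (hc x), hu, fun x => h1 _ _ ?_, fun v k => ?_,
    fun v k => h1 _ _ (hC _)⟩
  · exact natDegree_sub_C.le.trans (hN x)
  · refine natDegree_comp_le.trans ?_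
    rw [natDegree_X_add_C, mul_one]
    exact (Pool.NDD66.Qk_deg _ _ _).trans hD

/-- A function of the line. -/
theorem exists_le [Nonempty Ω] {p : Ω → ℝ} (l : Ω → Λ) (ell : Ω → E) (h : Det p l ell) :
    ∃ le : Λ → E, ∀ ω, 0 < p ω → le (l ω) = ell ω := by
  classical
  refine ⟨fun x => if hx : ∃ ω, 0 < p ω ∧ l ω = x then ell hx.choose else
    ell (Classical.arbitrary Ω), fun ω hω => ?_⟩
  have hex : ∃ ω', 0 < p ω' ∧ l ω' = l ω := ⟨ω, hω, rfl⟩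
  simp only
  rw [dif_pos hex]
  exact h _ _ hex.choose_spec.1 hω hex.choose_spec.2

end

open Pool.KA Pool.KSAT Pool.PB Pool.GEN Pool.S6C Pool.RCD Pool.LA91 Pool.OWN68 Pool.CHT
open Pool.NDC42 (hgC pcC x0 xn xg rP LbW)
open Pool.PB.Trl (rt)
open Pool.NA36 (opl tcd tct)

section

variable {m J : ℕ}

/-- **The code of a line**: the near data, the code of the slope, the code of the own path of `c 2`. -/
noncomputable def ellC (F : Fam m J) (A : F.Ω → Prop) (c : ℕ → Fin m) (D : ℕ) (w : ℝ) (n : ℕ → ℝ)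
    (nt : ℝ) (H : LnT F → ℕ → MvPolynomial (Option (Fin m)) ℝ) {κ : Type} (sc : F.Ω → κ)
    (ω : F.Ω) :=
  ((xg F A c D w n nt H ω, sc ω), pcC F c D w H 2 0 (n 2) ω)

/-- **The digits of the relative time** behind `s J` digits, to `s J` and `log M` digits. -/
noncomputable def tdg (F : Fam m J) (w s : ℝ) (M : ℕ) (ω : F.Ω) : ℤ :=
  ⌊(M : ℝ) * ((rt F ⌊w * J⌋₊ ω - tct F w s ω) * 2 ^ (s * J))⌋

/-- **The data of the star lemma in the letters of a window**; the unit of `c 2` is `2 ^ (-g J)`, `g`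
the level of `c 2` at the window. -/
noncomputable def slF (F : Fam m J) (c : ℕ → Fin m) (D Xd : ℕ) (g w s : ℝ) (n : ℕ → ℝ) (M : ℕ)
    (H : LnT F → ℕ → MvPolynomial (Option (Fin m)) ℝ) (cP : LnT F → ℝ[X]) {ξ : Type}
    (le : LnT F → ξ × (Fin (D + 1 + 1) → ℤ)) (NR CR : ξ × (Fin (D + 1 + 1) → ℤ) → ℝ[X]) :
    SlD F.Ω (LnT F) (ξ × (Fin (D + 1 + 1) → ℤ)) (2 * D) D :=
  slX D Xd (2 ^ (g * J)) (slam F ⌊w * J⌋₊) le
    (fun x => dv ⌊w * J⌋₊ (fun s (_ : Fin m) => H s 3) (c 3) x) cP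
    (fun e => cpl (2 ^ ((n 2 - g) * J)) e.2) NR CR (tct F w s) (tdg F w s M)

/-- The time of the star lemma is near the relative time. -/
theorem slF_time {F : Fam m J} {c : ℕ → Fin m} {D Xd : ℕ} {g w s : ℝ} {n : ℕ → ℝ} {M : ℕ}
    (hM : 1 ≤ M) {H : LnT F → ℕ → MvPolynomial (Option (Fin m)) ℝ} {cP : LnT F → ℝ[X]} {ξ : Type}
    {le : LnT F → ξ × (Fin (D + 1 + 1) → ℤ)} {NR CR : ξ × (Fin (D + 1 + 1) → ℤ) → ℝ[X]}
    (ω : F.Ω) : |(slF F c D Xd g w s n M H cP le NR CR).tm (1 / 2 ^ (s * J)) M ω -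
        rt F ⌊w * J⌋₊ ω| ≤ 1 / 2 ^ (s * J) / M ∧ 0 ≤ tdg F w s M ω ∧ tdg F w s M ω ≤ M := by
  have hp : (0 : ℝ) < 2 ^ (s * J) := Real.rpow_pos_of_pos (by norm_num) _
  have hM0 : (0 : ℝ) < M := by exact_mod_cast hM
  obtain ⟨θ, hθ⟩ : ∃ θ, θ = rt F ⌊w * J⌋₊ ω := ⟨_, rfl⟩
  obtain ⟨c0, hc0⟩ : ∃ c0, c0 = tct F w s ω := ⟨_, rfl⟩
  have a1 : 0 ≤ (θ - c0) * 2 ^ (s * J) ∧ (θ - c0) * 2 ^ (s * J) < 1 := by
    rw [hc0, hθ]
    unfold tct tcd
    have e1 := Int.floor_le ((2 : ℝ) ^ (s * J) * rt F ⌊w * J⌋₊ ω)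
    have e2 := Int.lt_floor_add_one ((2 : ℝ) ^ (s * J) * rt F ⌊w * J⌋₊ ω)
    have e3 : (rt F ⌊w * J⌋₊ ω - (⌊(2 : ℝ) ^ (s * J) * rt F ⌊w * J⌋₊ ω⌋ : ℝ) / 2 ^ (s * J)) *
        2 ^ (s * J) = 2 ^ (s * J) * rt F ⌊w * J⌋₊ ω -
          (⌊(2 : ℝ) ^ (s * J) * rt F ⌊w * J⌋₊ ω⌋ : ℝ) := by
      field_simp
    rw [e3]
    constructor <;> linarith
  obtain ⟨y, hy⟩ : ∃ y, y = (θ - c0) * 2 ^ (s * J) := ⟨_, rfl⟩
  rw [← hy] at a1
  have ht : tdg F w s M ω = ⌊(M : ℝ) * y⌋ := by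
    rw [hy, hθ, hc0]
    rfl
  have b1 := Int.floor_le ((M : ℝ) * y)
  have b2 := Int.lt_floor_add_one ((M : ℝ) * y)
  refine ⟨?_, ?_, ?_⟩
  · have e0 : (slF F c D Xd g w s n M H cP le NR CR).tm (1 / 2 ^ (s * J)) M ω =
        tct F w s ω + 1 / 2 ^ (s * J) * ((tdg F w s M ω : ℝ) / M) := rfl
    rw [e0, ← hc0, ← hθ, ht]
    have e1 : θ = c0 + 1 / 2 ^ (s * J) * y := by
      rw [hy]
      field_simp
      ring
    rw [e1]
    have e2 : c0 + 1 / 2 ^ (s * J) * ((⌊(M : ℝ) * y⌋ : ℝ) / M) - (c0 + 1 / 2 ^ (s * J) * y) =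
        -(1 / 2 ^ (s * J) * ((M * y - (⌊(M : ℝ) * y⌋ : ℝ)) / M)) := by
      field_simp
      ring
    rw [e2, abs_neg, abs_of_nonneg (by
      refine mul_nonneg (by positivity) (div_nonneg (by linarith) hM0.le))]
    rw [mul_div_assoc']
    refine div_le_div_of_nonneg_right ?_ hM0.le
    calc 1 / 2 ^ (s * J) * (M * y - (⌊(M : ℝ) * y⌋ : ℝ)) ≤ 1 / 2 ^ (s * J) * 1 :=
          mul_le_mul_of_nonneg_left (by linarith) (by positivity)
      _ = 1 / 2 ^ (s * J) := mul_one _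
  · rw [ht]
    exact Int.floor_nonneg.2 (mul_nonneg hM0.le a1.1)
  · rw [ht]
    have : ((⌊(M : ℝ) * y⌋ : ℤ) : ℝ) ≤ M := by
      refine b1.trans ?_
      calc (M : ℝ) * y ≤ M * 1 := mul_le_mul_of_nonneg_left a1.2.le hM0.le
        _ = M := mul_one _
    exact_mod_cast this

end

end Pool.SL77
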