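import Pool.Agent.H54.ND.Cfg
import Pool.Agent.H46.MIC.Cpn

/-!
# Two stars on one line

`sl_Q p zp zr l c0`: two stars `(om0, om2)`, `(om1, om2')` over `zp`, the second one is a copy of the
first one over the line `l` of `om2` and the coarse time `c0`; `omr` is over `zr` of `om2`. `sl_law`:
every datum of `om0` is as free given its line, the coarse time and the data `ell` of `om1`, `omr` as
given its line and the coarse time.
-/

set_option autoImplicit false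

namespace Pool.SL77

open Finset Real
open Pool.Agent.H49.Ent Pool.Agent.H32.Dense Pool.STK
open Pool.BFL (Pb)
open Pool.K2S (cpn)
open Pool.CLU (cpn_law cpn_pos cpn_marg)
open Pool.H52.TIE (CH_cpn CH_cpn_zero)
open Pool.ND54 (cpn_tail)

section

variable {Ω Z R Λ C F U E S T T' X : Type} [Fintype Ω]

/-- The other copy given the whole first copy. -/
theorem cpn_oth {p : Ω → ℝ} (hp : IsLaw p) (r : Ω → R) (V : Ω → S) :
    CH p V r ≤ CH (cpn p r 1) (fun v => V (v 1)) (fun v => v 0) := by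
  have q0 := (cpn_law hp r 1).nonneg
  have k1 := cpn_tail hp r V 1
  rw [Nat.cast_one, one_mul] at k1
  refine k1.trans (CH_mono_left q0 fun w w' _ _ h => ?_)
  have h' := Prod.ext_iff.1 h
  refine funext fun j => ?_
  have hj : j = 0 := Subsingleton.elim _ _
  rw [hj]
  exact h'.1

/-- The first copy given the whole other copy. -/
theorem cpn_oth' {p : Ω → ℝ} (hp : IsLaw p) (r : Ω → R) (V : Ω → S) :
    CH p V r ≤ CH (cpn p r 1) (fun v => V (v 0)) (fun v => v 1) := by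
  refine (cpn_oth hp r V).trans (le_of_eq ?_)
  have h1 := Pool.MIC.cpn_pair hp.nonneg r 1 (i := 0) (i' := 1) (by decide)
  have h2 := Pool.MIC.cpn_pair hp.nonneg r 1 (i := 1) (i' := 0) (by decide)
  have e1 := h1.CH (fun x : Ω × Ω => V x.2) (fun x : Ω × Ω => x.1)
  have e2 := h2.CH (fun x : Ω × Ω => V x.2) (fun x : Ω × Ω => x.1)
  exact e1.trans e2.symm

/-- **The law of two stars on one line.** -/
noncomputable def slQ (p : Ω → ℝ) (zp : Ω → Z) (zr : Ω → R) (l : Ω → Λ) (c0 : Ω → C) :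
    (Fin 2 → Fin 2 → Fin 2 → Ω) → ℝ :=
  cpn (cpn (cpn p zp 1) (fun v => zr (v 1)) 1) (fun V => (l (V 0 1), c0 (V 0 1))) 1

theorem slQ_law {p : Ω → ℝ} (hp : IsLaw p) (zp : Ω → Z) (zr : Ω → R) (l : Ω → Λ) (c0 : Ω → C) :
    IsLaw (slQ p zp zr l c0) := cpn_law (cpn_law (cpn_law hp zp 1) _ 1) _ 1

/-- The relations of the samples. -/
theorem slQ_pos {p : Ω → ℝ} (hp : IsLaw p) (zp : Ω → Z) (zr : Ω → R) (l : Ω → Λ) (c0 : Ω → C)
    {W : Fin 2 → Fin 2 → Fin 2 → Ω} (h : 0 < slQ p zp zr l c0 W) :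
    (∀ i j k, 0 < p (W i j k)) ∧ (∀ i j, zp (W i j 1) = zp (W i j 0)) ∧
      (∀ i, zr (W i 1 1) = zr (W i 0 1)) ∧ l (W 1 0 1) = l (W 0 0 1) ∧
        c0 (W 1 0 1) = c0 (W 0 0 1) := by
  have q1 := cpn_law hp zp 1
  have q2 := cpn_law q1 (fun v => zr (v 1)) 1
  have h3 := cpn_pos q2.nonneg (fun V => (l (V 0 1), c0 (V 0 1))) 1 W h
  have h2 := fun i => cpn_pos q1.nonneg (fun v => zr (v 1)) 1 (W i) (h3.1 i)
  have h1 := fun i j => cpn_pos hp.nonneg zp 1 (W i j) ((h2 i).1 j)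
  have h4 := Prod.ext_iff.1 (h3.2 1)
  exact ⟨fun i j k => (h1 i j).1 k, fun i j => (h1 i j).2 1, fun i => (h2 i).2 1, h4.1, h4.2⟩

/-- One star with its parallel line. -/
theorem slQ_two {p : Ω → ℝ} (hp : IsLaw p) (zp : Ω → Z) (zr : Ω → R) (l : Ω → Λ) (c0 : Ω → C)
    (i : Fin 2) : Marg (slQ p zp zr l c0) (cpn (cpn p zp 1) (fun v => zr (v 1)) 1)
      (fun W => W i) :=
  cpn_marg (cpn_law (cpn_law hp zp 1) _ 1).nonneg _ 1 i

/-- One star. -/
theorem slQ_star {p : Ω → ℝ} (hp : IsLaw p) (zp : Ω → Z) (zr : Ω → R) (l : Ω → Λ) (c0 : Ω → C)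
    (i j : Fin 2) : Marg (slQ p zp zr l c0) (cpn p zp 1) (fun W => W i j) :=
  (slQ_two hp zp zr l c0 i).comp (cpn_marg (cpn_law hp zp 1).nonneg _ 1 j)

/-- One sample. -/
theorem slQ_one {p : Ω → ℝ} (hp : IsLaw p) (zp : Ω → Z) (zr : Ω → R) (l : Ω → Λ) (c0 : Ω → C)
    (i j k : Fin 2) : Marg (slQ p zp zr l c0) p (fun W => W i j k) :=
  (slQ_star hp zp zr l c0 i j).comp (cpn_marg hp.nonneg zp 1 k)

/-- The line through a star is free: the plane line `ell` of the first sample given the line of the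
second one and the coarse time. -/
theorem star_low {p : Ω → ℝ} (hp : IsLaw p) (zp : Ω → Z) (l : Ω → Λ) (c0 : Ω → C)
    (f : Ω → F) (ell : Ω → E) (tl : Ω → T') {cF cU e₂ e₄ e₅ : ℝ}
    (hef : Det p ell f)
    (h3 : cF - e₂ ≤ CH p f zp)
    (h5 : cU - e₄ ≤ CH p tl (fun ω => (l ω, c0 ω)))
    (h6 : CH (cpn p zp 1) (fun v => tl (v 1)) (fun v => (ell (v 0), (l (v 1), c0 (v 1)))) ≤ e₅) :
    cF + cU - (e₂ + e₄ + e₅) ≤
      CH (cpn p zp 1) (fun v => ell (v 0)) (fun v => (l (v 1), c0 (v 1))) := by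
  have hq := cpn_law hp zp 1
  have q0 := hq.nonneg
  have hpos : ∀ v, 0 < cpn p zp 1 v → ∀ i, 0 < p (v i) := fun v hv i =>
    (cpn_pos hp.nonneg zp 1 v hv).1 i
  have a1 := CH_chain q0 (fun v => tl (v 1)) (fun v => ell (v 0))
    (fun v => (l (v 1), c0 (v 1)))
  have a2 := CH_chain q0 (fun v => ell (v 0)) (fun v => tl (v 1))
    (fun v => (l (v 1), c0 (v 1)))
  have a3 : CH (cpn p zp 1) (fun v => (tl (v 1), ell (v 0))) (fun v => (l (v 1), c0 (v 1))) =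
      CH (cpn p zp 1) (fun v => (ell (v 0), tl (v 1))) (fun v => (l (v 1), c0 (v 1))) :=
    Pool.MIC.CH_swl q0 _ _ _
  have a4 : CH (cpn p zp 1) (fun v => tl (v 1)) (fun v => (l (v 1), c0 (v 1))) =
      CH p tl (fun ω => (l ω, c0 ω)) := CH_cpn hp zp 1 1 tl (fun ω => (l ω, c0 ω))
  have a5 : CH p f zp ≤ CH (cpn p zp 1) (fun v => ell (v 0))
      (fun v => (tl (v 1), (l (v 1), c0 (v 1)))) := by
    refine (cpn_oth' hp zp f).trans ?_
    have b1 : CH (cpn p zp 1) (fun v => f (v 0)) (fun v => v 1) ≤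
        CH (cpn p zp 1) (fun v => f (v 0)) (fun v => (tl (v 1), (l (v 1), c0 (v 1)))) :=
      CH_mono_cond q0 fun v v' _ _ h => by
        have h' : v 1 = v' 1 := h
        show (tl (v 1), (l (v 1), c0 (v 1))) = (tl (v' 1), (l (v' 1), c0 (v' 1)))
        rw [h']
    refine b1.trans (CH_mono_left q0 fun v v' hv hv' h => ?_)
    exact hef _ _ (hpos v hv 0) (hpos v' hv' 0) (Prod.ext_iff.1 h).1
  linarith

/-- **Two stars on one line**: the datum `D` of `om0` given its line, the coarse time and the plane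
data of `om1` and of `omr`. -/
theorem sl_law {p : Ω → ℝ} (hp : IsLaw p) (zp : Ω → Z) (zr : Ω → R) (l : Ω → Λ) (c0 : Ω → C)
    (f : Ω → F) (ufar : Ω → U) (ell : Ω → E) (T0 : Ω → T) (tl : Ω → T') (xc : Ω → X)
    (D : Ω → S) {cF cU e₀ e₁ e₂ e₃ e₄ e₅ : ℝ}
    (hzf : Det p zr f) (hef : Det p ell f) (heu : Det p (fun ω => (ell ω, T0 ω)) ufar)
    (hpT : Det p zp T0) (hrT : Det p zr T0)
    (h1 : CH p ell xc ≤ cF + cU + e₀)
    (h2 : CH (slQ p zp zr l c0) (fun W => xc (W 1 0 0))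
      (fun W => (l (W 0 0 0), c0 (W 0 0 0))) ≤ e₁)
    (h2' : CH (slQ p zp zr l c0) (fun W => xc (W 0 1 1))
      (fun W => (l (W 0 0 0), c0 (W 0 0 0))) ≤ e₁)
    (h3 : cF - e₂ ≤ CH p f zp) (h4 : cU - e₃ ≤ CH p ufar zr)
    (h5 : cU - e₄ ≤ CH p tl (fun ω => (l ω, c0 ω)))
    (h6 : CH (cpn p zp 1) (fun v => tl (v 1)) (fun v => (ell (v 0), (l (v 1), c0 (v 1)))) ≤ e₅) :
    CH p D (fun ω => (l ω, c0 ω)) - (2 * e₀ + 2 * e₁ + 2 * e₂ + e₃ + e₄ + e₅) ≤
      CH (slQ p zp zr l c0) (fun W => D (W 0 0 0))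
        (fun W => ((ell (W 1 0 0), ell (W 0 1 1)), (l (W 0 0 0), c0 (W 0 0 0)))) := by
  have p0 := hp.nonneg
  have hq1 := cpn_law hp zp 1
  have q10 := hq1.nonneg
  have hq2 := cpn_law hq1 (fun v => zr (v 1)) 1
  have q20 := hq2.nonneg
  have hQ := slQ_law hp zp zr l c0
  have Q0 := hQ.nonneg
  have hone : ∀ (i j k : Fin 2) {A B : Type} (a : Ω → A) (b : Ω → B),
      CH (slQ p zp zr l c0) (fun W => a (W i j k)) (fun W => b (W i j k)) = CH p a b :=
    fun i j k _ _ a b => (slQ_one hp zp zr l c0 i j k).CH a b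
  -- the chain rules
  have c1 := CH_chain Q0 (fun W => D (W 0 0 0)) (fun W => (ell (W 1 0 0), ell (W 0 1 1)))
    (fun W => (l (W 0 0 0), c0 (W 0 0 0)))
  have c2 := CH_chain Q0 (fun W => (ell (W 1 0 0), ell (W 0 1 1))) (fun W => D (W 0 0 0))
    (fun W => (l (W 0 0 0), c0 (W 0 0 0)))
  have c3 : CH (slQ p zp zr l c0) (fun W => (D (W 0 0 0), (ell (W 1 0 0), ell (W 0 1 1))))
      (fun W => (l (W 0 0 0), c0 (W 0 0 0))) =
      CH (slQ p zp zr l c0) (fun W => ((ell (W 1 0 0), ell (W 0 1 1)), D (W 0 0 0)))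
      (fun W => (l (W 0 0 0), c0 (W 0 0 0))) := Pool.MIC.CH_swl Q0 _ _ _
  have c4 : CH (slQ p zp zr l c0) (fun W => D (W 0 0 0)) (fun W => (l (W 0 0 0), c0 (W 0 0 0))) =
      CH p D (fun ω => (l ω, c0 ω)) := hone 0 0 0 D (fun ω => (l ω, c0 ω))
  -- the upper bound
  have hup : ∀ i j k : Fin 2, CH (slQ p zp zr l c0) (fun W => xc (W i j k))
      (fun W => (l (W 0 0 0), c0 (W 0 0 0))) ≤ e₁ →
      CH (slQ p zp zr l c0) (fun W => ell (W i j k)) (fun W => (l (W 0 0 0), c0 (W 0 0 0))) ≤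
        e₁ + (cF + cU + e₀) := by
    intro i j k h
    refine (CH_le_add Q0 _ (fun W => xc (W i j k)) _).trans (add_le_add h ?_)
    refine le_trans (CH_mono_cond Q0 (W := fun W => xc (W i j k)) fun _ _ _ _ h =>
      (Prod.ext_iff.1 h).1) ?_
    exact (hone i j k ell xc).le.trans h1
  have c5 : CH (slQ p zp zr l c0) (fun W => (ell (W 1 0 0), ell (W 0 1 1)))
      (fun W => (l (W 0 0 0), c0 (W 0 0 0))) ≤ 2 * (e₁ + (cF + cU + e₀)) := by
    refine (CH_subadd Q0 _ _ _).trans ?_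
    have := hup 1 0 0 h2
    have := hup 0 1 1 h2'
    linarith
  -- the lower bound
  have c6 : CH (slQ p zp zr l c0) (fun W => (ell (W 1 0 0), ell (W 0 1 1)))
      (fun W => W 0 0 0) ≤ CH (slQ p zp zr l c0) (fun W => (ell (W 1 0 0), ell (W 0 1 1)))
        (fun W => (D (W 0 0 0), (l (W 0 0 0), c0 (W 0 0 0)))) :=
    CH_mono_cond Q0 fun W W' _ _ h => by
      have h' : W 0 0 0 = W' 0 0 0 := h
      show (D (W 0 0 0), (l (W 0 0 0), c0 (W 0 0 0))) =
        (D (W' 0 0 0), (l (W' 0 0 0), c0 (W' 0 0 0)))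
      rw [h']
  have c7 := CH_chain Q0 (fun W => ell (W 1 0 0)) (fun W => ell (W 0 1 1)) (fun W => W 0 0 0)
  have c8 : CH (slQ p zp zr l c0) (fun W => ell (W 1 0 0)) (fun W => W 0) ≤
      CH (slQ p zp zr l c0) (fun W => ell (W 1 0 0)) (fun W => (ell (W 0 1 1), W 0 0 0)) :=
    CH_mono_cond Q0 fun W W' _ _ h => by
      have h' : W 0 = W' 0 := h
      show (ell (W 0 1 1), W 0 0 0) = (ell (W' 0 1 1), W' 0 0 0)
      rw [h']
  have c9 : cF + cU - (e₂ + e₄ + e₅) ≤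
      CH (slQ p zp zr l c0) (fun W => ell (W 1 0 0)) (fun W => W 0) := by
    refine (star_low hp zp l c0 f ell tl hef h3 h5 h6).trans ?_
    have b1 := cpn_oth hq2 (fun V => (l (V 0 1), c0 (V 0 1))) (fun V => ell (V 0 0))
    have b2 : CH (cpn (cpn p zp 1) (fun v => zr (v 1)) 1) (fun V => ell (V 0 0))
        (fun V => (l (V 0 1), c0 (V 0 1))) =
        CH (cpn p zp 1) (fun v => ell (v 0)) (fun v => (l (v 1), c0 (v 1))) :=
      CH_cpn hq1 (fun v => zr (v 1)) 1 0 (fun v => ell (v 0)) (fun v => (l (v 1), c0 (v 1)))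
    rw [b2] at b1
    exact b1
  have c10 : cF + cU - (e₂ + e₃) ≤
      CH (slQ p zp zr l c0) (fun W => ell (W 0 1 1)) (fun W => W 0 0 0) := by
    have b0 : CH (slQ p zp zr l c0) (fun W => ell (W 0 1 1)) (fun W => W 0 0 0) =
        CH (cpn (cpn p zp 1) (fun v => zr (v 1)) 1) (fun V => ell (V 1 1)) (fun V => V 0 0) :=
      (slQ_two hp zp zr l c0 0).CH (fun V => ell (V 1 1)) (fun V => V 0 0)
    rw [b0]
    have hpos : ∀ V, 0 < cpn (cpn p zp 1) (fun v => zr (v 1)) 1 V →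
        (∀ j k, 0 < p (V j k)) ∧ (∀ j, zp (V j 1) = zp (V j 0)) ∧ zr (V 1 1) = zr (V 0 1) := by
      intro V hV
      have k2 := cpn_pos q10 (fun v => zr (v 1)) 1 V hV
      have k1 := fun j => cpn_pos p0 zp 1 (V j) (k2.1 j)
      exact ⟨fun j k => (k1 j).1 k, fun j => (k1 j).2 1, k2.2 1⟩
    have b1 : CH (cpn (cpn p zp 1) (fun v => zr (v 1)) 1)
        (fun V => (ufar (V 1 1), f (V 0 1))) (fun V => V 0 0) ≤
        CH (cpn (cpn p zp 1) (fun v => zr (v 1)) 1) (fun V => ell (V 1 1)) (fun V => V 0 0) := by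
      refine CH_mono_left q20 fun V V' hV hV' h => ?_
      have h' := Prod.ext_iff.1 h
      simp only at h'
      obtain ⟨g1, g2, g3⟩ := hpos V hV
      obtain ⟨g1', g2', g3'⟩ := hpos V' hV'
      have kf : f (V 1 1) = f (V' 1 1) := hef _ _ (g1 1 1) (g1' 1 1) h'.1
      have kf1 : f (V 1 1) = f (V 0 1) := hzf _ _ (g1 1 1) (g1 0 1) g3
      have kf2 : f (V' 1 1) = f (V' 0 1) := hzf _ _ (g1' 1 1) (g1' 0 1) g3'
      have kT1 : T0 (V 1 1) = T0 (V 0 0) :=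
        (hrT _ _ (g1 1 1) (g1 0 1) g3).trans (hpT _ _ (g1 0 1) (g1 0 0) (g2 0))
      have kT2 : T0 (V' 1 1) = T0 (V' 0 0) :=
        (hrT _ _ (g1' 1 1) (g1' 0 1) g3').trans (hpT _ _ (g1' 0 1) (g1' 0 0) (g2' 0))
      have kT : T0 (V 1 1) = T0 (V' 1 1) := by rw [kT1, kT2, h'.2]
      show (ufar (V 1 1), f (V 0 1)) = (ufar (V' 1 1), f (V' 0 1))
      refine Prod.ext (heu _ _ (g1 1 1) (g1' 1 1) (Prod.ext h'.1 kT)) ?_
      show f (V 0 1) = f (V' 0 1)
      rw [← kf1, ← kf2, kf]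
    have b2 := CH_chain q20 (fun V => ufar (V 1 1)) (fun V => f (V 0 1)) (fun V => V 0 0)
    have b3 : CH p f zp ≤
        CH (cpn (cpn p zp 1) (fun v => zr (v 1)) 1) (fun V => f (V 0 1)) (fun V => V 0 0) := by
      refine (cpn_oth hp zp f).trans (le_of_eq ?_)
      exact (CH_cpn hq1 (fun v => zr (v 1)) 1 0 (fun v => f (v 1)) (fun v => v 0)).symm
    have b4 : CH p ufar zr ≤ CH (cpn (cpn p zp 1) (fun v => zr (v 1)) 1)
        (fun V => ufar (V 1 1)) (fun V => (f (V 0 1), V 0 0)) := by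
      have k1 := cpn_oth hq1 (fun v => zr (v 1)) (fun v => ufar (v 1))
      have k2 : CH (cpn p zp 1) (fun v => ufar (v 1)) (fun v => zr (v 1)) = CH p ufar zr :=
        CH_cpn hp zp 1 1 ufar zr
      rw [k2] at k1
      refine k1.trans (CH_mono_cond q20 fun V V' _ _ h => ?_)
      have h' : V 0 = V' 0 := h
      show (f (V 0 1), V 0 0) = (f (V' 0 1), V' 0 0)
      rw [h']
    linarith
  linarith

end

end Pool.SL77
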