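import Pool.Agent.H77.SL.Law

/-!
# Two stars on one line, a tuple of parallel lines

`slN p zp zr l c0 N`: two stars `(om0, om2) = W 0 0`, `(om1, om2') = W 1 0` over `zp`, the second one
is a copy of the first one over the line `l` of `om2` and the coarse time `c0`; the parallel samples
`W 0 (j + 1) 1`, `j < N`, are over `zr` of `om2`. `sl_lawN`: every datum of `om0` is as free given its
line, the coarse time and the data `ell` of `om1` and of the parallel samples as given its line and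
the coarse time.
-/

set_option autoImplicit false

namespace Pool.SL77

open Finset Real
open Pool.Agent.H49.Ent Pool.Agent.H32.Dense Pool.STK
open Pool.BFL (Pb)
open Pool.K2S (cpn)
open Pool.CLU (cpn_law cpn_pos cpn_marg marg_cpn)
open Pool.H52.TIE (CH_cpn CH_cpn_zero)
open Pool.ND54 (cpn_tail)

section

variable {Ω Z R Λ C F U E S T T' X : Type} [Fintype Ω]

/-- **The law of two stars on one line, with parallel lines.** -/
noncomputable def slN (p : Ω → ℝ) (zp : Ω → Z) (zr : Ω → R) (l : Ω → Λ) (c0 : Ω → C) (N : ℕ) :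
    (Fin 2 → Fin (N + 1) → Fin 2 → Ω) → ℝ :=
  cpn (cpn (cpn p zp 1) (fun v => zr (v 1)) N) (fun V => (l (V 0 1), c0 (V 0 1))) 1

theorem slN_law {p : Ω → ℝ} (hp : IsLaw p) (zp : Ω → Z) (zr : Ω → R) (l : Ω → Λ) (c0 : Ω → C)
    (N : ℕ) : IsLaw (slN p zp zr l c0 N) := cpn_law (cpn_law (cpn_law hp zp 1) _ N) _ 1

/-- The relations of the samples. -/
theorem slN_pos {p : Ω → ℝ} (hp : IsLaw p) (zp : Ω → Z) (zr : Ω → R) (l : Ω → Λ) (c0 : Ω → C)
    (N : ℕ) {W : Fin 2 → Fin (N + 1) → Fin 2 → Ω} (h : 0 < slN p zp zr l c0 N W) :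
    (∀ i j k, 0 < p (W i j k)) ∧ (∀ i j, zp (W i j 1) = zp (W i j 0)) ∧
      (∀ i j, zr (W i j 1) = zr (W i 0 1)) ∧ l (W 1 0 1) = l (W 0 0 1) ∧
        c0 (W 1 0 1) = c0 (W 0 0 1) := by
  have q1 := cpn_law hp zp 1
  have q2 := cpn_law q1 (fun v => zr (v 1)) N
  have h3 := cpn_pos q2.nonneg (fun V => (l (V 0 1), c0 (V 0 1))) 1 W h
  have h2 := fun i => cpn_pos q1.nonneg (fun v => zr (v 1)) N (W i) (h3.1 i)
  have h1 := fun i j => cpn_pos hp.nonneg zp 1 (W i j) ((h2 i).1 j)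
  have h4 := Prod.ext_iff.1 (h3.2 1)
  exact ⟨fun i j k => (h1 i j).1 k, fun i j => (h1 i j).2 1, fun i j => (h2 i).2 j, h4.1, h4.2⟩

/-- One star with its parallel lines. -/
theorem slN_two {p : Ω → ℝ} (hp : IsLaw p) (zp : Ω → Z) (zr : Ω → R) (l : Ω → Λ) (c0 : Ω → C)
    (N : ℕ) (i : Fin 2) : Marg (slN p zp zr l c0 N) (cpn (cpn p zp 1) (fun v => zr (v 1)) N)
      (fun W => W i) :=
  cpn_marg (cpn_law (cpn_law hp zp 1) _ N).nonneg _ 1 i

/-- One star. -/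
theorem slN_star {p : Ω → ℝ} (hp : IsLaw p) (zp : Ω → Z) (zr : Ω → R) (l : Ω → Λ) (c0 : Ω → C)
    (N : ℕ) (i : Fin 2) (j : Fin (N + 1)) :
    Marg (slN p zp zr l c0 N) (cpn p zp 1) (fun W => W i j) :=
  (slN_two hp zp zr l c0 N i).comp (cpn_marg (cpn_law hp zp 1).nonneg _ N j)

/-- One sample. -/
theorem slN_one {p : Ω → ℝ} (hp : IsLaw p) (zp : Ω → Z) (zr : Ω → R) (l : Ω → Λ) (c0 : Ω → C)
    (N : ℕ) (i : Fin 2) (j : Fin (N + 1)) (k : Fin 2) :
    Marg (slN p zp zr l c0 N) p (fun W => W i j k) :=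
  (slN_star hp zp zr l c0 N i j).comp (cpn_marg hp.nonneg zp 1 k)

/-- The line of `om2` and its parallel lines. -/
theorem slN_par {p : Ω → ℝ} (hp : IsLaw p) (zp : Ω → Z) (zr : Ω → R) (l : Ω → Λ) (c0 : Ω → C)
    (N : ℕ) (i : Fin 2) : Marg (slN p zp zr l c0 N) (cpn p zr N) (fun W j => W i j 1) :=
  (slN_two hp zp zr l c0 N i).comp (marg_cpn (cpn_marg hp.nonneg zp 1 1) zr N)

/-- The two stars on the line of `om2` are a copy of each other. -/
theorem slN_stars {p : Ω → ℝ} (hp : IsLaw p) (zp : Ω → Z) (zr : Ω → R) (l : Ω → Λ) (c0 : Ω → C)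
    (N : ℕ) : Marg (slN p zp zr l c0 N)
      (cpn (cpn p zp 1) (fun v => (l (v 1), c0 (v 1))) 1) (fun W i => W i 0) :=
  marg_cpn (cpn_marg (cpn_law hp zp 1).nonneg (fun v => zr (v 1)) N 0)
    (fun v => (l (v 1), c0 (v 1))) 1

/-- The tail of a tuple is free of everything in its first copy. -/
theorem tail_ge {p : Ω → ℝ} (hp : IsLaw p) (r : Ω → R) (V : Ω → S) (n : ℕ)
    {B : (Fin (n + 1) → Ω) → T} (hB : Det (cpn p r n) (fun w => w 0) B) :
    n * CH p V r ≤ CH (cpn p r n) (fun w (j : Fin n) => V (w j.succ)) B :=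
  (cpn_tail hp r V n).trans (CH_mono_cond (cpn_law hp r n).nonneg hB)

/-- **Two stars on one line, a tuple of parallel lines.** -/
theorem sl_lawN {p : Ω → ℝ} (hp : IsLaw p) (zp : Ω → Z) (zr : Ω → R) (l : Ω → Λ) (c0 : Ω → C)
    (N : ℕ) (hN : 1 ≤ N) (f : Ω → F) (ufar : Ω → U) (ell : Ω → E) (T0 : Ω → T) (tl : Ω → T')
    (xc : Ω → X) (D : Ω → S) {cF cU e₀ e₁ e₂ e₃ e₄ e₅ : ℝ}
    (hzf : Det p zr f) (hef : Det p ell f) (heu : Det p (fun ω => (ell ω, T0 ω)) ufar)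
    (hpT : Det p zp T0) (hrT : Det p zr T0)
    (h0 : CH p f xc ≤ cF) (h1 : CH p ell (fun ω => (f ω, xc ω)) ≤ cU + e₀)
    (h2 : ∀ v : (Fin 2 → Fin (N + 1) → Fin 2 → Ω) → Ω,
      (v = (fun W => W 1 0 0) ∨ ∃ j, v = fun W => W 0 j 1) →
      CH (slN p zp zr l c0 N) (fun W => xc (v W)) (fun W => (l (W 0 0 0), c0 (W 0 0 0))) ≤ e₁)
    (h3 : cF - e₂ ≤ CH p f zp) (h4 : cU - e₃ ≤ CH p ufar zr)
    (h5 : cU - e₄ ≤ CH p tl (fun ω => (l ω, c0 ω)))
    (h6 : CH (cpn p zp 1) (fun v => tl (v 1)) (fun v => (ell (v 0), (l (v 1), c0 (v 1)))) ≤ e₅) :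
    CH p D (fun ω => (l ω, c0 ω)) -
        ((N + 2) * e₁ + (N + 1) * e₀ + 2 * e₂ + N * e₃ + e₄ + e₅) ≤
      CH (slN p zp zr l c0 N) (fun W => D (W 0 0 0))
        (fun W => ((ell (W 1 0 0), fun (j : Fin N) => ell (W 0 j.succ 1)),
          (l (W 0 0 0), c0 (W 0 0 0)))) := by
  classical
  have p0 := hp.nonneg
  have hq1 := cpn_law hp zp 1
  have q10 := hq1.nonneg
  have hq2 := cpn_law hq1 (fun v => zr (v 1)) N
  have q20 := hq2.nonneg
  have hQ := slN_law hp zp zr l c0 N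
  have Q0 := hQ.nonneg
  have hone : ∀ (i : Fin 2) (j : Fin (N + 1)) (k : Fin 2) {A B : Type} (a : Ω → A) (b : Ω → B),
      CH (slN p zp zr l c0 N) (fun W => a (W i j k)) (fun W => b (W i j k)) = CH p a b :=
    fun i j k _ _ a b => (slN_one hp zp zr l c0 N i j k).CH a b
  obtain ⟨tup, htup⟩ : ∃ tup : (Fin 2 → Fin (N + 1) → Fin 2 → Ω) → Fin N → E,
    tup = fun W (j : Fin N) => ell (W 0 j.succ 1) := ⟨_, rfl⟩
  obtain ⟨W0, hW0⟩ : ∃ W0 : (Fin 2 → Fin (N + 1) → Fin 2 → Ω) → Λ × C,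
    W0 = fun W => (l (W 0 0 0), c0 (W 0 0 0)) := ⟨_, rfl⟩
  have hgoal : (fun W : Fin 2 → Fin (N + 1) → Fin 2 → Ω =>
      ((ell (W 1 0 0), fun (j : Fin N) => ell (W 0 j.succ 1)), (l (W 0 0 0), c0 (W 0 0 0)))) =
      fun W => ((ell (W 1 0 0), tup W), W0 W) := by
    rw [htup, hW0]
  rw [hgoal]
  rw [← hW0] at h2
  -- the chain rules
  have c1 := CH_chain Q0 (fun W => D (W 0 0 0)) (fun W => (ell (W 1 0 0), tup W)) W0
  have c2 := CH_chain Q0 (fun W => (ell (W 1 0 0), tup W)) (fun W => D (W 0 0 0)) W0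
  have c3 : CH (slN p zp zr l c0 N) (fun W => (D (W 0 0 0), (ell (W 1 0 0), tup W))) W0 =
      CH (slN p zp zr l c0 N) (fun W => ((ell (W 1 0 0), tup W), D (W 0 0 0))) W0 :=
    Pool.MIC.CH_swl Q0 _ _ _
  have c4 : CH (slN p zp zr l c0 N) (fun W => D (W 0 0 0)) W0 =
      CH p D (fun ω => (l ω, c0 ω)) := by
    rw [hW0]
    exact hone 0 0 0 D (fun ω => (l ω, c0 ω))
  -- the upper bound
  have u1 : CH (slN p zp zr l c0 N) (fun W => ell (W 1 0 0)) W0 ≤ e₁ + (cF + (cU + e₀)) := by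
    refine (CH_le_add Q0 _ (fun W => xc (W 1 0 0)) _).trans
      (add_le_add (h2 _ (Or.inl rfl)) ?_)
    refine le_trans (CH_mono_cond Q0 (W := fun W => xc (W 1 0 0)) fun _ _ _ _ h =>
      (Prod.ext_iff.1 h).1) ?_
    refine (hone 1 0 0 ell xc).le.trans ?_
    exact (CH_le_add p0 ell f xc).trans (add_le_add h0 h1)
  have u2 : CH (slN p zp zr l c0 N) (fun W => f (W 0 0 1)) W0 ≤ e₁ + cF := by
    refine (CH_le_add Q0 _ (fun W => xc (W 0 0 1)) _).trans
      (add_le_add (h2 _ (Or.inr ⟨0, rfl⟩)) ?_)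
    refine le_trans (CH_mono_cond Q0 (W := fun W => xc (W 0 0 1)) fun _ _ _ _ h =>
      (Prod.ext_iff.1 h).1) ?_
    exact (hone 0 0 1 f xc).le.trans h0
  have hzf' : ∀ W, 0 < slN p zp zr l c0 N W → ∀ j, f (W 0 j 1) = f (W 0 0 1) := fun W hW j => by
    obtain ⟨g1, -, g3, -, -⟩ := slN_pos hp zp zr l c0 N hW
    exact hzf _ _ (g1 0 j 1) (g1 0 0 1) (g3 0 j)
  have u3 : ∀ j : Fin N, CH (slN p zp zr l c0 N) (fun W => ell (W 0 j.succ 1))
      (fun W => (f (W 0 0 1), W0 W)) ≤ e₁ + (cU + e₀) := by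
    intro j
    refine (CH_le_add Q0 _ (fun W => xc (W 0 j.succ 1)) _).trans (add_le_add ?_ ?_)
    · refine le_trans (CH_mono_cond Q0 (W := W0) fun _ _ _ _ h => (Prod.ext_iff.1 h).2) ?_
      exact h2 _ (Or.inr ⟨j.succ, rfl⟩)
    · refine le_trans (CH_mono_cond Q0
        (W := fun W => (f (W 0 j.succ 1), xc (W 0 j.succ 1))) fun W W' hW hW' h => ?_) ?_
      · have h' := Prod.ext_iff.1 h
        have h'' := Prod.ext_iff.1 h'.2
        simp only at h' h''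
        refine Prod.ext ?_ h'.1
        show f (W 0 j.succ 1) = f (W' 0 j.succ 1)
        rw [hzf' W hW, hzf' W' hW', h''.1]
      · exact (hone 0 j.succ 1 ell (fun ω => (f ω, xc ω))).le.trans h1
  have u4 : CH (slN p zp zr l c0 N) tup W0 ≤ (e₁ + cF) + N * (e₁ + (cU + e₀)) := by
    refine (CH_le_add Q0 _ (fun W => f (W 0 0 1)) _).trans (add_le_add u2 ?_)
    rw [htup]
    refine (Pool.KS3.CH_pi_le Q0 (fun (W : Fin 2 → Fin (N + 1) → Fin 2 → Ω) (j : Fin N) =>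
      ell (W 0 j.succ 1)) (fun W => (f (W 0 0 1), W0 W))).trans ?_
    refine (Finset.sum_le_sum (g := fun _ => e₁ + (cU + e₀)) fun j _ => u3 j).trans ?_
    rw [Finset.sum_const, Finset.card_univ, Fintype.card_fin, nsmul_eq_mul]
  have c5 : CH (slN p zp zr l c0 N) (fun W => (ell (W 1 0 0), tup W)) W0 ≤
      (e₁ + (cF + (cU + e₀))) + ((e₁ + cF) + N * (e₁ + (cU + e₀))) :=
    (CH_subadd Q0 _ _ _).trans (add_le_add u1 u4)
  -- the lower bound
  have c6 : CH (slN p zp zr l c0 N) (fun W => (ell (W 1 0 0), tup W)) (fun W => W 0 0 0) ≤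
      CH (slN p zp zr l c0 N) (fun W => (ell (W 1 0 0), tup W))
        (fun W => (D (W 0 0 0), W0 W)) :=
    CH_mono_cond Q0 fun W W' _ _ h => by
      have h' : W 0 0 0 = W' 0 0 0 := h
      rw [hW0]
      show (D (W 0 0 0), (l (W 0 0 0), c0 (W 0 0 0))) =
        (D (W' 0 0 0), (l (W' 0 0 0), c0 (W' 0 0 0)))
      rw [h']
  have c7 := CH_chain Q0 (fun W => ell (W 1 0 0)) tup (fun W => W 0 0 0)
  have c8 : CH (slN p zp zr l c0 N) (fun W => ell (W 1 0 0)) (fun W => W 0) ≤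
      CH (slN p zp zr l c0 N) (fun W => ell (W 1 0 0)) (fun W => (tup W, W 0 0 0)) :=
    CH_mono_cond Q0 fun W W' _ _ h => by
      have h' : W 0 = W' 0 := h
      rw [htup]
      show ((fun (j : Fin N) => ell (W 0 j.succ 1)), W 0 0 0) =
        ((fun (j : Fin N) => ell (W' 0 j.succ 1)), W' 0 0 0)
      rw [h']
  have c9 : cF + cU - (e₂ + e₄ + e₅) ≤
      CH (slN p zp zr l c0 N) (fun W => ell (W 1 0 0)) (fun W => W 0) := by
    refine (star_low hp zp l c0 f ell tl hef h3 h5 h6).trans ?_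
    have b1 := cpn_oth hq2 (fun V => (l (V 0 1), c0 (V 0 1))) (fun V => ell (V 0 0))
    have b2 : CH (cpn (cpn p zp 1) (fun v => zr (v 1)) N) (fun V => ell (V 0 0))
        (fun V => (l (V 0 1), c0 (V 0 1))) =
        CH (cpn p zp 1) (fun v => ell (v 0)) (fun v => (l (v 1), c0 (v 1))) :=
      CH_cpn hq1 (fun v => zr (v 1)) N 0 (fun v => ell (v 0)) (fun v => (l (v 1), c0 (v 1)))
    rw [b2] at b1
    exact b1
  have c10 : cF - e₂ + N * (cU - e₃) ≤
      CH (slN p zp zr l c0 N) tup (fun W => W 0 0 0) := by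
    have b0 : CH (slN p zp zr l c0 N) tup (fun W => W 0 0 0) =
        CH (cpn (cpn p zp 1) (fun v => zr (v 1)) N)
          (fun V (j : Fin N) => ell (V j.succ 1)) (fun V => V 0 0) := by
      rw [htup]
      exact (slN_two hp zp zr l c0 N 0).CH (fun V (j : Fin N) => ell (V j.succ 1))
        (fun V => V 0 0)
    rw [b0]
    have hpos : ∀ V, 0 < cpn (cpn p zp 1) (fun v => zr (v 1)) N V →
        (∀ j k, 0 < p (V j k)) ∧ (∀ j, zp (V j 1) = zp (V j 0)) ∧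
          ∀ j, zr (V j 1) = zr (V 0 1) := by
      intro V hV
      have k2 := cpn_pos q10 (fun v => zr (v 1)) N V hV
      have k1 := fun j => cpn_pos p0 zp 1 (V j) (k2.1 j)
      exact ⟨fun j k => (k1 j).1 k, fun j => (k1 j).2 1, fun j => k2.2 j⟩
    have b1 : CH (cpn (cpn p zp 1) (fun v => zr (v 1)) N)
        (fun V => ((fun (j : Fin N) => ufar (V j.succ 1)), f (V 0 1))) (fun V => V 0 0) ≤
        CH (cpn (cpn p zp 1) (fun v => zr (v 1)) N)
          (fun V (j : Fin N) => ell (V j.succ 1)) (fun V => V 0 0) := by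
      refine CH_mono_left q20 fun V V' hV hV' h => ?_
      have h' := Prod.ext_iff.1 h
      simp only at h'
      obtain ⟨g1, g2, g3⟩ := hpos V hV
      obtain ⟨g1', g2', g3'⟩ := hpos V' hV'
      have hkT : ∀ j, T0 (V j 1) = T0 (V 0 0) := fun j =>
        (hrT _ _ (g1 j 1) (g1 0 1) (g3 j)).trans (hpT _ _ (g1 0 1) (g1 0 0) (g2 0))
      have hkT' : ∀ j, T0 (V' j 1) = T0 (V' 0 0) := fun j =>
        (hrT _ _ (g1' j 1) (g1' 0 1) (g3' j)).trans (hpT _ _ (g1' 0 1) (g1' 0 0) (g2' 0))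
      refine Prod.ext ?_ ?_
      · funext j
        refine heu _ _ (g1 j.succ 1) (g1' j.succ 1) (Prod.ext (congrFun h'.1 j) ?_)
        show T0 (V j.succ 1) = T0 (V' j.succ 1)
        rw [hkT, hkT', h'.2]
      · obtain ⟨n, rfl⟩ : ∃ n, N = n + 1 := ⟨N - 1, by omega⟩
        have kf : f (V (Fin.succ 0) 1) = f (V' (Fin.succ 0) 1) :=
          hef _ _ (g1 _ 1) (g1' _ 1) (congrFun h'.1 0)
        have kf1 : f (V (Fin.succ 0) 1) = f (V 0 1) := hzf _ _ (g1 _ 1) (g1 0 1) (g3 _)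
        have kf2 : f (V' (Fin.succ 0) 1) = f (V' 0 1) := hzf _ _ (g1' _ 1) (g1' 0 1) (g3' _)
        show f (V 0 1) = f (V' 0 1)
        rw [← kf1, ← kf2, kf]
    have b2 := CH_chain q20 (fun V (j : Fin N) => ufar (V j.succ 1)) (fun V => f (V 0 1))
      (fun V => V 0 0)
    have b3 : CH p f zp ≤
        CH (cpn (cpn p zp 1) (fun v => zr (v 1)) N) (fun V => f (V 0 1)) (fun V => V 0 0) := by
      refine (cpn_oth hp zp f).trans (le_of_eq ?_)
      exact (CH_cpn hq1 (fun v => zr (v 1)) N 0 (fun v => f (v 1)) (fun v => v 0)).symm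
    have b4 : N * CH p ufar zr ≤ CH (cpn (cpn p zp 1) (fun v => zr (v 1)) N)
        (fun V (j : Fin N) => ufar (V j.succ 1)) (fun V => (f (V 0 1), V 0 0)) := by
      have k2 : CH (cpn p zp 1) (fun v => ufar (v 1)) (fun v => zr (v 1)) = CH p ufar zr :=
        CH_cpn hp zp 1 1 ufar zr
      have k1 := tail_ge hq1 (fun v => zr (v 1)) (fun v => ufar (v 1)) N
        (B := fun V => (f (V 0 1), V 0 0)) (fun V V' _ _ h => by
          have h' : V 0 = V' 0 := h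
          show (f (V 0 1), V 0 0) = (f (V' 0 1), V' 0 0)
          rw [h'])
      rw [k2] at k1
      exact k1
    have b5 : (N : ℝ) * (cU - e₃) ≤ N * CH p ufar zr :=
      mul_le_mul_of_nonneg_left h4 (Nat.cast_nonneg N)
    linarith
  have e1 : ((N : ℝ) + 2) * e₁ + (N + 1) * e₀ + 2 * e₂ + N * e₃ + e₄ + e₅ =
      ((e₁ + (cF + (cU + e₀))) + ((e₁ + cF) + N * (e₁ + (cU + e₀)))) -
      ((cF + cU - (e₂ + e₄ + e₅)) + (cF - e₂ + N * (cU - e₃))) := by ring
  rw [e1]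
  linarith

end

end Pool.SL77
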