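import Pool.Agent.H77.SL.Frm
import Pool.Agent.H77.SL.LawN

/-!
# The star lemma: the data of the samples and the relations of pairs

`SlD`: the data. `SamR`, `StarR`, `ParR`: the relations of one sample, of a star and of a line with its
parallel lines. `tri_of`: they give the relations `Tri` of the triangle, `top_of`: the crude bound of the
level polynomial, `quo_of`: the quotients from the normalized derivatives.
-/

set_option autoImplicit false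

namespace Pool.SL77

open Finset Polynomial
open Pool.Agent.H49.Ent Pool.Agent.H32.Dense Pool.STK
open Pool.BFL (Pb)

/-- **The data of the samples**: line `l`, code `le l` of its near data, own path `nL` of the target
and its slope `cL`, coded paths `uC`, `gC`, weights `qk` and slopes `ck` of a tuple of parallel lines,
coarse time `c0`, digits `t` of the time behind it, level `nu`. -/
structure SlD (Ω Λ E : Type) (N K : ℕ) where
  l : Ω → Λ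
  le : Λ → E
  nL : Λ → ℝ[X]
  cL : Λ → ℝ[X]
  uC : E → ℝ[X]
  gC : E → ℝ[X]
  qk : (Fin (N + 1) → E) → Fin K → ℝ[X]
  ck : (Fin (N + 1) → E) → Fin K → ℝ[X]
  c0 : Ω → ℝ
  t : Ω → ℤ
  ν : Ω → ℤ

section

variable {Ω Λ E : Type} {N K : ℕ} (X : SlD Ω Λ E N K)

/-- The near data of the line of a sample. -/
def SlD.ell (ω : Ω) : E := X.le (X.l ω)

/-- The time. -/
noncomputable def SlD.tm (ρ0 : ℝ) (M : ℕ) (ω : Ω) : ℝ := X.c0 ω + ρ0 * ((X.t ω : ℝ) / M)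

/-- The own velocity of the target at the own time. -/
noncomputable def SlD.vN (ρ0 : ℝ) (M : ℕ) (ω : Ω) : ℝ :=
  (derivative (X.nL (X.l ω))).eval (X.tm ρ0 M ω)

/-- The own velocity of the moved place at the own time. -/
noncomputable def SlD.vU (ρ0 : ℝ) (M : ℕ) (ω : Ω) : ℝ :=
  (derivative (X.uC (X.ell ω))).eval (X.tm ρ0 M ω)

/-- The slope of the line at the own time. -/
noncomputable def SlD.vC (ρ0 : ℝ) (M : ℕ) (ω : Ω) : ℝ := (X.cL (X.l ω)).eval (X.tm ρ0 M ω)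

/-- All polynomials have degree at most `D`. -/
structure SlD.Deg (D : ℕ) : Prop where
  n : ∀ x, (X.nL x).natDegree ≤ D
  cc : ∀ x, (X.cL x).natDegree ≤ D
  u : ∀ x, (X.uC x).natDegree ≤ D
  g : ∀ x, (X.gC x).natDegree ≤ D
  q : ∀ x k, (X.qk x k).natDegree ≤ D
  c : ∀ x k, (X.ck x k).natDegree ≤ D

/-- The relations of one sample. -/
structure SamR (εg Y : ℝ) (ω : Ω) : Prop where
  lv : |(X.ν ω : ℝ) - (X.nL (X.l ω)).eval 0| ≤ 1
  g0 : ∀ s : ℝ, |s| ≤ 2 →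
    |(X.nL (X.l ω)).eval s - (X.nL (X.l ω)).eval 0 - (X.gC (X.ell ω)).eval s| ≤ εg
  g1 : ∀ s : ℝ, |s| ≤ 2 →
    |(derivative (X.nL (X.l ω))).eval s - (derivative (X.gC (X.ell ω))).eval s| ≤ εg
  b1 : ∀ s : ℝ, |s| ≤ 4 → |(X.nL (X.l ω)).eval s| ≤ Y
  b2 : ∀ s : ℝ, |s| ≤ 4 → |(X.gC (X.ell ω)).eval s| ≤ Y
  b3 : ∀ s : ℝ, |s| ≤ 4 → |(X.uC (X.ell ω)).eval s| ≤ 1

/-- **The relations of a star.** -/
structure StarR (ρ0 : ℝ) (M : ℕ) (ε εu δ θ : ℝ) (v : Fin 2 → Ω) : Prop where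
  n : |(X.nL (X.l (v 0))).eval (X.tm ρ0 M (v 0)) -
    (X.nL (X.l (v 1))).eval (X.tm ρ0 M (v 0))| ≤ ε
  a : derivative (derivative (X.uC (X.ell (v 0)) - X.uC (X.ell (v 1)))) = 0
  u : |(X.uC (X.ell (v 0)) - X.uC (X.ell (v 1))).eval (X.tm ρ0 M (v 0))| ≤ εu
  s0 : δ ≤ θ * |X.vU ρ0 M (v 0) - X.vU ρ0 M (v 1)|
  s1 : |X.vU ρ0 M (v 0) - X.vU ρ0 M (v 1)| ≤ θ * δ

/-- **The relations of a line with its parallel lines.** -/
structure ParR (ε1 ε2 Lq Y : ℝ) (w : Fin (N + 1 + 1) → Ω) : Prop where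
  h : derivative (X.uC (X.ell (w 0)) - X.uC (X.ell (w (Fin.succ 0)))) = 0
  e1 : ∀ s : ℝ, |s| ≤ 1 →
    |(X.nL (X.l (w 0)) - X.nL (X.l (w (Fin.succ 0))) - Qh (X.qk fun j => X.ell (w j.succ))
      (X.ck fun j => X.ell (w j.succ))
      ((X.uC (X.ell (w 0)) - X.uC (X.ell (w (Fin.succ 0)))).eval 0)).eval s| ≤ ε1
  e2 : ∀ s : ℝ, |s| ≤ 1 →
    |(Qd (X.qk fun j => X.ell (w j.succ)) (X.ck fun j => X.ell (w j.succ))
      ((X.uC (X.ell (w 0)) - X.uC (X.ell (w (Fin.succ 0)))).eval 0) -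
        X.cL (X.l (w 0))).eval s| ≤ ε2
  qb : QB (X.qk fun j => X.ell (w j.succ)) (X.ck fun j => X.ell (w j.succ))
      ((X.uC (X.ell (w 0)) - X.uC (X.ell (w (Fin.succ 0)))).eval 0) Lq
  qy : ∀ k, ∀ y : ℝ, |y| ≤ 2 → |(X.qk (fun j => X.ell (w j.succ)) k).eval y| ≤ Y

/-- The conditioning. -/
def slW (W : Fin 2 → Fin (N + 1 + 1) → Fin 2 → Ω) : (E × (Fin (N + 1) → E)) × (Λ × ℝ) :=
  ((X.ell (W 1 0 0), fun (j : Fin (N + 1)) => X.ell (W 0 j.succ 1)),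
    (X.l (W 0 0 0), X.c0 (W 0 0 0)))

/-- The height of `om0` over the base parallel line. -/
noncomputable def slD0 (k : (E × (Fin (N + 1) → E)) × (Λ × ℝ)) : ℝ[X] :=
  X.uC (X.le k.2.1) - X.uC (k.1.2 0)

/-- The height of `om1` over the base parallel line. -/
noncomputable def slD1 (k : (E × (Fin (N + 1) → E)) × (Λ × ℝ)) : ℝ[X] :=
  X.uC k.1.1 - X.uC (k.1.2 0)

noncomputable def slE0 (k : (E × (Fin (N + 1) → E)) × (Λ × ℝ)) : ℝ[X] :=
  X.nL k.2.1 - X.gC (k.1.2 0) - Qc (X.qk k.1.2) (X.ck k.1.2) (slD0 X k)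

noncomputable def slE1 (k : (E × (Fin (N + 1) → E)) × (Λ × ℝ)) : ℝ[X] :=
  X.gC k.1.1 - X.gC (k.1.2 0) - Qc (X.qk k.1.2) (X.ck k.1.2) (slD1 X k)

/-- The height of `om2` over the base parallel line. -/
noncomputable def slh (W : Fin 2 → Fin (N + 1 + 1) → Fin 2 → Ω) : ℝ :=
  (X.uC (X.ell (W 0 0 1)) - X.uC (X.ell (W 0 (Fin.succ 0) 1))).eval 0

/-- The error of the parallel lines. -/
noncomputable def sler (W : Fin 2 → Fin (N + 1 + 1) → Fin 2 → Ω) : ℝ[X] :=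
  X.nL (X.l (W 0 0 1)) - X.nL (X.l (W 0 (Fin.succ 0) 1)) -
    Qh (X.qk fun j => X.ell (W 0 j.succ 1)) (X.ck fun j => X.ell (W 0 j.succ 1)) (slh X W)

theorem slE0_deg {D : ℕ} (h : X.Deg D) (k : (E × (Fin (N + 1) → E)) × (Λ × ℝ)) :
    (slE0 X k).natDegree ≤ D * D + D := by
  have h1 : (slD0 X k).natDegree ≤ D := (natDegree_sub_le _ _).trans (max_le (h.u _) (h.u _))
  have h2 : D ≤ D * D + D := Nat.le_add_left _ _
  refine (natDegree_sub_le _ _).trans (max_le ?_ (Qc_deg (h.q _) (h.c _) h1))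
  exact ((natDegree_sub_le _ _).trans (max_le (h.n _) (h.g _))).trans h2

theorem slE1_deg {D : ℕ} (h : X.Deg D) (k : (E × (Fin (N + 1) → E)) × (Λ × ℝ)) :
    (slE1 X k).natDegree ≤ D * D + D := by
  have h1 : (slD1 X k).natDegree ≤ D := (natDegree_sub_le _ _).trans (max_le (h.u _) (h.u _))
  have h2 : D ≤ D * D + D := Nat.le_add_left _ _
  refine (natDegree_sub_le _ _).trans (max_le ?_ (Qc_deg (h.q _) (h.c _) h1))
  exact ((natDegree_sub_le _ _).trans (max_le (h.g _) (h.g _))).trans h2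

theorem sler_deg {D : ℕ} (h : X.Deg D) (W : Fin 2 → Fin (N + 1 + 1) → Fin 2 → Ω) :
    (sler X W).natDegree ≤ D * D + D := by
  have h2 : D ≤ D * D + D := Nat.le_add_left _ _
  refine ((natDegree_sub_le _ _).trans (max_le ?_ (Qh_deg (h.c _) _))).trans h2
  exact (natDegree_sub_le _ _).trans (max_le (h.n _) (h.n _))

/-- The glue relations of a configuration and the good events. -/
structure SlG (ρ0 : ℝ) (M : ℕ) (ε εu εg ε1 ε2 δ θ Lq Y : ℝ)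
    (W : Fin 2 → Fin (N + 1 + 1) → Fin 2 → Ω) : Prop where
  hl : X.l (W 1 0 1) = X.l (W 0 0 1)
  hc1 : X.c0 (W 1 0 1) = X.c0 (W 0 0 1)
  hcA : X.c0 (W 0 0 1) = X.c0 (W 0 0 0)
  hcB : X.c0 (W 1 0 1) = X.c0 (W 1 0 0)
  htA : X.t (W 0 0 1) = X.t (W 0 0 0)
  htB : X.t (W 1 0 1) = X.t (W 1 0 0)
  hc : |X.c0 (W 0 0 0)| ≤ 1
  tA : |(X.t (W 0 0 0) : ℝ) / M| ≤ 1
  tB : |(X.t (W 1 0 0) : ℝ) / M| ≤ 1
  s0 : SamR X εg Y (W 0 0 0)
  s1 : SamR X εg Y (W 1 0 0)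
  s2 : SamR X εg Y (W 0 0 1)
  sr : SamR X εg Y (W 0 (Fin.succ 0) 1)
  stA : StarR X ρ0 M ε εu δ θ (W 0 0)
  stB : StarR X ρ0 M ε εu δ θ (W 1 0)
  pr : ParR X ε1 ε2 Lq Y (fun j => W 0 j 1)

variable {X} {ρ0 : ℝ} {M : ℕ} {ε εu εg ε1 ε2 δ θ Lq Y : ℝ}
  {W : Fin 2 → Fin (N + 1 + 1) → Fin 2 → Ω}

/-- A polynomial with zero derivative is constant. -/
theorem eval_const {P : ℝ[X]} (h : derivative P = 0) (x y : ℝ) : P.eval x = P.eval y := by
  have h1 := derivative_eq_zero.1 h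
  rw [eq_C_of_natDegree_eq_zero h1, eval_C, eval_C]

/-- The heights at the two meeting times and the slopes. -/
theorem SlG.hts (H : SlG X ρ0 M ε εu εg ε1 ε2 δ θ Lq Y W) :
    |(slD0 X (slW X W)).eval (X.tm ρ0 M (W 0 0 0)) - slh X W| ≤ εu ∧
    |(slD1 X (slW X W)).eval (X.tm ρ0 M (W 1 0 0)) - slh X W| ≤ εu ∧
    derivative (derivative (slD0 X (slW X W))) = 0 ∧
    derivative (derivative (slD1 X (slW X W))) = 0 ∧
    (∀ x, (derivative (slD0 X (slW X W))).eval x =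
      X.vU ρ0 M (W 0 0 0) - X.vU ρ0 M (W 0 0 1)) ∧
    ∀ x, (derivative (slD1 X (slW X W))).eval x =
      X.vU ρ0 M (W 1 0 0) - X.vU ρ0 M (W 1 0 1) := by
  have hell : X.ell (W 1 0 1) = X.ell (W 0 0 1) := by
    unfold SlD.ell
    rw [H.hl]
  have htm0 : X.tm ρ0 M (W 0 0 1) = X.tm ρ0 M (W 0 0 0) := by
    unfold SlD.tm
    rw [H.hcA, H.htA]
  have htm1 : X.tm ρ0 M (W 1 0 1) = X.tm ρ0 M (W 1 0 0) := by
    unfold SlD.tm
    rw [H.hcB, H.htB]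
  have e0 : slD0 X (slW X W) = (X.uC (X.ell (W 0 0 0)) - X.uC (X.ell (W 0 0 1))) +
      (X.uC (X.ell (W 0 0 1)) - X.uC (X.ell (W 0 (Fin.succ 0) 1))) := by
    unfold slD0 slW SlD.ell
    ring
  have e1 : slD1 X (slW X W) = (X.uC (X.ell (W 1 0 0)) - X.uC (X.ell (W 1 0 1))) +
      (X.uC (X.ell (W 0 0 1)) - X.uC (X.ell (W 0 (Fin.succ 0) 1))) := by
    rw [hell]
    unfold slD1 slW
    ring
  have hpar : derivative (X.uC (X.ell (W 0 0 1)) - X.uC (X.ell (W 0 (Fin.succ 0) 1))) = 0 :=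
    H.pr.h
  have hA0 : derivative (derivative (slD0 X (slW X W))) = 0 := by
    rw [e0, derivative_add, hpar, add_zero]
    exact H.stA.a
  have hB0 : derivative (derivative (slD1 X (slW X W))) = 0 := by
    rw [e1, derivative_add, hpar, add_zero]
    exact H.stB.a
  refine ⟨?_, ?_, hA0, hB0, ?_, ?_⟩
  · rw [e0, eval_add]
    have h1 := eval_const hpar (X.tm ρ0 M (W 0 0 0)) 0
    unfold slh
    rw [h1, add_sub_cancel_right]
    exact H.stA.u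
  · rw [e1, eval_add]
    have h1 := eval_const hpar (X.tm ρ0 M (W 1 0 0)) 0
    unfold slh
    rw [h1, add_sub_cancel_right]
    exact H.stB.u
  · intro x
    rw [eval_const hA0 x (X.tm ρ0 M (W 0 0 0)), e0, derivative_add, hpar, add_zero,
      derivative_sub, eval_sub]
    unfold SlD.vU
    rw [htm0]
  · intro x
    rw [eval_const hB0 x (X.tm ρ0 M (W 1 0 0)), e1, derivative_add, hpar, add_zero,
      derivative_sub, eval_sub]
    unfold SlD.vU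
    rw [htm1]

/-- The crude bound of the errors. -/
theorem SlG.crude (H : SlG X ρ0 M ε εu εg ε1 ε2 δ θ Lq Y W) :
    (∀ s : ℝ, |s| ≤ 4 → |(slE0 X (slW X W)).eval s| ≤ 2 * Y + K * (Y * Lq)) ∧
    (∀ s : ℝ, |s| ≤ 4 → |(slE1 X (slW X W)).eval s| ≤ 2 * Y + K * (Y * Lq)) ∧
    (∀ s : ℝ, |s| ≤ 4 → |(sler X W).eval s| ≤ 2 * Y + K * (Y * Lq)) ∧
    |(X.nL (X.l (W 0 (Fin.succ 0) 1))).eval 0| ≤ Y := by
  have hY0 : 0 ≤ Y := (abs_nonneg _).trans (H.s0.b1 0 (by rw [abs_zero]; norm_num))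
  have hqk := H.pr.qy
  have hqb := H.pr.qb
  have hsum : ∀ (y : ℝ) (s : ℝ), |y| ≤ 2 → |s| ≤ 4 →
      |∑ k, (X.qk (fun j => X.ell (W 0 j.succ 1)) k).eval y *
        (X.ck (fun j => X.ell (W 0 j.succ 1)) k).eval s| ≤ K * (Y * Lq) := by
    intro y s hy hs
    refine (Finset.abs_sum_le_sum_abs _ _).trans ?_
    refine (Finset.sum_le_sum (g := fun _ => Y * Lq) fun k _ => ?_).trans ?_
    · rw [abs_mul]
      exact mul_le_mul (hqk k y hy) (hqb.c0 k s hs) (abs_nonneg _) hY0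
    · rw [Finset.sum_const, Finset.card_univ, Fintype.card_fin, nsmul_eq_mul]
  have hD0 : ∀ s : ℝ, |s| ≤ 4 → |(slD0 X (slW X W)).eval s| ≤ 2 := fun s hs => by
    unfold slD0 slW
    rw [eval_sub]
    refine (abs_sub _ _).trans ?_
    have a1 := H.s0.b3 s hs
    have a2 := H.sr.b3 s hs
    unfold SlD.ell at a1 a2 ⊢
    linarith
  have hD1 : ∀ s : ℝ, |s| ≤ 4 → |(slD1 X (slW X W)).eval s| ≤ 2 := fun s hs => by
    unfold slD1 slW
    rw [eval_sub]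
    refine (abs_sub _ _).trans ?_
    have a1 := H.s1.b3 s hs
    have a2 := H.sr.b3 s hs
    linarith
  refine ⟨fun s hs => ?_, fun s hs => ?_, fun s hs => ?_, H.sr.b1 0 (by rw [abs_zero]; norm_num)⟩
  · unfold slE0
    rw [eval_sub, eval_sub, Qc_eval]
    have a1 := H.s0.b1 s hs
    have a2 := H.sr.b2 s hs
    have a3 := hsum _ s (hD0 s hs) hs
    have b1 := abs_sub ((X.nL (slW X W).2.1).eval s - (X.gC ((slW X W).1.2 0)).eval s)
      (∑ k, (X.qk (slW X W).1.2 k).eval ((slD0 X (slW X W)).eval s) *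
        (X.ck (slW X W).1.2 k).eval s)
    have b2 := abs_sub ((X.nL (slW X W).2.1).eval s) ((X.gC ((slW X W).1.2 0)).eval s)
    have c1 : |(X.nL (slW X W).2.1).eval s| ≤ Y := a1
    have c2 : |(X.gC ((slW X W).1.2 0)).eval s| ≤ Y := a2
    have c3 : |∑ k, (X.qk (slW X W).1.2 k).eval ((slD0 X (slW X W)).eval s) *
        (X.ck (slW X W).1.2 k).eval s| ≤ K * (Y * Lq) := a3
    linarith
  · unfold slE1
    rw [eval_sub, eval_sub, Qc_eval]
    have a1 := H.s1.b2 s hs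
    have a2 := H.sr.b2 s hs
    have a3 := hsum _ s (hD1 s hs) hs
    have b1 := abs_sub ((X.gC (slW X W).1.1).eval s - (X.gC ((slW X W).1.2 0)).eval s)
      (∑ k, (X.qk (slW X W).1.2 k).eval ((slD1 X (slW X W)).eval s) *
        (X.ck (slW X W).1.2 k).eval s)
    have b2 := abs_sub ((X.gC (slW X W).1.1).eval s) ((X.gC ((slW X W).1.2 0)).eval s)
    have c1 : |(X.gC (slW X W).1.1).eval s| ≤ Y := a1
    have c2 : |(X.gC ((slW X W).1.2 0)).eval s| ≤ Y := a2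
    have c3 : |∑ k, (X.qk (slW X W).1.2 k).eval ((slD1 X (slW X W)).eval s) *
        (X.ck (slW X W).1.2 k).eval s| ≤ K * (Y * Lq) := a3
    linarith
  · unfold sler
    rw [eval_sub, eval_sub, Qh_eval]
    have hh : |slh X W| ≤ 2 := by
      unfold slh
      rw [eval_sub]
      refine (abs_sub _ _).trans ?_
      have a1 := H.s2.b3 0 (by rw [abs_zero]; norm_num)
      have a2 := H.sr.b3 0 (by rw [abs_zero]; norm_num)
      linarith
    have a1 := H.s2.b1 s hs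
    have a2 := H.sr.b1 s hs
    have a3 := hsum _ s hh hs
    have b1 := abs_sub ((X.nL (X.l (W 0 0 1))).eval s -
      (X.nL (X.l (W 0 (Fin.succ 0) 1))).eval s)
      (∑ k, (X.qk (fun j => X.ell (W 0 j.succ 1)) k).eval (slh X W) *
        (X.ck (fun j => X.ell (W 0 j.succ 1)) k).eval s)
    have b2 := abs_sub ((X.nL (X.l (W 0 0 1))).eval s)
      ((X.nL (X.l (W 0 (Fin.succ 0) 1))).eval s)
    linarith

/-- The times. -/
theorem SlG.times (H : SlG X ρ0 M ε εu εg ε1 ε2 δ θ Lq Y W) (h0 : 0 ≤ ρ0) :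
    X.tm ρ0 M (W 0 0 0) = (slW X W).2.2 + ρ0 * ((X.t (W 0 0 0) : ℝ) / M) ∧
    |X.tm ρ0 M (W 0 0 0) - (slW X W).2.2| ≤ ρ0 ∧
    |X.tm ρ0 M (W 1 0 0) - (slW X W).2.2| ≤ ρ0 := by
  have e0 : (slW X W).2.2 = X.c0 (W 0 0 0) := rfl
  have e1 : X.c0 (W 1 0 0) = X.c0 (W 0 0 0) := by rw [← H.hcB, H.hc1, H.hcA]
  refine ⟨rfl, ?_, ?_⟩
  · rw [e0]
    unfold SlD.tm
    rw [add_sub_cancel_left, abs_mul, abs_of_nonneg h0]
    calc ρ0 * |(X.t (W 0 0 0) : ℝ) / M| ≤ ρ0 * 1 := mul_le_mul_of_nonneg_left H.tA h0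
      _ = ρ0 := mul_one _
  · rw [e0]
    unfold SlD.tm
    rw [e1, add_sub_cancel_left, abs_mul, abs_of_nonneg h0]
    calc ρ0 * |(X.t (W 1 0 0) : ℝ) / M| ≤ ρ0 * 1 := mul_le_mul_of_nonneg_left H.tB h0
      _ = ρ0 := mul_one _

/-- **The relations of the triangle.** -/
theorem SlG.tri (H : SlG X ρ0 M ε εu εg ε1 ε2 δ θ Lq Y W) (h0 : 0 < ρ0) (h1 : ρ0 ≤ 1 / 2)
    (hu : εu ≤ 1) (hεg : 0 ≤ εg) {Xc ε' : ℝ} (hX : 6 * Y + 2 * (K * (Y * Lq)) ≤ Xc)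
    (hε' : ε + 2 * εg + K * (Lq * Lq * εu) ≤ ε') :
    Tri (slE0 X (slW X W) - C ((X.nL (X.l (W 0 (Fin.succ 0) 1))).eval 0))
      (slE1 X (slW X W) + C ((X.nL (X.l (W 1 0 0))).eval 0 -
        (X.nL (X.l (W 0 (Fin.succ 0) 1))).eval 0)) (sler X W)
      (slD0 X (slW X W)) (slD1 X (slW X W)) (X.tm ρ0 M (W 0 0 0)) (X.tm ρ0 M (W 1 0 0))
      (slW X W).2.2 ρ0 ρ0 δ θ 0 ε1 Xc ε' (2 * εu) := by
  obtain ⟨a1, a2, a3, a4, a5, a6⟩ := H.hts
  obtain ⟨b1, b2, b3, b4⟩ := H.crude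
  obtain ⟨t1, t2, t3⟩ := H.times h0.le
  have hY0 : 0 ≤ Y := (abs_nonneg _).trans (H.s0.b1 0 (by rw [abs_zero]; norm_num))
  have hc : |(slW X W).2.2| ≤ 1 := H.hc
  have hA : |X.tm ρ0 M (W 0 0 0)| ≤ 3 / 2 := by
    have := abs_add_le (X.tm ρ0 M (W 0 0 0) - (slW X W).2.2) (slW X W).2.2
    rw [sub_add_cancel] at this
    linarith
  have hB : |X.tm ρ0 M (W 1 0 0)| ≤ 3 / 2 := by
    have := abs_add_le (X.tm ρ0 M (W 1 0 0) - (slW X W).2.2) (slW X W).2.2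
    rw [sub_add_cancel] at this
    linarith
  have hnear : ∀ s x : ℝ, |x| ≤ 3 / 2 → |s - x| ≤ ρ0 → |s| ≤ 4 := by
    intro s x h2 h3
    have := abs_add_le (s - x) x
    rw [sub_add_cancel] at this
    linarith
  have hell : X.l (W 1 0 1) = X.l (W 0 0 1) := H.hl
  refine ⟨hc, t2, t3, fun s hs => ?_, ?_, fun s hs => ?_, ?_, ?_, fun s _ => ?_, fun s _ => ?_,
    ?_, ?_, ?_⟩
  · rw [eval_sub, eval_C]
    have c1 := b1 s (hnear s _ hA hs)
    have c2 := b3 s (hnear s _ hA hs)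
    have d1 := abs_sub ((slE0 X (slW X W)).eval s -
      (X.nL (X.l (W 0 (Fin.succ 0) 1))).eval 0) ((sler X W).eval s)
    have d2 := abs_sub ((slE0 X (slW X W)).eval s) ((X.nL (X.l (W 0 (Fin.succ 0) 1))).eval 0)
    linarith
  · have h2 := f_val (K := K) H.pr.qb (m := X.nL (X.l (W 0 0 0))) (n := X.nL (X.l (W 0 0 0)))
      (n2 := X.nL (X.l (W 0 0 1))) (nr := X.nL (X.l (W 0 (Fin.succ 0) 1)))
      (gr := X.gC (X.ell (W 0 (Fin.succ 0) 1))) (D := slD0 X (slW X W))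
      (x := X.tm ρ0 M (W 0 0 0)) (l := 0) (lr := (X.nL (X.l (W 0 (Fin.succ 0) 1))).eval 0)
      (ε := ε) (εg := εg) (εd := εu) (by linarith) a1 hu
      (by rw [sub_zero, sub_self, abs_zero]; exact hεg)
      (H.sr.g0 _ (by linarith)) H.stA.n
    rw [eval_sub, eval_C]
    have e1 : (slE0 X (slW X W)).eval (X.tm ρ0 M (W 0 0 0)) -
        (X.nL (X.l (W 0 (Fin.succ 0) 1))).eval 0 - (sler X W).eval (X.tm ρ0 M (W 0 0 0)) =
        (X.nL (X.l (W 0 0 0)) - X.gC (X.ell (W 0 (Fin.succ 0) 1)) -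
          Qc (X.qk fun j => X.ell (W 0 j.succ 1)) (X.ck fun j => X.ell (W 0 j.succ 1))
            (slD0 X (slW X W))).eval (X.tm ρ0 M (W 0 0 0)) +
          (0 - (X.nL (X.l (W 0 (Fin.succ 0) 1))).eval 0) -
        (X.nL (X.l (W 0 0 1)) - X.nL (X.l (W 0 (Fin.succ 0) 1)) -
          Qh (X.qk fun j => X.ell (W 0 j.succ 1)) (X.ck fun j => X.ell (W 0 j.succ 1))
            ((X.uC (X.ell (W 0 0 1)) - X.uC (X.ell (W 0 (Fin.succ 0) 1))).eval 0)).eval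
              (X.tm ρ0 M (W 0 0 0)) := by
      have e2 : slE0 X (slW X W) = X.nL (X.l (W 0 0 0)) - X.gC (X.ell (W 0 (Fin.succ 0) 1)) -
          Qc (X.qk fun j => X.ell (W 0 j.succ 1)) (X.ck fun j => X.ell (W 0 j.succ 1))
            (slD0 X (slW X W)) := rfl
      have e3 : sler X W = X.nL (X.l (W 0 0 1)) - X.nL (X.l (W 0 (Fin.succ 0) 1)) -
          Qh (X.qk fun j => X.ell (W 0 j.succ 1)) (X.ck fun j => X.ell (W 0 j.succ 1))
            ((X.uC (X.ell (W 0 0 1)) - X.uC (X.ell (W 0 (Fin.succ 0) 1))).eval 0) := rfl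
      rw [e3, ← e2]
      ring
    rw [e1]
    exact h2.trans hε'
  · rw [eval_add, eval_C]
    have c1 := b2 s (hnear s _ hB hs)
    have c2 := b3 s (hnear s _ hB hs)
    have c3 := H.s1.b1 0 (by rw [abs_zero]; norm_num)
    have d1 := abs_sub ((slE1 X (slW X W)).eval s + ((X.nL (X.l (W 1 0 0))).eval 0 -
      (X.nL (X.l (W 0 (Fin.succ 0) 1))).eval 0)) ((sler X W).eval s)
    have d2 := abs_add_le ((slE1 X (slW X W)).eval s) ((X.nL (X.l (W 1 0 0))).eval 0 -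
      (X.nL (X.l (W 0 (Fin.succ 0) 1))).eval 0)
    have d3 := abs_sub ((X.nL (X.l (W 1 0 0))).eval 0)
      ((X.nL (X.l (W 0 (Fin.succ 0) 1))).eval 0)
    linarith
  · have h2 := f_val (K := K) H.pr.qb (m := X.gC (X.ell (W 1 0 0))) (n := X.nL (X.l (W 1 0 0)))
      (n2 := X.nL (X.l (W 0 0 1))) (nr := X.nL (X.l (W 0 (Fin.succ 0) 1)))
      (gr := X.gC (X.ell (W 0 (Fin.succ 0) 1))) (D := slD1 X (slW X W))
      (x := X.tm ρ0 M (W 1 0 0)) (l := (X.nL (X.l (W 1 0 0))).eval 0)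
      (lr := (X.nL (X.l (W 0 (Fin.succ 0) 1))).eval 0)
      (ε := ε) (εg := εg) (εd := εu) (by linarith) a2 hu
      (H.s1.g0 _ (by linarith)) (H.sr.g0 _ (by linarith)) (by
        have := H.stB.n
        rwa [hell] at this)
    rw [eval_add, eval_C]
    exact h2.trans hε'
  · exact H.pr.e1
  · rw [a3, eval_zero, abs_zero]
  · rw [a4, eval_zero, abs_zero]
  · rw [a5]
    exact H.stA.s0
  · rw [a6]
    exact H.stB.s0
  · have e1 : (slD0 X (slW X W)).eval (X.tm ρ0 M (W 0 0 0)) -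
        (slD1 X (slW X W)).eval (X.tm ρ0 M (W 1 0 0)) =
        ((slD0 X (slW X W)).eval (X.tm ρ0 M (W 0 0 0)) - slh X W) -
          ((slD1 X (slW X W)).eval (X.tm ρ0 M (W 1 0 0)) - slh X W) := by ring
    rw [e1]
    refine (abs_sub _ _).trans ?_
    linarith

end

end Pool.SL77
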