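import Pool.Agent.H77.SL.Rmz
import Pool.Agent.H54.ND.Evl

/-!
# The parallel lines, event level

`zrF`: the record of a line over which the parallel lines are copies. `par_evt`: off a small mass of
the copies, the lines are in one sheet, for all times of the window, and the slope path of the own
line is the derivative of the interpolation of the other lines.
-/

set_option autoImplicit false

namespace Pool.SL77

open Finset Real MvPolynomial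
open Pool.Agent.H49.Ent Pool.Agent.H32.Dense Pool.STK Pool.KA Pool.KSAT Pool.K2S Pool.PB Pool.S6C
open Pool.GEN hiding Det
open Pool.CHT Pool.D2R Pool.LA91 Pool.RCD
open Pool.PB.Trl (rt rt_mem t_rt)
open Pool.V0F (cR det_cR)
open Pool.NDC42
open Pool.ND54
open Pool.BFL (Pb)
open Pool.STB (Pb_mono Pb_or)
open Pool.CLU (cpn_law cpn_pos cpn_marg)
open Pool.NDD66 (op op_at op_deg op_der ov mu Lam Lam_le)

variable {m J : ℕ}

/-- **The record of a line with its parallel lines.** -/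
noncomputable def zrF (F : Fam m J) (A : F.Ω → Prop) (c : ℕ → Fin m) (D : ℕ) (w t : ℝ) (n : ℕ → ℝ)
    (nt : ℝ) (H : LnT F → ℕ → MvPolynomial (Option (Fin m)) ℝ) (ω : F.Ω) :=
  ((cR F A t ω, F.W ω), x0 F A c D w n nt H ω)

/-- **The time is full** given the own line and the data of the parallel lines. -/
theorem par_full {F : Fam m J} {A : F.Ω → Prop} (hA : 0 < Pe F.p A) {c : ℕ → Fin m} {D : ℕ}
    {w t : ℝ} {n : ℕ → ℝ} {nt e : ℝ} {H : LnT F → ℕ → MvPolynomial (Option (Fin m)) ℝ}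
    (hfu : ((n 2 - nt) * Real.log 2 - e) * J ≤ CH (Pool.Agent.H49.Ent.cond F.p A True)
      (hgC F c w H 2 (n 2)) (fun ω => ((cR F A t ω, F.W ω), x0 F A c D w n nt H ω)))
    (hxx : CH (Pool.Agent.H49.Ent.cond F.p A True) (xg F A c D w n nt H)
      (x0 F A c D w n nt H) ≤ ((n 2 - nt) * Real.log 2 + e) * J)
    (hhn : CH (Pool.Agent.H49.Ent.cond F.p A True) (hgC F c w H 2 (n 2))
      (fun ω => (F.T ω, xn F A c D w n nt H ω)) ≤ e * J)
    {Kc : Type} (kc : F.Ω → Kc)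
    (hk1 : ∀ ω ω', A ω → A ω' → slam F ⌊w * J⌋₊ ω = slam F ⌊w * J⌋₊ ω' → kc ω = kc ω')
    (hk2 : CH (Pool.Agent.H49.Ent.cond F.p A True) kc (xg F A c D w n nt H) ≤ e * J)
    {Tt : Type} (tt : F.Ω → Tt) (k : ℕ) :
    CH (Pool.Agent.H49.Ent.cond F.p A True) tt (slam F ⌊w * J⌋₊) - k * (4 * (e * J)) ≤
      CH (Pool.K2S.cpn (Pool.Agent.H49.Ent.cond F.p A True) (zrF F A c D w t n nt H) k)
        (fun v => tt (v 0))
        (fun v => (slam F ⌊w * J⌋₊ (v 0), fun i => elN F A c D w n nt H kc (v i))) := by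
  obtain ⟨p, hpe⟩ : ∃ p, p = Pool.Agent.H49.Ent.cond F.p A True := ⟨_, rfl⟩
  have hp : IsLaw p := by rw [hpe]; exact isLaw_cond F.isLaw hA
  have p0 := hp.nonneg
  have hpA : ∀ ω, 0 < p ω → A ω := fun ω hω => by
    rw [hpe] at hω
    exact cond_A hω
  rw [← hpe] at hfu hxx hhn hk2 ⊢
  have e1 : CH p (elN F A c D w n nt H kc) (x0 F A c D w n nt H) ≤
      (n 2 - nt) * Real.log 2 * J + (e * J + e * J) := by
    have h1 : CH p (elN F A c D w n nt H kc) (x0 F A c D w n nt H) ≤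
        CH p (fun ω => (kc ω, xg F A c D w n nt H ω)) (x0 F A c D w n nt H) :=
      CH_mono_left p0 fun ω ω' _ _ h => by
        have h' := Prod.ext_iff.1 (Prod.ext_iff.1 h).1
        exact Prod.ext h'.2 h'.1
    have h2 := CH_chain p0 kc (xg F A c D w n nt H) (x0 F A c D w n nt H)
    have h3 : CH p kc (fun ω => (xg F A c D w n nt H ω, x0 F A c D w n nt H ω)) ≤
        CH p kc (xg F A c D w n nt H) :=
      CH_mono_cond p0 fun _ _ _ _ h => (Prod.ext_iff.1 h).1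
    have h5 : ((n 2 - nt) * Real.log 2 + e) * J = (n 2 - nt) * Real.log 2 * J + e * J := by ring
    rw [h5] at hxx
    linarith
  have e2 : CH p (hgC F c w H 2 (n 2)) (fun ω => (elN F A c D w n nt H kc ω,
      zrF F A c D w t n nt H ω)) ≤ e * J := by
    refine le_trans (CH_mono_cond p0 fun ω ω' _ _ h => ?_) hhn
    have h' := Prod.ext_iff.1 h
    exact Prod.ext (congrArg (fun z => z.1.2.1) h'.2) (congrArg (fun z => z.1.1) h'.1)
  have e3 : (n 2 - nt) * Real.log 2 * J - e * J ≤ CH p (hgC F c w H 2 (n 2))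
      (zrF F A c D w t n nt H) := by
    have h5 : ((n 2 - nt) * Real.log 2 - e) * J = (n 2 - nt) * Real.log 2 * J - e * J := by ring
    rw [h5] at hfu
    exact hfu
  have h1 := nd_core hp (elN F A c D w n nt H kc) (x0 F A c D w n nt H) (hgC F c w H 2 (n 2))
    (zrF F A c D w t n nt H) k (cU := (n 2 - nt) * Real.log 2 * J) (ef := e * J + e * J)
    (eo := e * J) (eU := e * J) (fun ω ω' _ _ h => (Prod.ext_iff.1 h).2)
    (fun ω ω' _ _ h => congrArg (fun z => z.1.1.1) h) e1 e2 e3 tt (slam F ⌊w * J⌋₊)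
  have h2 : CH p tt (slam F ⌊w * J⌋₊) ≤
      CH p tt (fun ω => (slam F ⌊w * J⌋₊ ω, elN F A c D w n nt H kc ω)) :=
    CH_mono_cond p0 fun ω ω' hω hω' h => Prod.ext h (Prod.ext (det_xg hpA ω ω' hω hω' h)
      (hk1 ω ω' (hpA ω hω) (hpA ω' hω') h))
  have h3 : (k : ℝ) * (4 * (e * J)) = k * (e * J + e * J + e * J + e * J) := by ring
  rw [h3]
  linarith

/-- **The lines of a tuple of parallel lines.** -/
theorem par_evt (D D₂ : ℕ) : ∃ C : ℕ, 1 ≤ C ∧ ∀ {m J : ℕ} {F : Fam m J} {A : F.Ω → Prop}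
    (_ : 0 < Pe F.p A) {c : ℕ → Fin m} {w t : ℝ} {n : ℕ → ℝ} {nt e : ℝ}
    {H Hr : LnT F → ℕ → MvPolynomial (Option (Fin m)) ℝ}
    (_ : ((n 2 - nt) * Real.log 2 - e) * J ≤ CH (Pool.Agent.H49.Ent.cond F.p A True)
      (hgC F c w H 2 (n 2)) (fun ω => ((cR F A t ω, F.W ω), x0 F A c D w n nt H ω)))
    (_ : CH (Pool.Agent.H49.Ent.cond F.p A True) (xg F A c D w n nt H)
      (x0 F A c D w n nt H) ≤ ((n 2 - nt) * Real.log 2 + e) * J)
    (_ : CH (Pool.Agent.H49.Ent.cond F.p A True) (hgC F c w H 2 (n 2))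
      (fun ω => (F.T ω, xn F A c D w n nt H ω)) ≤ e * J)
    (_ : ((1 - w) * Real.log 2 - e) * J ≤
      CH (Pool.Agent.H49.Ent.cond F.p A True) F.T (slam F ⌊w * J⌋₊)),
    ⌊w * J⌋₊ < J → nt ≤ n 2 →
    (∀ s l, (H s l).totalDegree ≤ D) → ∀ {Kc : Type} (kc : F.Ω → Kc) {δg : ℝ},
    (∀ ω ω', A ω → A ω' → slam F ⌊w * J⌋₊ ω = slam F ⌊w * J⌋₊ ω' → kc ω = kc ω') →
    CH (Pool.Agent.H49.Ent.cond F.p A True) kc (xg F A c D w n nt H) ≤ e * J →
    (∀ ω ω', A ω → A ω' → elN F A c D w n nt H kc ω = elN F A c D w n nt H kc ω' → 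
      ∀ τ ∈ Set.Icc (0 : ℝ) 1, |(grP F c D₂ ⌊w * J⌋₊ H Hr (slam F ⌊w * J⌋₊ ω) 2).eval τ -
        (grP F c D₂ ⌊w * J⌋₊ H Hr (slam F ⌊w * J⌋₊ ω') 2).eval τ| ≤ δg) →
    0 ≤ δg → ∀ {δn : ℕ → ℝ} {η η' : ℝ},
    OwnE F A c D D₂ w t H Hr δn (3 / 2 ^ (nt * J)) η η' →
    (∀ l < 2, ((D : ℝ) + 2) / 2 ^ (n l * J) ≤ δn l) → ((D : ℝ) + 3) / 2 ^ (n 2 * J) ≤ δn 2 →
    0 < η' → ∀ {Bn Bc : ℝ}, (∀ ω, A ω → ∀ τ ∈ Set.Icc (0 : ℝ) 1,
      |(opl F c ⌊w * J⌋₊ H 3 ω).eval τ| ≤ Bn ∧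
      |(grP F c D₂ ⌊w * J⌋₊ H Hr (slam F ⌊w * J⌋₊ ω) 2).eval τ| ≤ Bc) →
    -- the rows
    ∀ (B : F.Ω → Prop) (S : ℕ → _ × ℤ → Finset ℤ) (nr Xd Ks : ℕ) (N a b : ℕ → ℕ) (V : ℕ → ℝ)
      (K c₀ c₁ ρ : ℝ),
    (∀ k < nr, ∀ ω, A ω → B ω → ⌊2 ^ Xd * (opl F c ⌊w * J⌋₊ H 3 ω).eval 0⌋ / 2 ^ a k ∈
      S k (xg F A c D w n nt H ω, ⌊2 ^ Xd * (opl F c ⌊w * J⌋₊ H 3 ω).eval 0⌋ / 2 ^ b k)) →
    (∀ k < nr, ∀ y, (S k y).card ≤ N k) →
    Pb (Pool.Agent.H49.Ent.cond F.p A True) (fun ω => ¬ B ω) ≤ c₀ → 1 ≤ Ks →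
    Pb (Pool.K2S.cpn (Pool.Agent.H49.Ent.cond F.p A True) (zrF F A c D w t n nt H) (2 * D + 1))
      (fun v => ∃ i i', i ≠ i' ∧
        |pcC F c D w H 2 0 (n 2) (v i) 0 - pcC F c D w H 2 0 (n 2) (v i') 0| ≤ (Ks : ℤ)) ≤ c₁ →
    ∀ {Lb Qb η₁ η₂ : ℝ}, Lb = ((3 / 2 ^ (nt * J)) / (Ks / 2 ^ (n 2 * J))) ^ (D - 1) →
      Qb = Lb * (3 / 2 ^ (nt * J)) → η₁ = 2 * η + D * Qb * η' →
      η₂ = D * Qb * δg + (D + 1) / 2 ^ (n 3 * J) →
    0 < ρ → ρ < 1 → (C : ℝ) ≤ ρ ^ C * ((2 ^ (J - ⌊w * J⌋₊ - 1) : ℕ) : ℝ) → 0 ≤ K →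
    2 ^ Xd * (η₁ + η₂) + 1 ≤ K → 2 ^ Xd * (2 * ((3 * Bn + D * Qb * Bc) + η₂)) ≤ V nr →
    (∀ k < nr, a k ≤ b k ∧ K ≤ 2 ^ a k ∧ 0 < V k ∧ V (k + 1) ≤ 2 ^ b k ∧
      (C : ℝ) * N k * 2 ^ a k ≤ ρ ^ C * V k ∧
      (C : ℝ) * N k ≤ ρ ^ C * ((2 ^ (J - ⌊w * J⌋₊ - 1) : ℕ) : ℝ)) →
    Pb (Pool.K2S.cpn (Pool.Agent.H49.Ent.cond F.p A True) (zrF F A c D w t n nt H) (2 * D + 1))
      (fun v => ¬ ((∀ i i', i ≠ i' →
        Ks / 2 ^ (n 2 * J) ≤ |hh F c D w (n 2) H (v i) - hh F c D w (n 2) H (v i')| ∧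
          |hh F c D w (n 2) H (v i) - hh F c D w (n 2) H (v i')| ≤ 3 / 2 ^ (nt * J)) ∧
      (∀ i, ∀ τ ∈ Set.Icc (0 : ℝ) 1, |(opl F c ⌊w * J⌋₊ H 3 (v i)).eval τ -
        (opl F c ⌊w * J⌋₊ H 3 (v 0)).eval τ - ∑ k : Fin D,
        (Pool.NDD66.Qk (fun k => hh F c D w (n 2) H (v (ai k)))
          (hh F c D w (n 2) H (v 0)) k).eval (hh F c D w (n 2) H (v i)) *
          (grP F c D₂ ⌊w * J⌋₊ H Hr (slam F ⌊w * J⌋₊ (v (ai k))) 2).eval τ| ≤
        (2 * K + 2 * V 0) / 2 ^ Xd + η₂) ∧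
      ∀ τ ∈ Set.Icc (0 : ℝ) 1, |(grP F c D₂ ⌊w * J⌋₊ H Hr (slam F ⌊w * J⌋₊ (v 0)) 2).eval τ -
        ∑ k : Fin D, (Lagrange.basis Finset.univ (fun k : Fin D => hh F c D w (n 2) H (v (ai k)))
          k).eval (hh F c D w (n 2) H (v 0)) *
          (grP F c D₂ ⌊w * J⌋₊ H Hr (slam F ⌊w * J⌋₊ (v (ai k))) 2).eval τ| ≤
        C / ρ ^ C * ((1 + D * Lb) * η' + D * Lb * δg))) ≤
      (2 * D + 2) * (c₀ + 3 * c₁ + nr * (((e * J + 2 * Real.log 2) +
        ((2 * D + 1 : ℕ) : ℝ) * (4 * (e * J)) + Real.log 2) / Real.log (1 / ρ))) +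
      (3 * c₁ + ((e * J + 2 * Real.log 2) + ((2 * D + 1 : ℕ) : ℝ) * (4 * (e * J)) +
        Real.log 2) / Real.log (1 / ρ)) := by
  classical
  obtain ⟨C₁, hC₁, htup⟩ := lvl_tup D (D + 4 * D₂ + 1)
  obtain ⟨C₂, hC₂, hslp⟩ := slp_tup D (D + 4 * D₂ + 1)
  refine ⟨C₁ + C₂, by omega, ?_⟩
  intro m J F A hA c w t n nt e H Hr hfu hxx hhn htm hW hnt hdH Kc kc δg hk1 hk2 hk3 hδ δn η η'
    hOwn hδn hδn2 hη' Bn Bc hBd B S nr Xd Ks N a b V K c₀ c₁ ρ hrow hcard hB hKs hsp Lb Qb η₁ η₂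
    hLb hQb hη₁ hη₂ hρ hρ1 hCM hK0 hK hV hnum
  obtain ⟨p, hpe⟩ : ∃ p, p = Pool.Agent.H49.Ent.cond F.p A True := ⟨_, rfl⟩
  have hp : IsLaw p := by rw [hpe]; exact isLaw_cond F.isLaw hA
  have p0 := hp.nonneg
  have hpA : ∀ ω, 0 < p ω → A ω := fun ω hω => by
    rw [hpe] at hω
    exact cond_A hω
  have hn2 : (0 : ℝ) < 2 ^ (n 2 * J) := Real.rpow_pos_of_pos (by norm_num) _
  have hnt' : (0 : ℝ) < 2 ^ (nt * J) := Real.rpow_pos_of_pos (by norm_num) _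
  have hKs0 : (0 : ℝ) < Ks := by exact_mod_cast hKs
  obtain ⟨Mt, hMt⟩ : ∃ Mt : ℕ, Mt = 2 ^ (J - ⌊w * J⌋₊ - 1) := ⟨_, rfl⟩
  have hMt1 : 1 ≤ Mt := by rw [hMt]; exact Nat.one_le_two_pow
  have hMt1' : (1 : ℝ) ≤ Mt := by exact_mod_cast hMt1
  have hfull := par_full hA hfu hxx hhn kc hk1 hk2 (ttw F ⌊w * J⌋₊) (2 * D + 1)
  have e7 : Real.log (2 * ((2 ^ (J - ⌊w * J⌋₊ - 1) : ℕ) : ℝ) + 1) - (e * J + 2 * Real.log 2) ≤
      CH p (ttw F ⌊w * J⌋₊) (slam F ⌊w * J⌋₊) := by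
    rw [hpe]
    exact ttw_full F hA hW htm
  rw [← hpe] at hfull hsp hB ⊢
  rw [← hMt] at hCM hnum e7
  obtain ⟨Q, hQ⟩ : ∃ Q, Q = Pool.K2S.cpn p (zrF F A c D w t n nt H) (2 * D + 1) := ⟨_, rfl⟩
  have hQl : IsLaw Q := by rw [hQ]; exact cpn_law hp _ _
  have Q0 := hQl.nonneg
  have hpos : ∀ v, 0 < Q v → (∀ i, 0 < p (v i)) ∧
      ∀ i, zrF F A c D w t n nt H (v i) = zrF F A c D w t n nt H (v 0) := by
    intro v hv
    rw [hQ] at hv
    exact cpn_pos p0 _ _ v hv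
  have hρC : 0 < ρ ^ (C₁ + C₂) := pow_pos hρ _
  have hmono : ∀ (c' : ℕ) (X Y : ℝ), c' ≤ C₁ + C₂ → 0 ≤ X → 0 ≤ Y →
      ((C₁ + C₂ : ℕ) : ℝ) * Y ≤ ρ ^ (C₁ + C₂) * X → (c' : ℝ) * Y ≤ ρ ^ c' * X := by
    intro c' X Y hc hX hY h
    have h1 : (c' : ℝ) ≤ ((C₁ + C₂ : ℕ) : ℝ) := by exact_mod_cast hc
    have h2 : ρ ^ (C₁ + C₂) ≤ ρ ^ c' := pow_le_pow_of_le_one hρ.le hρ1.le hc
    calc (c' : ℝ) * Y ≤ ((C₁ + C₂ : ℕ) : ℝ) * Y := mul_le_mul_of_nonneg_right h1 hY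
      _ ≤ ρ ^ (C₁ + C₂) * X := h
      _ ≤ ρ ^ c' * X := mul_le_mul_of_nonneg_right h2 hX
  have hM0 : (0 : ℝ) ≤ Mt := by linarith
  have hCM1 : (C₁ : ℝ) ≤ ρ ^ C₁ * (2 * Mt + 1) := by
    have h1 := hmono C₁ Mt 1 (by omega) hM0 zero_le_one (by rw [mul_one]; exact hCM)
    rw [mul_one] at h1
    have h2 : 0 < ρ ^ C₁ := pow_pos hρ _
    have h3 : ρ ^ C₁ * Mt ≤ ρ ^ C₁ * (2 * Mt + 1) := mul_le_mul_of_nonneg_left (by linarith) h2.le
    linarith
  have hCM2 : (C₂ : ℝ) ≤ ρ ^ C₂ * Mt := by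
    have h1 := hmono C₂ Mt 1 (by omega) hM0 zero_le_one (by rw [mul_one]; exact hCM)
    rwa [mul_one] at h1
  -- the own time relation
  have hrt : ∀ v, 0 < Q v → ∀ i, rt F ⌊w * J⌋₊ (v i) = rt F ⌊w * J⌋₊ (v 0) := fun v hv i =>
    Pool.NDD66.rt_congr (congrArg (fun z => z.1.2.1) ((hpos v hv).2 i))
  have htu : ∀ ω, tu Mt (ttw F ⌊w * J⌋₊ ω) = rt F ⌊w * J⌋₊ ω := fun ω => by
    rw [hMt]
    exact tu_ttw F hW ω
  have hcod : ∀ v, 0 < Q v → (¬ ∃ i i', i ≠ i' ∧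
      |pcC F c D w H 2 0 (n 2) (v i) 0 - pcC F c D w H 2 0 (n 2) (v i') 0| ≤ (Ks : ℤ)) →
      (∀ i i', i ≠ i' →
        Ks / 2 ^ (n 2 * J) ≤ |hh F c D w (n 2) H (v i) - hh F c D w (n 2) H (v i')| ∧
          |hh F c D w (n 2) H (v i) - hh F c D w (n 2) H (v i')| ≤ 3 / 2 ^ (nt * J)) ∧
      ∃ Qp : Polynomial ℝ, Qp.natDegree ≤ D ∧
        (∀ i, |(opl F c ⌊w * J⌋₊ H 3 (v i)).eval (rt F ⌊w * J⌋₊ (v 0)) -
          Qp.eval (hh F c D w (n 2) H (v i))| ≤ η) ∧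
        ∀ i, |(grP F c D₂ ⌊w * J⌋₊ H Hr (slam F ⌊w * J⌋₊ (v i)) 2).eval (rt F ⌊w * J⌋₊ (v 0)) -
          (Polynomial.derivative Qp).eval (hh F c D w (n 2) H (v i))| ≤ η' := by
    intro v hv hne
    push Not at hne
    obtain ⟨h1, h2⟩ := hpos v hv
    have hx0 : ∀ i i', x0 F A c D w n nt H (v i) = x0 F A c D w n nt H (v i') :=
      fun i i' => (congrArg (fun z => z.2) (h2 i)).trans (congrArg (fun z => z.2) (h2 i')).symm
    have hle : ∀ i i', |hh F c D w (n 2) H (v i) - hh F c D w (n 2) H (v i')| ≤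
        3 / 2 ^ (nt * J) := fun i i' => hLc_coarse hnt (congrArg (fun z => z.2.2.2) (hx0 i i'))
    refine ⟨fun i i' hii => ⟨?_, hle i i'⟩, ?_⟩
    · have h6 := hne i i' hii
      unfold hh hLc
      rw [← sub_div, abs_div, abs_of_pos hn2]
      refine div_le_div_of_nonneg_right ?_ hn2.le
      have h7 : ((Ks : ℤ) : ℝ) ≤ ((|pcC F c D w H 2 0 (n 2) (v i) 0 -
        pcC F c D w H 2 0 (n 2) (v i') 0| : ℤ) : ℝ) := by exact_mod_cast h6.le
      push_cast at h7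
      exact h7
    · obtain ⟨Qp, hQd, hQ1, hQ2⟩ := hOwn (0 : Fin (2 * D + 1 + 1)) (fun i => v i)
        (fun i => hh F c D w (n 2) H (v i)) (fun i => hpA _ (h1 i))
        (fun i => congrArg (fun z => z.1.2.1) (h2 i))
        (fun i => congrArg (fun z => z.1.1) (hx0 i 0))
        (fun i => congrArg (fun z => z.1.1) (h2 i))
        (fun i l hl => by
          have h6 : pcC F c D w H l 0 (n l) (v i) = pcC F c D w H l 0 (n l) (v 0) :=
            congrFun (congrArg (fun z => z.2.1) (hx0 i 0)) ⟨l, hl⟩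
          have hm := rt_mem F ⌊w * J⌋₊ (v i)
          have h7 := pc_near hdH h6 (τ := rt F ⌊w * J⌋₊ (v i)) ⟨hm.1, hm.2⟩
          rw [← hrt v hv i]
          exact h7.trans (hδn l hl))
        (fun i => (hgt_par hdH (congrArg (fun z => z.2.2.1) (hx0 i 0)) (hrt v hv i)).trans hδn2)
        (fun i => hle i 0)
      refine ⟨Qp, hQd, fun i => ?_, fun i => ?_⟩
      · have := hQ1 i
        rwa [hrt v hv i] at this
      · have := hQ2 i
        rwa [hrt v hv i] at this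
  have hLb0 : 0 ≤ Lb := by rw [hLb]; positivity
  have hQb0 : 0 ≤ Qb := by rw [hQb]; positivity
  have hQbe : Qb = ((3 / 2 ^ (nt * J)) / (Ks / 2 ^ (n 2 * J))) ^ (D - 1) *
      (3 / 2 ^ (nt * J)) := by rw [hQb, hLb]
  obtain ⟨e', he'⟩ : ∃ e', e' = (e * J + 2 * Real.log 2) +
      ((2 * D + 1 : ℕ) : ℝ) * (4 * (e * J)) := ⟨_, rfl⟩
  have hfull2 : Real.log (2 * Mt + 1) - e' ≤
      CH Q (fun v => ttw F ⌊w * J⌋₊ (v 0))
        (fun v => (slam F ⌊w * J⌋₊ (v 0), fun i => elN F A c D w n nt H kc (v i))) := by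
    rw [he', hQ]
    linarith
  have hlog : 0 < Real.log (1 / ρ) := Real.log_pos (by rw [lt_div_iff₀ hρ]; linarith)
  -- the levels
  have main := htup F.Ω (LnT F) _ _ _ p (zrF F A c D w t n nt H) (slam F ⌊w * J⌋₊)
    (elN F A c D w n nt H kc) (fun el => el.1) (ttw F ⌊w * J⌋₊)
    (fun s => op ⌊w * J⌋₊ c (H s) s 3) (fun s => grP F c D₂ ⌊w * J⌋₊ H Hr s 2)
    (fun el => hLc J (n 2) (el.1.1.2 0)) B S nr Mt Xd N a b V K
    e' c₀ c₁ ρ ((D + 1) / 2 ^ (n 3 * J)) δg η₁ (Ks / 2 ^ (n 2 * J))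
    (3 / 2 ^ (nt * J)) Bn Bc Qb hp hMt1 hρ hρ1 hCM1
    (fun ω _ => by
      rw [hMt]
      exact ttw_le F hW ω) (by
      rw [← hQ]
      exact hfull2)
    (fun s => (op_deg ⌊w * J⌋₊ c (hdH s) s 3).trans (by omega))
    (fun s => (grP_deg F c D₂ ⌊w * J⌋₊ H Hr s 2).trans (by omega))
    (by positivity) hδ hK0 (by positivity) (by positivity) hQbe
    (fun ω ω' hω hω' h τ hτ => by
      refine ⟨?_, hk3 ω ω' (hpA ω hω) (hpA ω' hω') h τ hτ⟩
      have h3 : pcC F c D w H 3 1 (n 3) ω = pcC F c D w H 3 1 (n 3) ω' :=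
        congrArg (fun z => z.1.2) h
      have h4 := pc_near1 hdH h3 hτ
      have h5 : ∀ o : F.Ω, (op ⌊w * J⌋₊ c (H (slam F ⌊w * J⌋₊ o)) (slam F ⌊w * J⌋₊ o) 3).eval 0 =
          (opl F c ⌊w * J⌋₊ H 3 o).coeff 0 := fun o =>
        (Polynomial.coeff_zero_eq_eval_zero _).symm
      rw [h5, h5]
      exact h4)
    (by
      rw [← hQ]
      refine (Pool.XLF.Pb_le Q0 fun v hv hnot => ?_).trans (by rw [hQ]; exact hsp)
      by_contra hne
      obtain ⟨hsep, Qp, hQd, hQ1, hQ2⟩ := hcod v hv hne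
      apply hnot
      refine ⟨hsep, fun i τ hτ => hBd _ (hpA _ ((hpos v hv).1 i)) τ hτ, fun i => ?_⟩
      have h6 := own_quad (h := fun i => hh F c D w (n 2) H (v i)) hQd
        (by positivity : (0 : ℝ) < Ks / 2 ^ (n 2 * J)) (by positivity) hQbe hη'.le hsep hQ1 hQ2 i
      rw [htu, hη₁]
      exact h6)
    (fun k hk ω hω hBω => hrow k hk ω (hpA ω hω) hBω) hcard hB
    (by rw [← hη₂]; exact hK) (by rw [← hη₂]; exact hV)
    (fun k hk => by
      obtain ⟨z1, z2, z3, z4, z5, z6⟩ := hnum k hk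
      refine ⟨z1, z2, z3, z4, ?_, ?_⟩
      · have h1 := hmono C₁ (V k) (N k * 2 ^ a k) (by omega) z3.le (by positivity) (by
          rw [← mul_assoc]
          exact z5)
        rw [← mul_assoc] at h1
        exact h1
      · exact hmono C₁ Mt (N k) (by omega) hM0 (Nat.cast_nonneg _) z6)
  -- the slopes
  have hdl : 0 ≤ D * Lb := by positivity
  have hsl := hslp F.Ω (LnT F) _ _ p (zrF F A c D w t n nt H) (slam F ⌊w * J⌋₊)
    (elN F A c D w n nt H kc) (ttw F ⌊w * J⌋₊) (fun s => grP F c D₂ ⌊w * J⌋₊ H Hr s 2)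
    (fun el => hLc J (n 2) (el.1.1.2 0)) Mt e' c₁ ρ δg ((1 + D * Lb) * η')
    (Ks / 2 ^ (n 2 * J)) (3 / 2 ^ (nt * J)) Lb hp hMt1 hρ hρ1 hCM2
    (fun ω _ => by
      rw [hMt]
      exact ttw_le F hW ω) (by
      rw [← hQ]
      exact hfull2)
    (fun s => (grP_deg F c D₂ ⌊w * J⌋₊ H Hr s 2).trans (by omega)) hδ
    (mul_pos (by linarith) hη') (by positivity) (by positivity) hLb
    (fun ω ω' hω hω' h τ hτ => hk3 ω ω' (hpA ω hω) (hpA ω' hω') h τ hτ) (by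
      rw [← hQ]
      refine (Pool.XLF.Pb_le Q0 fun v hv hnot => ?_).trans (by rw [hQ]; exact hsp)
      by_contra hne
      obtain ⟨hsep, Qp, hQd, hQ1, hQ2⟩ := hcod v hv hne
      apply hnot
      refine ⟨hsep, ?_⟩
      rw [htu]
      -- the derivative from its values at the nodes
      have hle : ∀ i i', |hh F c D w (n 2) H (v i) - hh F c D w (n 2) H (v i')| ≤
          3 / 2 ^ (nt * J) := by
        intro i i'
        by_cases hij : i = i'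
        · rw [hij, sub_self, abs_zero]
          positivity
        · exact (hsep i i' hij).2
      have hinj : Function.Injective (fun k : Fin D => hh F c D w (n 2) H (v (ai k))) := by
        intro k k' hkk
        by_contra hne'
        have h3 := (hsep (ai k) (ai k') fun h' => hne' (ai_inj h')).1
        have h4 : hh F c D w (n 2) H (v (ai k)) = hh F c D w (n 2) H (v (ai k')) := hkk
        rw [h4, sub_self, abs_zero] at h3
        have : (0 : ℝ) < Ks / 2 ^ (n 2 * J) := by positivity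
        linarith
      have hint : (Polynomial.derivative Qp).eval (hh F c D w (n 2) H (v 0)) =
          ∑ k : Fin D, (Lagrange.basis Finset.univ
            (fun k : Fin D => hh F c D w (n 2) H (v (ai k))) k).eval
              (hh F c D w (n 2) H (v 0)) *
              (Polynomial.derivative Qp).eval (hh F c D w (n 2) H (v (ai k))) := by
        have hdeg : (Polynomial.derivative Qp).degree <
            ((Finset.univ : Finset (Fin D)).card : WithBot ℕ) := by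
          rw [Finset.card_univ, Fintype.card_fin]
          by_cases h0 : Qp = 0
          · rw [h0, Polynomial.derivative_zero, Polynomial.degree_zero]
            exact WithBot.bot_lt_coe _
          · exact (Polynomial.degree_derivative_lt h0).trans_le
              (Polynomial.degree_le_of_natDegree_le hQd)
        have h1 := Lagrange.eq_interpolate (s := (Finset.univ : Finset (Fin D)))
          (v := fun k : Fin D => hh F c D w (n 2) H (v (ai k))) (hinj.injOn) hdeg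
        rw [Lagrange.interpolate_apply] at h1
        conv_lhs => rw [h1]
        rw [Polynomial.eval_finsetSum]
        refine Finset.sum_congr rfl fun k _ => ?_
        rw [Polynomial.eval_mul, Polynomial.eval_C, mul_comm]
      have hb : ∀ k : Fin D, |(Lagrange.basis Finset.univ
            (fun k : Fin D => hh F c D w (n 2) H (v (ai k))) k).eval
              (hh F c D w (n 2) H (v 0))| ≤ Lb := fun k => by
        rw [hLb]
        exact Pool.NDD66.bas_le (by positivity)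
          (fun i j hij => (hsep _ _ fun h => hij (ai_inj h)).1) (fun j => hle _ _) k
      have e1 : (grP F c D₂ ⌊w * J⌋₊ H Hr (slam F ⌊w * J⌋₊ (v 0)) 2).eval
            (rt F ⌊w * J⌋₊ (v 0)) - ∑ k : Fin D, (Lagrange.basis Finset.univ
            (fun k : Fin D => hh F c D w (n 2) H (v (ai k))) k).eval
              (hh F c D w (n 2) H (v 0)) *
          (grP F c D₂ ⌊w * J⌋₊ H Hr (slam F ⌊w * J⌋₊ (v (ai k))) 2).eval
            (rt F ⌊w * J⌋₊ (v 0)) =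
          ((grP F c D₂ ⌊w * J⌋₊ H Hr (slam F ⌊w * J⌋₊ (v 0)) 2).eval (rt F ⌊w * J⌋₊ (v 0)) -
            (Polynomial.derivative Qp).eval (hh F c D w (n 2) H (v 0))) -
          ∑ k : Fin D, (Lagrange.basis Finset.univ
            (fun k : Fin D => hh F c D w (n 2) H (v (ai k))) k).eval
              (hh F c D w (n 2) H (v 0)) *
            ((grP F c D₂ ⌊w * J⌋₊ H Hr (slam F ⌊w * J⌋₊ (v (ai k))) 2).eval
              (rt F ⌊w * J⌋₊ (v 0)) -
              (Polynomial.derivative Qp).eval (hh F c D w (n 2) H (v (ai k)))) := by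
        rw [hint]
        have e2 : ∀ f g h' : Fin D → ℝ, ∑ k, f k * (g k - h' k) =
            ∑ k, f k * g k - ∑ k, f k * h' k := fun f g h' => by
          rw [← Finset.sum_sub_distrib]
          exact Finset.sum_congr rfl fun k _ => by ring
        rw [e2]
        ring
      show |(grP F c D₂ ⌊w * J⌋₊ H Hr (slam F ⌊w * J⌋₊ (v 0)) 2).eval
            (rt F ⌊w * J⌋₊ (v 0)) - ∑ k : Fin D, (Lagrange.basis Finset.univ
            (fun k : Fin D => hh F c D w (n 2) H (v (ai k))) k).eval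
              (hh F c D w (n 2) H (v 0)) *
          (grP F c D₂ ⌊w * J⌋₊ H Hr (slam F ⌊w * J⌋₊ (v (ai k))) 2).eval
            (rt F ⌊w * J⌋₊ (v 0))| ≤ _
      rw [e1]
      refine (abs_sub _ _).trans ?_
      have h3 : |∑ k : Fin D, (Lagrange.basis Finset.univ
            (fun k : Fin D => hh F c D w (n 2) H (v (ai k))) k).eval
              (hh F c D w (n 2) H (v 0)) *
            ((grP F c D₂ ⌊w * J⌋₊ H Hr (slam F ⌊w * J⌋₊ (v (ai k))) 2).eval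
              (rt F ⌊w * J⌋₊ (v 0)) -
              (Polynomial.derivative Qp).eval (hh F c D w (n 2) H (v (ai k))))| ≤
          D * (Lb * η') := by
        refine (Finset.abs_sum_le_sum_abs _ _).trans ?_
        refine (Finset.sum_le_sum (g := fun _ => Lb * η') fun k _ => ?_).trans (le_of_eq ?_)
        · rw [abs_mul]
          exact mul_le_mul (hb k) (hQ2 _) (abs_nonneg _) hLb0
        · rw [Finset.sum_const, Finset.card_univ, Fintype.card_fin, nsmul_eq_mul]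
      have h4 := hQ2 0
      have h5 : (1 + (D : ℝ) * Lb) * η' = η' + D * (Lb * η') := by ring
      rw [h5]
      linarith)
  -- the end
  rw [← hQ, ← hη₂] at main
  rw [← hQ] at hsl
  rw [← hQ, ← he']
  refine le_trans (Pb_mono Q0 ?_) ((Pb_or Q0 _ _).trans (add_le_add main hsl))
  intro v _ h
  by_contra hcon
  rw [not_or, not_not, not_not] at hcon
  obtain ⟨k1, k2⟩ := hcon
  apply h
  refine ⟨k1.1, fun i τ hτ => k1.2 i τ hτ, fun τ hτ => (k2.2 τ hτ).trans ?_⟩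
  have hx : 0 ≤ (1 + D * Lb) * η' + D * Lb * δg :=
    add_nonneg (mul_nonneg (by linarith) hη'.le) (mul_nonneg hdl hδ)
  refine mul_le_mul_of_nonneg_right ?_ hx
  have h1 : (C₂ : ℝ) ≤ ((C₁ + C₂ : ℕ) : ℝ) := by exact_mod_cast (by omega : C₂ ≤ C₁ + C₂)
  have h2 : ρ ^ (C₁ + C₂) ≤ ρ ^ C₂ := pow_le_pow_of_le_one hρ.le hρ1.le (by omega)
  exact div_le_div₀ (Nat.cast_nonneg _) h1 hρC h2

end Pool.SL77
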