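import Pool.Agent.H77.SL.Ins
import Pool.Agent.H77.SL.Pex

/-!
# The parallel lines give the relation `ParR`

`cpl_one`, `cpl_two`: codes with the same higher orders. `ext4`: bounds beyond the unit interval.
`Qk_scale`: the weights in another unit. `parR_of`: the relation `ParR` of the record `slF`.
-/

set_option autoImplicit false

namespace Pool.SL77

open Finset Polynomial

theorem cpl_eval0 {d : ℕ} (σ : ℝ) (a : Fin (d + 1) → ℤ) : (cpl σ a).eval 0 = (a 0 : ℝ) / σ := by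
  rw [← coeff_zero_eq_eval_zero]
  exact cpl_coeff σ a 0

/-- Codes with the same orders `≥ 1`. -/
theorem cpl_one {d : ℕ} {σ : ℝ} {a b : Fin (d + 1) → ℤ}
    (h : ∀ i : Fin (d + 1), 1 ≤ (i : ℕ) → a i = b i) :
    derivative (cpl σ a - cpl σ b) = 0 := by
  have h1 : cpl σ a - cpl σ b = C (((a 0 : ℝ) - b 0) / σ) := by
    ext i
    rw [coeff_sub, coeff_C]
    by_cases hi : i < d + 1
    · have e1 := cpl_coeff σ a ⟨i, hi⟩
      have e2 := cpl_coeff σ b ⟨i, hi⟩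
      simp only at e1 e2
      rw [e1, e2]
      by_cases h0 : i = 0
      · subst h0
        rw [if_pos rfl, ← sub_div]
        rfl
      · rw [if_neg h0, h ⟨i, hi⟩ (by simp only; omega), sub_self]
    · rw [coeff_eq_zero_of_natDegree_lt ((cpl_deg σ a).trans_lt (by omega)),
        coeff_eq_zero_of_natDegree_lt ((cpl_deg σ b).trans_lt (by omega)), sub_self, if_neg (by omega)]
  rw [h1, derivative_C]

/-- Codes with the same orders `≥ 2`. -/
theorem cpl_two {d : ℕ} {σ : ℝ} {a b : Fin (d + 1) → ℤ}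
    (h : ∀ i : Fin (d + 1), 2 ≤ (i : ℕ) → a i = b i) :
    derivative (derivative (cpl σ a - cpl σ b)) = 0 := by
  ext i
  rw [coeff_derivative, coeff_derivative, coeff_zero, coeff_sub]
  by_cases hi : i + 1 + 1 < d + 1
  · have e1 := cpl_coeff σ a ⟨i + 1 + 1, hi⟩
    have e2 := cpl_coeff σ b ⟨i + 1 + 1, hi⟩
    simp only at e1 e2
    rw [e1, e2, h ⟨i + 1 + 1, hi⟩ (by simp only; omega), sub_self, zero_mul, zero_mul]
  · rw [coeff_eq_zero_of_natDegree_lt ((cpl_deg σ a).trans_lt (by omega)),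
      coeff_eq_zero_of_natDegree_lt ((cpl_deg σ b).trans_lt (by omega)), sub_self, zero_mul,
      zero_mul]

/-- **Bounds beyond the unit interval.** -/
theorem ext4 (d : ℕ) : ∃ C : ℝ, 1 ≤ C ∧ ∀ (P : ℝ[X]) (S : ℝ), P.natDegree ≤ d →
    (∀ τ ∈ Set.Icc (0 : ℝ) 1, |P.eval τ| ≤ S) → ∀ s : ℝ, |s| ≤ 4 →
      |P.eval s| ≤ C * S ∧ |(derivative P).eval s| ≤ C * S := by
  obtain ⟨C, hC, hm⟩ := mkv d
  refine ⟨C * C, one_le_mul_of_one_le_of_one_le hC hC, ?_⟩
  intro P S hP hS s hs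
  have hS0 : 0 ≤ S := (abs_nonneg _).trans (hS 0 ⟨le_rfl, zero_le_one⟩)
  have h1 : ∀ s : ℝ, |s - 1 / 2| ≤ 3 / 2 → |P.eval s| ≤ C * S := fun s hs => by
    refine (hm P (1 / 2) (1 / 2) S hP (by norm_num) (fun τ hτ => hS τ ?_) s
      (by linarith)).1
    rw [abs_le] at hτ
    constructor <;> linarith [hτ.1, hτ.2]
  have h2 := hm P (1 / 2) (3 / 2) (C * S) hP (by norm_num) h1 s (by
    rw [abs_le] at hs ⊢
    constructor <;> linarith [hs.1, hs.2])
  have h0 : 0 ≤ C * (C * S) := mul_nonneg (by linarith) (mul_nonneg (by linarith) hS0)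
  refine ⟨?_, ?_⟩
  · rw [mul_assoc]
    exact h2.1
  · rw [mul_assoc]
    refine h2.2.trans ?_
    rw [div_le_iff₀ (by norm_num)]
    linarith

/-- The Lagrange basis in another unit. -/
theorem bas_scale {D : ℕ} (y : Fin D → ℝ) {G : ℝ} (hG : G ≠ 0) (k : Fin D) (x : ℝ) :
    (Lagrange.basis Finset.univ (fun j => G * y j) k).eval (G * x) =
      (Lagrange.basis Finset.univ y k).eval x := by
  unfold Lagrange.basis
  rw [eval_prod, eval_prod]
  refine Finset.prod_congr rfl fun j _ => ?_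
  unfold Lagrange.basisDivisor
  simp only [eval_mul, eval_C, eval_sub, eval_X]
  rw [← mul_sub, ← mul_sub, mul_inv]
  have : G⁻¹ * (y k - y j)⁻¹ * (G * (x - y j)) = (G⁻¹ * G) * ((y k - y j)⁻¹ * (x - y j)) := by
    ring
  rw [this, inv_mul_cancel₀ hG, one_mul]

/-- **The weights in another unit.** -/
theorem Qk_scale {D : ℕ} (y : Fin D → ℝ) (x₀ : ℝ) {G : ℝ} (hG : G ≠ 0) (k : Fin D) (x : ℝ) :
    (Pool.NDD66.Qk (fun j => G * y j) (G * x₀) k).eval (G * x) =
      G * (Pool.NDD66.Qk y x₀ k).eval x := by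
  obtain ⟨P, hP⟩ : ∃ P : ℝ[X], P = (Pool.NDD66.Qk (fun j => G * y j) (G * x₀) k).comp
      (C G * X) - C G * Pool.NDD66.Qk y x₀ k := ⟨_, rfl⟩
  have hPe : ∀ z, P.eval z = (Pool.NDD66.Qk (fun j => G * y j) (G * x₀) k).eval (G * z) -
      G * (Pool.NDD66.Qk y x₀ k).eval z := fun z => by
    rw [hP]
    simp only [eval_sub, eval_comp, eval_mul, eval_C, eval_X]
  have hPd : derivative P = 0 := by
    rw [hP, derivative_sub, derivative_comp, derivative_C_mul, derivative_C_mul, derivative_X,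
      mul_one, Pool.NDD66.Qk_der, Pool.NDD66.Qk_der, sub_eq_zero]
    refine Polynomial.funext fun z => ?_
    simp only [eval_mul, eval_C, eval_comp, eval_X]
    rw [bas_scale y hG k z]
  have h1 := eval_const hPd x x₀
  rw [hPe, hPe, Pool.NDD66.Qk_zero, Pool.NDD66.Qk_zero] at h1
  linarith

open MvPolynomial (pderiv)
open Pool.Agent.H49.Ent Pool.Agent.H32.Dense Pool.STK Pool.KA Pool.KSAT Pool.PB
open Pool.S6C Pool.RCD Pool.LA91 Pool.OWN68 Pool.CHT
open Pool.GEN hiding Det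
open Pool.NDC42 (hgC pcC x0 xn xg rP LbW)
open Pool.PB.Trl (rt)
open Pool.ND54 (ai ai_inj hh hLc grP grP_deg opl)

section

variable {m J : ℕ}

/-- **The relation of a line with its parallel lines.** -/
theorem parR_of (D D₂ : ℕ) : ∃ Kc : ℝ, 1 ≤ Kc ∧ ∀ {m J : ℕ} {F : Fam m J}
    {c : ℕ → Fin m} {Xd M Ks : ℕ} {g w s nt : ℝ} {n : ℕ → ℝ}
    {H Hr : LnT F → ℕ → MvPolynomial (Option (Fin m)) ℝ} {ξ : Type}
    {le : LnT F → ξ × (Fin (D + 1 + 1) → ℤ)} {NR CR : ξ × (Fin (D + 1 + 1) → ℤ) → ℝ[X]}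
    {v : Fin (2 * D + 1 + 1) → F.Ω} {E1 E2 Bc δc S' s' Lb Lq Y : ℝ},
    (∀ s l, (H s l).totalDegree ≤ D) → (∀ e, (CR e).natDegree ≤ D + 4 * D₂ + 1) →
    (∀ i, (le (slam F ⌊w * J⌋₊ (v i))).2 = pcC F c D w H 2 0 (n 2) (v i)) →
    (∀ i, pcC F c D w H 2 1 (n 2) (v i) = pcC F c D w H 2 1 (n 2) (v 0)) →
    (∀ i, ∀ τ ∈ Set.Icc (0 : ℝ) 1, |(grP F c D₂ ⌊w * J⌋₊ H Hr (slam F ⌊w * J⌋₊ (v i)) 2).eval τ -
      (CR (le (slam F ⌊w * J⌋₊ (v i)))).eval τ| ≤ δc) →
    (∀ i, ∀ τ ∈ Set.Icc (0 : ℝ) 1,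
      |(grP F c D₂ ⌊w * J⌋₊ H Hr (slam F ⌊w * J⌋₊ (v i)) 2).eval τ| ≤ Bc) →
    1 ≤ Ks → s' = 2 ^ (g * J) * (Ks / 2 ^ (n 2 * J)) →
    S' = 2 + 2 ^ (g * J) * (3 / 2 ^ (nt * J)) → Lb = (S' / s') ^ (D - 1) →
    (∀ i i', i ≠ i' →
        Ks / 2 ^ (n 2 * J) ≤ |hh F c D w (n 2) H (v i) - hh F c D w (n 2) H (v i')| ∧
          |hh F c D w (n 2) H (v i) - hh F c D w (n 2) H (v i')| ≤ 3 / 2 ^ (nt * J)) →
    (∀ i, ∀ τ ∈ Set.Icc (0 : ℝ) 1, |(opl F c ⌊w * J⌋₊ H 3 (v i)).eval τ -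
        (opl F c ⌊w * J⌋₊ H 3 (v 0)).eval τ - ∑ k : Fin D,
        (Pool.NDD66.Qk (fun k => hh F c D w (n 2) H (v (ai k)))
          (hh F c D w (n 2) H (v 0)) k).eval (hh F c D w (n 2) H (v i)) *
          (grP F c D₂ ⌊w * J⌋₊ H Hr (slam F ⌊w * J⌋₊ (v (ai k))) 2).eval τ| ≤ E1) →
    (∀ τ ∈ Set.Icc (0 : ℝ) 1, |(grP F c D₂ ⌊w * J⌋₊ H Hr (slam F ⌊w * J⌋₊ (v 0)) 2).eval τ -
        ∑ k : Fin D, (Lagrange.basis Finset.univ (fun k : Fin D => hh F c D w (n 2) H (v (ai k)))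
          k).eval (hh F c D w (n 2) H (v 0)) *
          (grP F c D₂ ⌊w * J⌋₊ H Hr (slam F ⌊w * J⌋₊ (v (ai k))) 2).eval τ| ≤ E2) →
    0 ≤ δc → 0 ≤ Bc → Kc * Lb ≤ Lq → Kc * (2 ^ Xd / 2 ^ (g * J) * (Bc + δc)) ≤ Lq → 2 * Lb ≤ Y →
    ParR (slF F c D Xd g w s n M H (fun x => grP F c D₂ ⌊w * J⌋₊ H Hr x 2) le NR CR)
      (Kc * (2 ^ Xd * (E1 + D * (Lb * (3 / 2 ^ (nt * J)) * δc))))
      (Kc * (2 ^ Xd / 2 ^ (g * J) * (E2 + D * (Lb * δc)))) Lq Y v := by
  obtain ⟨K₁, hK₁, hext⟩ := ext4 (D + 4 * D₂ + 1)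
  obtain ⟨K₂, hK₂, hmk⟩ := mkv D
  refine ⟨K₁ + K₂, by linarith, ?_⟩
  intro m J F c Xd M Ks g w s nt n H Hr ξ le NR CR v E1 E2 Bc δc S' s' Lb Lq Y hdH hCR hle hf1
    hcr hBc hKs hs' hS' hLb hsep hrel hslp hδc hBc0 hLq1 hLq2 hY
  obtain ⟨G, hG⟩ : ∃ G : ℝ, G = 2 ^ (g * J) := ⟨_, rfl⟩
  have hG0 : 0 < G := by rw [hG]; exact Real.rpow_pos_of_pos (by norm_num) _
  have hn2 : (0 : ℝ) < 2 ^ (n 2 * J) := Real.rpow_pos_of_pos (by norm_num) _
  have hnt' : (0 : ℝ) < 2 ^ (nt * J) := Real.rpow_pos_of_pos (by norm_num) _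
  have hKs0 : (0 : ℝ) < Ks := by exact_mod_cast hKs
  have hX0 : (0 : ℝ) < 2 ^ Xd := by positivity
  obtain ⟨sg, hsg⟩ : ∃ sg : ℝ, sg = Ks / 2 ^ (n 2 * J) := ⟨_, rfl⟩
  obtain ⟨Sg, hSg⟩ : ∃ Sg : ℝ, Sg = 3 / 2 ^ (nt * J) := ⟨_, rfl⟩
  have hsg0 : 0 < sg := by rw [hsg]; positivity
  have hSg0 : 0 < Sg := by rw [hSg]; positivity
  rw [← hG, ← hsg] at hs'
  rw [← hG, ← hSg] at hS'
  rw [← hsg, ← hSg] at hsep
  rw [← hG] at hLq2 ⊢
  rw [← hSg]
  have hs'0 : 0 < s' := by rw [hs']; positivity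
  have hS'0 : 0 < S' := by rw [hS']; positivity
  have hLb0 : 0 ≤ Lb := by rw [hLb]; positivity
  obtain ⟨h, hh'⟩ : ∃ h : Fin (2 * D + 1 + 1) → ℝ, h = fun i => hh F c D w (n 2) H (v i) :=
    ⟨_, rfl⟩
  have hhe : ∀ i, hh F c D w (n 2) H (v i) = h i := fun i => by rw [hh']
  simp only [hhe] at hsep hrel hslp
  obtain ⟨X, hX⟩ : ∃ X : SlD F.Ω (LnT F) (ξ × (Fin (D + 1 + 1) → ℤ)) (2 * D) D,
      X = slF F c D Xd g w s n M H (fun x => grP F c D₂ ⌊w * J⌋₊ H Hr x 2) le NR CR := ⟨_, rfl⟩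
  rw [← hX]
  have hell : ∀ i, X.ell (v i) = le (slam F ⌊w * J⌋₊ (v i)) := fun i => by rw [hX]; rfl
  have huC : ∀ e, X.uC e = cpl (2 ^ ((n 2 - g) * J)) e.2 := fun e => by rw [hX]; rfl
  have hu0 : ∀ i, (X.uC (X.ell (v i))).eval 0 = G * h i := by
    intro i
    rw [huC, cpl_eval0, hell, hle, ← hhe]
    unfold hh hLc
    have e1 : (2 : ℝ) ^ ((n 2 - g) * J) = 2 ^ (n 2 * J) / G := by
      rw [hG, ← Real.rpow_sub (by norm_num)]
      congr 1
      ring
    rw [e1, div_div_eq_mul_div]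
    ring
  have hqk : ∀ k, X.qk (fun j => X.ell (v j.succ)) k =
      (Pool.NDD66.Qk (fun k => G * h (ai k)) (G * h (Fin.succ 0)) k).comp
        (Polynomial.X + C (G * h (Fin.succ 0))) := by
    intro k
    have e1 : X.qk (fun j => X.ell (v j.succ)) k = (Pool.NDD66.Qk (fun k =>
        (X.uC (X.ell (v (aj k).succ))).eval 0) ((X.uC (X.ell (v (Fin.succ 0)))).eval 0) k).comp
        (Polynomial.X + C ((X.uC (X.ell (v (Fin.succ 0)))).eval 0)) := by
      rw [hX]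
      rfl
    rw [e1, hu0]
    have e2 : (fun k : Fin D => (X.uC (X.ell (v (aj k).succ))).eval 0) =
        fun k => G * h (ai k) := funext fun k => by rw [aj_succ, hu0]
    rw [e2]
  have hck : ∀ k, X.ck (fun j => X.ell (v j.succ)) k =
      C (2 ^ Xd / G) * CR (le (slam F ⌊w * J⌋₊ (v (ai k)))) := by
    intro k
    have e1 : X.ck (fun j => X.ell (v j.succ)) k =
        C (2 ^ Xd / G) * CR (X.ell (v (aj k).succ)) := by
      rw [hX, hG]
      rfl
    rw [e1, aj_succ, hell]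
  have hle' : ∀ i i', |h i - h i'| ≤ Sg := by
    intro i i'
    by_cases hij : i = i'
    · rw [hij, sub_self, abs_zero]
      exact hSg0.le
    · exact (hsep i i' hij).2
  have hsep' : ∀ k k' : Fin D, k ≠ k' → s' ≤ |G * h (ai k) - G * h (ai k')| := by
    intro k k' hkk
    rw [← mul_sub, abs_mul, abs_of_pos hG0, hs']
    exact mul_le_mul_of_nonneg_left (hsep _ _ fun h' => hkk (ai_inj h')).1 hG0.le
  have hdist : ∀ (y r : ℝ) (i : Fin (2 * D + 1 + 1)), |y - G * h i| ≤ r → r ≤ 2 →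
      ∀ k : Fin D, |y - G * h (ai k)| ≤ S' := by
    intro y r i hy hr k
    have e1 : y - G * h (ai k) = (y - G * h i) + G * (h i - h (ai k)) := by ring
    rw [e1, hS']
    refine (abs_add_le _ _).trans (add_le_add (hy.trans hr) ?_)
    rw [abs_mul, abs_of_pos hG0]
    exact mul_le_mul_of_nonneg_left (hle' _ _) hG0.le
  have hbas : ∀ (y r : ℝ) (i : Fin (2 * D + 1 + 1)), |y - G * h i| ≤ r → r ≤ 2 → ∀ k : Fin D,
      |(Lagrange.basis Finset.univ (fun k : Fin D => G * h (ai k)) k).eval y| ≤ Lb := by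
    intro y r i hy hr k
    rw [hLb]
    exact Pool.NDD66.bas_le hs'0 hsep' (hdist y r i hy hr) k
  have hh0 : (X.uC (X.ell (v 0)) - X.uC (X.ell (v (Fin.succ 0)))).eval 0 =
      G * h 0 - G * h (Fin.succ 0) := by
    rw [eval_sub, hu0, hu0]
  have hdq : ∀ k (y : ℝ), (derivative (X.qk (fun j => X.ell (v j.succ)) k)).eval y =
      (Lagrange.basis Finset.univ (fun k : Fin D => G * h (ai k)) k).eval
        (y + G * h (Fin.succ 0)) := by
    intro k y
    rw [hqk, derivative_comp, Pool.NDD66.Qk_der, derivative_add, derivative_X, derivative_C,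
      add_zero, one_mul, eval_comp, eval_add, eval_X, eval_C]
  have hnL : ∀ i, X.nL (X.l (v i)) = C (2 ^ Xd) * opl F c ⌊w * J⌋₊ H 3 (v i) := fun i => by
    rw [hX]
    rfl
  have hcL : X.cL (X.l (v 0)) = C (2 ^ Xd / G) *
      grP F c D₂ ⌊w * J⌋₊ H Hr (slam F ⌊w * J⌋₊ (v 0)) 2 := by
    rw [hX, hG]
    rfl
  obtain ⟨cr, hcr'⟩ : ∃ cr : Fin D → ℝ[X], cr = fun k =>
      CR (le (slam F ⌊w * J⌋₊ (v (ai k)))) := ⟨_, rfl⟩
  have hcre : ∀ k, CR (le (slam F ⌊w * J⌋₊ (v (ai k)))) = cr k := fun k => by rw [hcr']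
  obtain ⟨cp, hcp⟩ : ∃ cp : Fin (2 * D + 1 + 1) → ℝ[X], cp = fun i =>
      grP F c D₂ ⌊w * J⌋₊ H Hr (slam F ⌊w * J⌋₊ (v i)) 2 := ⟨_, rfl⟩
  have hcpe : ∀ i, grP F c D₂ ⌊w * J⌋₊ H Hr (slam F ⌊w * J⌋₊ (v i)) 2 = cp i := fun i => by
    rw [hcp]
  obtain ⟨np, hnp⟩ : ∃ np : Fin (2 * D + 1 + 1) → ℝ[X], np = fun i =>
      opl F c ⌊w * J⌋₊ H 3 (v i) := ⟨_, rfl⟩
  have hnpe : ∀ i, opl F c ⌊w * J⌋₊ H 3 (v i) = np i := fun i => by rw [hnp]
  have hnd : ∀ i, (np i).natDegree ≤ D + 4 * D₂ + 1 := fun i => by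
    rw [← hnpe]
    exact (Pool.ND54.opl_deg F c _ hdH 3 (v i)).trans (by omega)
  have hcd : ∀ i, (cp i).natDegree ≤ D + 4 * D₂ + 1 := fun i => by
    rw [← hcpe]
    exact (grP_deg F c D₂ _ H Hr _ 2).trans (by omega)
  have hcrd : ∀ k, (cr k).natDegree ≤ D + 4 * D₂ + 1 := fun k => by
    rw [← hcre]
    exact hCR _
  have hcrn : ∀ (k : Fin D), ∀ τ ∈ Set.Icc (0 : ℝ) 1, |(cp (ai k)).eval τ - (cr k).eval τ| ≤
      δc := fun k τ hτ => by
    have := hcr (ai k) τ hτ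
    rwa [hcpe, hcre] at this
  simp only [hnpe, hcpe] at hrel hslp hBc hnL hcL
  simp only [hcre] at hck
  have hsum : ∀ (f : Fin D → ℝ) (Fb : ℝ), (∀ k, |f k| ≤ Fb) → ∀ τ ∈ Set.Icc (0 : ℝ) 1,
      |∑ k, f k * (cp (ai k)).eval τ - ∑ k, f k * (cr k).eval τ| ≤ D * (Fb * δc) := by
    intro f Fb hf τ hτ
    rw [← Finset.sum_sub_distrib]
    refine (Finset.abs_sum_le_sum_abs _ _).trans ?_
    refine (Finset.sum_le_sum (g := fun _ => Fb * δc) fun k _ => ?_).trans (le_of_eq ?_)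
    · rw [← mul_sub, abs_mul]
      exact mul_le_mul (hf k) (hcrn k τ hτ) (abs_nonneg _) ((abs_nonneg _).trans (hf k))
    · rw [Finset.sum_const, Finset.card_univ, Fintype.card_fin, nsmul_eq_mul]
  -- the weights at the height of the own line, raw unit
  have hQr : ∀ k : Fin D, |(Pool.NDD66.Qk (fun k => h (ai k)) (h (Fin.succ 0)) k).eval (h 0)| ≤
      Lb * Sg := by
    intro k
    refine (Pool.NDD66.Qk_le (D := D) (y := fun k => h (ai k)) (S := Sg) hsg0
      (fun k k' hkk => (hsep _ _ fun h' => hkk (ai_inj h')).1) (fun k => hle' _ _)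
      (fun k => hle' _ _) k).trans ?_
    refine mul_le_mul ?_ (hle' _ _) (abs_nonneg _) hLb0
    rw [hLb]
    refine pow_le_pow_left₀ (by positivity) ?_ _
    rw [hs', hS', div_le_div_iff₀ hsg0 (by positivity)]
    have : Sg * (G * sg) ≤ (2 + G * Sg) * sg := by nlinarith
    exact this
  refine ⟨?_, ?_, ?_, ⟨?_, ?_, ?_, ?_⟩, ?_⟩
  · -- parallel
    rw [huC, huC]
    refine cpl_one fun i hi => ?_
    rw [hell, hell, hle, hle]
    have h1 := hf1 (Fin.succ 0)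
    have h2 := congrFun h1 i
    unfold pcC Pool.AVG71.cod at h2 ⊢
    rw [if_pos hi, if_pos hi] at h2
    rw [if_pos (Nat.zero_le _), if_pos (Nat.zero_le _)]
    exact h2.symm
  · -- the relation
    intro t ht
    rw [hh0]
    obtain ⟨P, hP⟩ : ∃ P : ℝ[X], P = np 0 - np (Fin.succ 0) - ∑ k : Fin D,
        C ((Pool.NDD66.Qk (fun k => h (ai k)) (h (Fin.succ 0)) k).eval (h 0)) * cr k := ⟨_, rfl⟩
    have hPe : ∀ τ, P.eval τ = (np 0).eval τ - (np (Fin.succ 0)).eval τ - ∑ k : Fin D,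
        (Pool.NDD66.Qk (fun k => h (ai k)) (h (Fin.succ 0)) k).eval (h 0) * (cr k).eval τ := by
      intro τ
      rw [hP]
      simp only [eval_sub, eval_finsetSum, eval_mul, eval_C]
    have h1 := (hext P (E1 + D * (Lb * Sg * δc)) (by
      rw [hP]
      refine (natDegree_sub_le _ _).trans (max_le ((natDegree_sub_le _ _).trans
        (max_le (hnd _) (hnd _))) ?_)
      exact natDegree_sum_le_of_forall_le _ _ fun k _ =>
        (natDegree_C_mul_le _ _).trans (hcrd k)) (fun τ hτ => by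
      have h2 := hrel (Fin.succ 0) τ hτ
      have h3 := hsum (fun k => (Pool.NDD66.Qk (fun k => h (ai k)) (h (Fin.succ 0)) k).eval
        (h 0)) (Lb * Sg) hQr τ hτ
      have h4 : ∀ k : Fin D, (Pool.NDD66.Qk (fun k => h (ai k)) (h 0) k).eval
          (h (Fin.succ 0)) = -(Pool.NDD66.Qk (fun k => h (ai k)) (h (Fin.succ 0)) k).eval
            (h 0) := fun k => by
        have := Pool.ND54.Qk_sub (fun k => h (ai k)) (h 0) (h 0) (h (Fin.succ 0)) k
        rw [Pool.NDD66.Qk_zero] at this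
        linarith
      have h5 : ∑ k : Fin D, (Pool.NDD66.Qk (fun k => h (ai k)) (h 0) k).eval
          (h (Fin.succ 0)) * (cp (ai k)).eval τ = -∑ k : Fin D,
          (Pool.NDD66.Qk (fun k => h (ai k)) (h (Fin.succ 0)) k).eval (h 0) *
            (cp (ai k)).eval τ := by
        rw [← Finset.sum_neg_distrib]
        exact Finset.sum_congr rfl fun k _ => by rw [h4]; ring
      rw [h5] at h2
      rw [hPe]
      obtain ⟨s1, hs1⟩ : ∃ s1, s1 = ∑ k : Fin D,
          (Pool.NDD66.Qk (fun k => h (ai k)) (h (Fin.succ 0)) k).eval (h 0) *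
            (cp (ai k)).eval τ := ⟨_, rfl⟩
      obtain ⟨s2, hs2⟩ : ∃ s2, s2 = ∑ k : Fin D,
          (Pool.NDD66.Qk (fun k => h (ai k)) (h (Fin.succ 0)) k).eval (h 0) *
            (cr k).eval τ := ⟨_, rfl⟩
      rw [← hs1] at h2
      simp only [← hs1, ← hs2] at h3 ⊢
      have e1 : (np 0).eval τ - (np (Fin.succ 0)).eval τ - s2 =
          -((np (Fin.succ 0)).eval τ - (np 0).eval τ - -s1) + (s1 - s2) := by ring
      rw [e1]
      refine (abs_add_le _ _).trans ?_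
      rw [abs_neg]
      linarith) t (by linarith [ht])).1
    have e3 : (X.nL (X.l (v 0)) - X.nL (X.l (v (Fin.succ 0))) -
        Qh (X.qk fun j => X.ell (v j.succ)) (X.ck fun j => X.ell (v j.succ))
          (G * h 0 - G * h (Fin.succ 0))).eval t = 2 ^ Xd * P.eval t := by
      rw [eval_sub, eval_sub, Qh_eval, hnL, hnL, hPe]
      simp only [eval_mul, eval_C]
      have e4 : ∑ k, (X.qk (fun j => X.ell (v j.succ)) k).eval (G * h 0 - G * h (Fin.succ 0)) *
          (X.ck (fun j => X.ell (v j.succ)) k).eval t = 2 ^ Xd * ∑ k : Fin D,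
        (Pool.NDD66.Qk (fun k => h (ai k)) (h (Fin.succ 0)) k).eval (h 0) *
          (cr k).eval t := by
        rw [Finset.mul_sum]
        refine Finset.sum_congr rfl fun k _ => ?_
        rw [hqk, hck, eval_comp, eval_add, eval_X, eval_C, sub_add_cancel,
          Qk_scale _ _ hG0.ne', eval_mul, eval_C]
        field_simp
      rw [e4]
      ring
    rw [e3, abs_mul, abs_of_pos hX0]
    have h0 : 0 ≤ E1 + D * (Lb * Sg * δc) := by
      have h2 := (abs_nonneg _).trans (hrel 0 0 ⟨le_rfl, zero_le_one⟩)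
      positivity
    calc 2 ^ Xd * |P.eval t| ≤ 2 ^ Xd * (K₁ * (E1 + D * (Lb * Sg * δc))) :=
          mul_le_mul_of_nonneg_left h1 hX0.le
      _ ≤ 2 ^ Xd * ((K₁ + K₂) * (E1 + D * (Lb * Sg * δc))) :=
          mul_le_mul_of_nonneg_left (mul_le_mul_of_nonneg_right (by linarith) h0) hX0.le
      _ = (K₁ + K₂) * (2 ^ Xd * (E1 + D * (Lb * Sg * δc))) := by ring
  · -- the slopes
    intro t ht
    rw [hh0]
    obtain ⟨P, hP⟩ : ∃ P : ℝ[X], P = cp 0 - ∑ k : Fin D,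
        C ((Lagrange.basis Finset.univ (fun k : Fin D => h (ai k)) k).eval (h 0)) * cr k :=
      ⟨_, rfl⟩
    have hPe : ∀ τ, P.eval τ = (cp 0).eval τ - ∑ k : Fin D,
        (Lagrange.basis Finset.univ (fun k : Fin D => h (ai k)) k).eval (h 0) *
          (cr k).eval τ := by
      intro τ
      rw [hP]
      simp only [eval_sub, eval_finsetSum, eval_mul, eval_C]
    have hb0 : ∀ k : Fin D, |(Lagrange.basis Finset.univ (fun k : Fin D => h (ai k)) k).eval
        (h 0)| ≤ Lb := fun k => by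
      rw [← bas_scale (fun k : Fin D => h (ai k)) hG0.ne' k (h 0)]
      exact hbas _ 0 0 (by rw [sub_self, abs_zero]) (by norm_num) k
    have h1 := (hext P (E2 + D * (Lb * δc)) (by
      rw [hP]
      refine (natDegree_sub_le _ _).trans (max_le (hcd _) ?_)
      exact natDegree_sum_le_of_forall_le _ _ fun k _ =>
        (natDegree_C_mul_le _ _).trans (hcrd k)) (fun τ hτ => by
      have h2 := hslp τ hτ
      have h3 := hsum (fun k => (Lagrange.basis Finset.univ (fun k : Fin D => h (ai k)) k).eval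
        (h 0)) Lb hb0 τ hτ
      rw [hPe]
      obtain ⟨s1, hs1⟩ : ∃ s1, s1 = ∑ k : Fin D,
          (Lagrange.basis Finset.univ (fun k : Fin D => h (ai k)) k).eval (h 0) *
            (cp (ai k)).eval τ := ⟨_, rfl⟩
      obtain ⟨s2, hs2⟩ : ∃ s2, s2 = ∑ k : Fin D,
          (Lagrange.basis Finset.univ (fun k : Fin D => h (ai k)) k).eval (h 0) *
            (cr k).eval τ := ⟨_, rfl⟩
      rw [← hs1] at h2
      simp only [← hs1, ← hs2] at h3 ⊢
      have e1 : (cp 0).eval τ - s2 = ((cp 0).eval τ - s1) + (s1 - s2) := by ring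
      rw [e1]
      refine (abs_add_le _ _).trans ?_
      linarith) t (by linarith [ht])).1
    have e3 : (Qd (X.qk fun j => X.ell (v j.succ)) (X.ck fun j => X.ell (v j.succ))
        (G * h 0 - G * h (Fin.succ 0)) - X.cL (X.l (v 0))).eval t =
        -(2 ^ Xd / G * P.eval t) := by
      rw [eval_sub, Qd_eval, hcL, hPe]
      simp only [eval_mul, eval_C]
      have e4 : ∑ k, (derivative (X.qk (fun j => X.ell (v j.succ)) k)).eval
          (G * h 0 - G * h (Fin.succ 0)) *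
          (X.ck (fun j => X.ell (v j.succ)) k).eval t = 2 ^ Xd / G * ∑ k : Fin D,
        (Lagrange.basis Finset.univ (fun k : Fin D => h (ai k)) k).eval (h 0) *
          (cr k).eval t := by
        rw [Finset.mul_sum]
        refine Finset.sum_congr rfl fun k _ => ?_
        rw [hdq, hck, sub_add_cancel, bas_scale _ hG0.ne', eval_mul, eval_C]
        ring
      rw [e4]
      ring
    rw [e3, abs_neg, abs_mul, abs_of_pos (div_pos hX0 hG0)]
    have h0 : 0 ≤ E2 + D * (Lb * δc) := by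
      have h2 := (abs_nonneg _).trans (hslp 0 ⟨le_rfl, zero_le_one⟩)
      positivity
    have hXG : 0 ≤ 2 ^ Xd / G := (div_pos hX0 hG0).le
    calc 2 ^ Xd / G * |P.eval t| ≤ 2 ^ Xd / G * (K₁ * (E2 + D * (Lb * δc))) :=
          mul_le_mul_of_nonneg_left h1 hXG
      _ ≤ 2 ^ Xd / G * ((K₁ + K₂) * (E2 + D * (Lb * δc))) :=
          mul_le_mul_of_nonneg_left (mul_le_mul_of_nonneg_right (by linarith) h0) hXG
      _ = (K₁ + K₂) * (2 ^ Xd / G * (E2 + D * (Lb * δc))) := by ring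
  · -- the derivative of the weights
    intro k y hy
    rw [hh0] at hy
    rw [hdq]
    refine (hbas _ 1 0 ?_ (by norm_num) k).trans ?_
    · have e1 : y + G * h (Fin.succ 0) - G * h 0 = y - (G * h 0 - G * h (Fin.succ 0)) := by ring
      rw [e1]
      exact hy
    · refine le_trans ?_ hLq1
      have : 1 * Lb ≤ (K₁ + K₂) * Lb := mul_le_mul_of_nonneg_right (by linarith) hLb0
      linarith
  · intro k y hy
    rw [hh0] at hy
    have h1 := (hmk (derivative (X.qk (fun j => X.ell (v j.succ)) k))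
      (G * h 0 - G * h (Fin.succ 0)) 1 Lb (by
        rw [hqk, derivative_comp, Pool.NDD66.Qk_der, derivative_add, derivative_X, derivative_C,
          add_zero, one_mul]
        refine natDegree_comp_le.trans ?_
        rw [natDegree_X_add_C, mul_one]
        exact (Pool.NDD66.bas_deg _ _).trans (by omega)) one_pos (fun z hz => by
        rw [hdq]
        refine hbas _ 1 0 ?_ (by norm_num) k
        have e1 : z + G * h (Fin.succ 0) - G * h 0 = z - (G * h 0 - G * h (Fin.succ 0)) := by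
          ring
        rw [e1]
        exact hz) y (by linarith)).2
    rw [div_one] at h1
    refine h1.trans (le_trans ?_ hLq1)
    exact mul_le_mul_of_nonneg_right (by linarith) hLb0
  · intro k z hz
    have h1 := (hext (cr k) (Bc + δc) (hcrd k) (fun τ hτ => by
      have a1 := hBc (ai k) τ hτ
      have a2 := hcrn k τ hτ
      have e1 : (cr k).eval τ = (cp (ai k)).eval τ - ((cp (ai k)).eval τ - (cr k).eval τ) := by
        ring
      rw [e1]
      exact (abs_sub _ _).trans (by linarith)) z hz).1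
    rw [hck, eval_mul, eval_C, abs_mul, abs_of_pos (div_pos hX0 hG0)]
    have hXG : 0 ≤ 2 ^ Xd / G := (div_pos hX0 hG0).le
    refine le_trans ?_ hLq2
    calc 2 ^ Xd / G * |(cr k).eval z| ≤ 2 ^ Xd / G * (K₁ * (Bc + δc)) :=
          mul_le_mul_of_nonneg_left h1 hXG
      _ ≤ 2 ^ Xd / G * ((K₁ + K₂) * (Bc + δc)) :=
          mul_le_mul_of_nonneg_left (mul_le_mul_of_nonneg_right (by linarith) (by linarith)) hXG
      _ = (K₁ + K₂) * (2 ^ Xd / G * (Bc + δc)) := by ring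
  · intro k z hz
    have h1 := (hext (cr k) (Bc + δc) (hcrd k) (fun τ hτ => by
      have a1 := hBc (ai k) τ hτ
      have a2 := hcrn k τ hτ
      have e1 : (cr k).eval τ = (cp (ai k)).eval τ - ((cp (ai k)).eval τ - (cr k).eval τ) := by
        ring
      rw [e1]
      exact (abs_sub _ _).trans (by linarith)) z hz).2
    rw [hck, derivative_C_mul, eval_mul, eval_C, abs_mul, abs_of_pos (div_pos hX0 hG0)]
    have hXG : 0 ≤ 2 ^ Xd / G := (div_pos hX0 hG0).le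
    refine le_trans ?_ hLq2
    calc 2 ^ Xd / G * |(derivative (cr k)).eval z| ≤ 2 ^ Xd / G * (K₁ * (Bc + δc)) :=
          mul_le_mul_of_nonneg_left h1 hXG
      _ ≤ 2 ^ Xd / G * ((K₁ + K₂) * (Bc + δc)) :=
          mul_le_mul_of_nonneg_left (mul_le_mul_of_nonneg_right (by linarith) (by linarith)) hXG
      _ = (K₁ + K₂) * (2 ^ Xd / G * (Bc + δc)) := by ring
  · intro k y hy
    rw [hqk, eval_comp, eval_add, eval_X, eval_C]
    refine (Pool.NDD66.Qk_le (D := D) (y := fun k => G * h (ai k)) (S := S') hs'0 hsep'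
      (hdist _ 2 (Fin.succ 0) (by rw [add_sub_cancel_right]; exact hy) le_rfl)
      (hdist _ 0 (Fin.succ 0) (by rw [sub_self, abs_zero]) (by norm_num)) k).trans ?_
    rw [add_sub_cancel_right, ← hLb]
    refine le_trans ?_ hY
    calc Lb * |y| ≤ Lb * 2 := mul_le_mul_of_nonneg_left hy hLb0
      _ = 2 * Lb := by ring

end

end Pool.SL77
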