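import Pool.Agent.H77.SL.Pof

/-!
# The separation of the parallel lines, and the event of `ParR`
-/

set_option autoImplicit false

namespace Pool.SL77

open Finset Real MvPolynomial
open Pool.Agent.H49.Ent Pool.Agent.H32.Dense Pool.STK Pool.KA Pool.KSAT Pool.K2S Pool.PB Pool.S6C
open Pool.GEN hiding Det
open Pool.CHT Pool.D2R Pool.LA91 Pool.RCD
open Pool.PB.Trl (rt rt_mem t_rt)
open Pool.V0F (cR det_cR)
open Pool.NDC42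
open Pool.ND54
open Pool.BFL (Pb)
open Pool.STB (Pb_mono Pb_or)
open Pool.CLU (cpn_law cpn_pos cpn_marg)

variable {m J : ℕ}

/-- **The parallel lines are separated.** -/
theorem par_sep {F : Fam m J} {A : F.Ω → Prop} (hA : 0 < Pe F.p A) {c : ℕ → Fin m} {D : ℕ}
    {w t : ℝ} {n : ℕ → ℝ} {nt e : ℝ} {H : LnT F → ℕ → MvPolynomial (Option (Fin m)) ℝ}
    (hfu : ((n 2 - nt) * Real.log 2 - e) * J ≤ CH (Pool.Agent.H49.Ent.cond F.p A True)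
      (hgC F c w H 2 (n 2)) (fun ω => ((cR F A t ω, F.W ω), x0 F A c D w n nt H ω)))
    (hhn : CH (Pool.Agent.H49.Ent.cond F.p A True) (hgC F c w H 2 (n 2))
      (fun ω => (F.T ω, xn F A c D w n nt H ω)) ≤ e * J) (hnt : nt ≤ n 2)
    (k Ks : ℕ) {κ : ℝ} (hκ : 0 < κ * J) (hKs : ((2 * Ks + 1 : ℕ) : ℝ) ≤ 2 ^ ((n 2 - nt - κ) * J)) :
    Pb (Pool.K2S.cpn (Pool.Agent.H49.Ent.cond F.p A True) (zrF F A c D w t n nt H) k)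
      (fun v => ∃ i i', i ≠ i' ∧
        |pcC F c D w H 2 0 (n 2) (v i) 0 - pcC F c D w H 2 0 (n 2) (v i') 0| ≤ (Ks : ℤ)) ≤
      (k + 1) ^ 2 * (2 * (e * J) + 3 * Real.log 2) / (κ * J * Real.log 2) := by
  classical
  obtain ⟨p, hpe⟩ : ∃ p, p = Pool.Agent.H49.Ent.cond F.p A True := ⟨_, rfl⟩
  have hp : IsLaw p := by rw [hpe]; exact isLaw_cond F.isLaw hA
  have p0 := hp.nonneg
  rw [← hpe] at hfu hhn ⊢
  obtain ⟨X, hX⟩ : ∃ X : ℝ, X = 2 ^ ((n 2 - nt) * J) := ⟨_, rfl⟩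
  have hJ0 : (0 : ℝ) ≤ J := Nat.cast_nonneg J
  have hX1 : 1 ≤ X := by
    rw [hX]
    exact Real.one_le_rpow (by norm_num) (mul_nonneg (by linarith) hJ0)
  have hn2 : (0 : ℝ) < 2 ^ (n 2 * J) := Real.rpow_pos_of_pos (by norm_num) _
  have hnt' : (0 : ℝ) < 2 ^ (nt * J) := Real.rpow_pos_of_pos (by norm_num) _
  have hXe : (2 : ℝ) ^ (n 2 * J) = X * 2 ^ (nt * J) := by
    rw [hX, ← Real.rpow_add (by norm_num)]
    congr 1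
    ring
  obtain ⟨N, hN⟩ : ∃ N : ℕ, N = ⌊X⌋₊ + 2 := ⟨_, rfl⟩
  have hNX : X ≤ N ∧ (N : ℝ) ≤ 4 * X := by
    have h1 := Nat.lt_floor_add_one X
    have h2 := Nat.floor_le (by linarith : 0 ≤ X)
    rw [hN]
    push_cast
    constructor <;> linarith
  have hl2 : 0 < Real.log 2 := Real.log_pos (by norm_num)
  have hlogX : Real.log X = (n 2 - nt) * J * Real.log 2 := by
    rw [hX, Real.log_rpow (by norm_num)]
  have hN1 : 1 ≤ N := by omega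
  have hN0 : (0 : ℝ) < N := by exact_mod_cast hN1
  have hlogN : Real.log N ≤ (n 2 - nt) * J * Real.log 2 + 2 * Real.log 2 := by
    have h1 : Real.log N ≤ Real.log (4 * X) := Real.log_le_log hN0 hNX.2
    rw [Real.log_mul (by norm_num) (by linarith), hlogX] at h1
    have h2 : Real.log 4 = 2 * Real.log 2 := by
      rw [show (4 : ℝ) = 2 ^ 2 by norm_num, Real.log_pow]
      push_cast
      ring
    linarith
  -- the code of order 0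
  obtain ⟨u, hu⟩ : ∃ u : F.Ω → ℤ, u = fun ω => pcC F c D w H 2 0 (n 2) ω 0 := ⟨_, rfl⟩
  have hfl : ∀ (s : ℝ) (ω : F.Ω), pcC F c D w H 2 0 s ω 0 =
      ⌊(2 : ℝ) ^ (s * J) * (opl F c ⌊w * J⌋₊ H 2 ω).coeff 0⌋ := by
    intro s ω
    unfold pcC Pool.AVG71.cod
    rw [if_pos (Nat.zero_le _)]
    rfl
  have h1 : CH p (hgC F c w H 2 (n 2)) (fun ω => (u ω, zrF F A c D w t n nt H ω)) ≤ e * J := by
    refine le_trans (CH_mono_cond p0 fun ω ω' _ _ h => ?_) hhn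
    have h' := Prod.ext_iff.1 h
    have hz := h'.2
    have hx0 : x0 F A c D w n nt H ω = x0 F A c D w n nt H ω' := congrArg (fun z => z.2) hz
    refine Prod.ext (congrArg (fun z => z.1.2.1) hz) (Prod.ext hx0 ?_)
    show pcC F c D w H 2 0 (n 2) ω = pcC F c D w H 2 0 (n 2) ω'
    funext i
    by_cases hi : 1 ≤ (i : ℕ)
    · have h2 : pcC F c D w H 2 1 (n 2) ω = pcC F c D w H 2 1 (n 2) ω' :=
        congrArg (fun z => z.2.2.1) hx0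
      have h3 := congrFun h2 i
      unfold pcC Pool.AVG71.cod at h3 ⊢
      rw [if_pos hi, if_pos hi] at h3
      rw [if_pos (Nat.zero_le _), if_pos (Nat.zero_le _)]
      exact h3
    · have hi0 : i = 0 := Fin.ext (by
        have : (i : ℕ) = 0 := by omega
        rw [this]
        rfl)
      have h3 : u ω = u ω' := h'.1
      rw [hu] at h3
      rw [hi0]
      exact h3
  have h2 := CH_le_add p0 (hgC F c w H 2 (n 2)) u (zrF F A c D w t n nt H)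
  have h3 : Real.log N - (2 * (e * J) + 2 * Real.log 2) ≤ CH p u (zrF F A c D w t n nt H) := by
    have h4 : ((n 2 - nt) * Real.log 2 - e) * J = (n 2 - nt) * J * Real.log 2 - e * J := by ring
    rw [h4] at hfu
    have h5 : CH p (hgC F c w H 2 (n 2)) (fun ω => ((cR F A t ω, F.W ω), x0 F A c D w n nt H ω)) =
      CH p (hgC F c w H 2 (n 2)) (zrF F A c D w t n nt H) := rfl
    rw [h5] at hfu
    linarith
  -- the window of the code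
  obtain ⟨Fw, hFw⟩ : ∃ Fw : ℤ → Finset ℤ, Fw = fun a : ℤ =>
      Finset.Icc ⌊X * (a : ℝ)⌋ (⌊X * (a : ℝ)⌋ + (⌊X⌋₊ + 1 : ℕ)) := ⟨_, rfl⟩
  have hmem : ∀ ω, u ω ∈ Fw (pcC F c D w H 2 0 nt ω 0) := by
    intro ω
    rw [hFw, hu]
    simp only
    rw [Finset.mem_Icc]
    obtain ⟨x, hx⟩ : ∃ x : ℝ, x = 2 ^ (nt * J) * (opl F c ⌊w * J⌋₊ H 2 ω).coeff 0 := ⟨_, rfl⟩
    have e1 := hfl nt ω
    have e2 := hfl (n 2) ω
    rw [← hx] at e1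
    have e3 : (2 : ℝ) ^ (n 2 * J) * (opl F c ⌊w * J⌋₊ H 2 ω).coeff 0 = X * x := by
      rw [hXe, hx]
      ring
    rw [e3] at e2
    rw [e1, e2]
    have f1 := Int.floor_le x
    have f2 := Int.lt_floor_add_one x
    constructor
    · exact Int.floor_le_floor (mul_le_mul_of_nonneg_left f1 (by linarith))
    · have g1 : X * x < X * (⌊x⌋ : ℝ) + X := by nlinarith
      have g2 := Int.lt_floor_add_one (X * (⌊x⌋ : ℝ))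
      have g3 := Int.floor_le (X * x)
      have g4 := Nat.lt_floor_add_one X
      have g5 : ((⌊X * x⌋ : ℤ) : ℝ) < ((⌊X * (⌊x⌋ : ℝ)⌋ + (⌊X⌋₊ + 1 : ℕ) : ℤ) : ℝ) + 1 := by
        push_cast
        linarith
      have g6 : (⌊X * x⌋ : ℤ) < (⌊X * (⌊x⌋ : ℝ)⌋ + (⌊X⌋₊ + 1 : ℕ) : ℤ) + 1 := by exact_mod_cast g5
      linarith
  have hcard : ∀ a, (Fw a).card ≤ N := by
    intro a
    rw [hFw]
    simp only
    rw [Int.card_Icc, hN]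
    omega
  have hlK : Real.log (2 * Ks + 1) ≤ (n 2 - nt - κ) * J * Real.log 2 := by
    have h4 : Real.log (((2 * Ks + 1 : ℕ) : ℝ)) ≤ Real.log (2 ^ ((n 2 - nt - κ) * J)) :=
      Real.log_le_log (by positivity) hKs
    rw [Real.log_rpow (by norm_num)] at h4
    push_cast at h4
    exact h4
  have hlogN2 : (n 2 - nt) * J * Real.log 2 ≤ Real.log N := by
    rw [← hlogX]
    exact Real.log_le_log (by linarith) hNX.1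
  have hd : κ * J * Real.log 2 ≤ Real.log N - Real.log (2 * Ks + 1) := by
    have e1 : (n 2 - nt - κ) * J * Real.log 2 =
        (n 2 - nt) * J * Real.log 2 - κ * J * Real.log 2 := by ring
    rw [e1] at hlK
    linarith
  have hpos : 0 < κ * J * Real.log 2 := mul_pos hκ hl2
  have key := sep_cpn hp u (zrF F A c D w t n nt H) (fun z => Fw (z.2.2.2.2 0)) N Ks k
    (θ := 2 * (e * J) + 2 * Real.log 2) hN1 (fun ω _ => hmem ω) (fun v => hcard _) h3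
    (by linarith)
  rw [hu] at key
  rw [le_div_iff₀ hpos]
  have hPb := Pool.MIC.Pb_nonneg (cpn_law hp (zrF F A c D w t n nt H) k).nonneg
    (fun v => ∃ i i', i ≠ i' ∧
        |pcC F c D w H 2 0 (n 2) (v i) 0 - pcC F c D w H 2 0 (n 2) (v i') 0| ≤ (Ks : ℤ))
  refine (mul_le_mul_of_nonneg_left hd hPb).trans (key.trans (le_of_eq ?_))
  ring

/-- **The event of the relation `ParR`** for the record `slF`. -/
theorem parR_evt (D D₂ : ℕ) : ∃ (C : ℕ) (Kc : ℝ), 1 ≤ C ∧ 1 ≤ Kc ∧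
    ∀ {m J : ℕ} {F : Fam m J} {A : F.Ω → Prop}
    (_ : 0 < Pe F.p A) {c : ℕ → Fin m} {w t : ℝ} {n : ℕ → ℝ} {nt e : ℝ}
    {H Hr : LnT F → ℕ → MvPolynomial (Option (Fin m)) ℝ}
    (_ : ((n 2 - nt) * Real.log 2 - e) * J ≤ CH (Pool.Agent.H49.Ent.cond F.p A True)
      (hgC F c w H 2 (n 2)) (fun ω => ((cR F A t ω, F.W ω), x0 F A c D w n nt H ω)))
    (_ : CH (Pool.Agent.H49.Ent.cond F.p A True) (xg F A c D w n nt H)
      (x0 F A c D w n nt H) ≤ ((n 2 - nt) * Real.log 2 + e) * J)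
    (_ : CH (Pool.Agent.H49.Ent.cond F.p A True) (hgC F c w H 2 (n 2))
      (fun ω => (F.T ω, xn F A c D w n nt H ω)) ≤ e * J)
    (_ : ((1 - w) * Real.log 2 - e) * J ≤
      CH (Pool.Agent.H49.Ent.cond F.p A True) F.T (slam F ⌊w * J⌋₊)),
    ⌊w * J⌋₊ < J → nt ≤ n 2 →
    (∀ s l, (H s l).totalDegree ≤ D) → ∀ {Kt : Type} (kc : F.Ω → Kt) {δg : ℝ},
    (∀ ω ω', A ω → A ω' → slam F ⌊w * J⌋₊ ω = slam F ⌊w * J⌋₊ ω' → kc ω = kc ω') →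
    CH (Pool.Agent.H49.Ent.cond F.p A True) kc (xg F A c D w n nt H) ≤ e * J →
    (∀ ω ω', A ω → A ω' → elN F A c D w n nt H kc ω = elN F A c D w n nt H kc ω' → 
      ∀ τ ∈ Set.Icc (0 : ℝ) 1, |(grP F c D₂ ⌊w * J⌋₊ H Hr (slam F ⌊w * J⌋₊ ω) 2).eval τ -
        (grP F c D₂ ⌊w * J⌋₊ H Hr (slam F ⌊w * J⌋₊ ω') 2).eval τ| ≤ δg) →
    0 ≤ δg → ∀ {δn : ℕ → ℝ} {η η' : ℝ},
    OwnE F A c D D₂ w t H Hr δn (3 / 2 ^ (nt * J)) η η' →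
    (∀ l < 2, ((D : ℝ) + 2) / 2 ^ (n l * J) ≤ δn l) → ((D : ℝ) + 3) / 2 ^ (n 2 * J) ≤ δn 2 →
    0 < η' → ∀ {Bn Bc : ℝ}, (∀ ω, A ω → ∀ τ ∈ Set.Icc (0 : ℝ) 1,
      |(opl F c ⌊w * J⌋₊ H 3 ω).eval τ| ≤ Bn ∧
      |(grP F c D₂ ⌊w * J⌋₊ H Hr (slam F ⌊w * J⌋₊ ω) 2).eval τ| ≤ Bc) →
    -- the rows
    ∀ (B : F.Ω → Prop) (S : ℕ → _ × ℤ → Finset ℤ) (nr Xd Ks : ℕ) (N a b : ℕ → ℕ) (V : ℕ → ℝ)
      (K c₀ ρ : ℝ),
    (∀ k < nr, ∀ ω, A ω → B ω → ⌊2 ^ Xd * (opl F c ⌊w * J⌋₊ H 3 ω).eval 0⌋ / 2 ^ a k ∈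
      S k (xg F A c D w n nt H ω, ⌊2 ^ Xd * (opl F c ⌊w * J⌋₊ H 3 ω).eval 0⌋ / 2 ^ b k)) →
    (∀ k < nr, ∀ y, (S k y).card ≤ N k) →
    Pb (Pool.Agent.H49.Ent.cond F.p A True) (fun ω => ¬ B ω) ≤ c₀ → 1 ≤ Ks →
    ∀ {κ : ℝ}, 0 < κ * J → ((2 * Ks + 1 : ℕ) : ℝ) ≤ 2 ^ ((n 2 - nt - κ) * J) →
    ∀ {Lr Qb η₁ η₂ c₁ e' : ℝ}, Lr = ((3 / 2 ^ (nt * J)) / (Ks / 2 ^ (n 2 * J))) ^ (D - 1) →
      Qb = Lr * (3 / 2 ^ (nt * J)) → η₁ = 2 * η + D * Qb * η' →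
      η₂ = D * Qb * δg + (D + 1) / 2 ^ (n 3 * J) →
      c₁ = (2 * D + 2) ^ 2 * (2 * (e * J) + 3 * Real.log 2) / (κ * J * Real.log 2) →
      e' = (e * J + 2 * Real.log 2) + ((2 * D + 1 : ℕ) : ℝ) * (4 * (e * J)) →
    0 < ρ → ρ < 1 → (C : ℝ) ≤ ρ ^ C * ((2 ^ (J - ⌊w * J⌋₊ - 1) : ℕ) : ℝ) → 0 ≤ K →
    2 ^ Xd * (η₁ + η₂) + 1 ≤ K → 2 ^ Xd * (2 * ((3 * Bn + D * Qb * Bc) + η₂)) ≤ V nr →
    (∀ k < nr, a k ≤ b k ∧ K ≤ 2 ^ a k ∧ 0 < V k ∧ V (k + 1) ≤ 2 ^ b k ∧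
      (C : ℝ) * N k * 2 ^ a k ≤ ρ ^ C * V k ∧
      (C : ℝ) * N k ≤ ρ ^ C * ((2 ^ (J - ⌊w * J⌋₊ - 1) : ℕ) : ℝ)) →
    -- the record
    ∀ {M : ℕ} {g s : ℝ} {ξ : Type} {le : LnT F → ξ × (Fin (D + 1 + 1) → ℤ)}
      {NR CR : ξ × (Fin (D + 1 + 1) → ℤ) → Polynomial ℝ} {δc S' s' Lb Lq Y ε1 ε2 : ℝ},
    (∀ e, (CR e).natDegree ≤ D + 4 * D₂ + 1) →
    (∀ ω, A ω → (le (slam F ⌊w * J⌋₊ ω)).2 = pcC F c D w H 2 0 (n 2) ω) →
    (∀ ω, A ω → ∀ τ ∈ Set.Icc (0 : ℝ) 1,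
      |(grP F c D₂ ⌊w * J⌋₊ H Hr (slam F ⌊w * J⌋₊ ω) 2).eval τ -
      (CR (le (slam F ⌊w * J⌋₊ ω))).eval τ| ≤ δc) → 0 ≤ δc → 0 ≤ Bc →
    s' = 2 ^ (g * J) * (Ks / 2 ^ (n 2 * J)) → S' = 2 + 2 ^ (g * J) * (3 / 2 ^ (nt * J)) →
    Lb = (S' / s') ^ (D - 1) → Kc * Lb ≤ Lq → Kc * (2 ^ Xd / 2 ^ (g * J) * (Bc + δc)) ≤ Lq →
    2 * Lb ≤ Y →
    ε1 = Kc * (2 ^ Xd * ((2 * K + 2 * V 0) / 2 ^ Xd + η₂ +
      D * (Lb * (3 / 2 ^ (nt * J)) * δc))) →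
    ε2 = Kc * (2 ^ Xd / 2 ^ (g * J) * (C / ρ ^ C * ((1 + D * Lr) * η' + D * Lr * δg) +
      D * (Lb * δc))) →
    Pb (Pool.K2S.cpn (Pool.Agent.H49.Ent.cond F.p A True) (zrF F A c D w t n nt H) (2 * D + 1))
      (fun v => ¬ ParR (slF F c D Xd g w s n M H (fun x => grP F c D₂ ⌊w * J⌋₊ H Hr x 2) le NR CR)
        ε1 ε2 Lq Y v) ≤
      (2 * D + 2) * (c₀ + 3 * c₁ + nr * ((e' + Real.log 2) / Real.log (1 / ρ))) +
      (3 * c₁ + (e' + Real.log 2) / Real.log (1 / ρ)) := by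
  classical
  obtain ⟨C, hC, hev⟩ := par_evt D D₂
  obtain ⟨Kc, hKc, hpr⟩ := parR_of D D₂
  refine ⟨C, Kc, hC, hKc, ?_⟩
  intro m J F A hA c w t n nt e H Hr hfu hxx hhn htm hW hnt hdH Kt kc δg hk1 hk2 hk3 hδ δn η η'
    hOwn hδn hδn2 hη' Bn Bc hBd B S nr Xd Ks N a b V K c₀ ρ hrow hcard hB hKs κ hκ hKsκ Lr Qb η₁ η₂
    c₁ e' hLr hQb hη₁ hη₂ hc₁ he' hρ hρ1 hCM hK0 hK hV hnum M g s ξ le NR CR δc S' s' Lb Lq Y ε1
    ε2 hCR hle hcr hδc hBc0 hs' hS' hLb hLq1 hLq2 hY hε1 hε2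
  have hsep := par_sep hA hfu hhn hnt (2 * D + 1) Ks hκ hKsκ
  have hk : ((2 * D + 1 : ℕ) : ℝ) + 1 = 2 * D + 2 := by push_cast; ring
  rw [hk, ← hc₁] at hsep
  have h1 := hev hA hfu hxx hhn htm hW hnt hdH kc hk1 hk2 hk3 hδ hOwn hδn hδn2 hη' hBd B S nr Xd
    Ks N a b V K c₀ c₁ ρ hrow hcard hB hKs hsep hLr hQb hη₁ hη₂ hρ hρ1 hCM hK0 hK hV hnum
  rw [← he'] at h1
  have hp : IsLaw (Pool.Agent.H49.Ent.cond F.p A True) := isLaw_cond F.isLaw hA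
  have Q0 := (cpn_law hp (zrF F A c D w t n nt H) (2 * D + 1)).nonneg
  refine (Pool.XLF.Pb_le Q0 fun v hv hnot => ?_).trans h1
  intro hg
  apply hnot
  obtain ⟨a1, a2⟩ := cpn_pos hp.nonneg _ _ v hv
  rw [hε1, hε2]
  exact hpr hdH hCR (fun i => hle _ (cond_A (a1 i)))
    (fun i => congrArg (fun z => z.2.2.2.1) (a2 i)) (fun i => hcr _ (cond_A (a1 i)))
    (fun i τ hτ => (hBd _ (cond_A (a1 i)) τ hτ).2) hKs hs' hS' hLb hg.1 hg.2.1 hg.2.2 hδc hBc0 hLq1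
    hLq2 hY

end Pool.SL77
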