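import Pool.Agent.H77.SL.Par
import Pool.Agent.H77.SL.Fin

/-!
# The star lemma: the quotients of two stars on one line

`SlG.top`: the crude bound of the level polynomial. `SlG.quo`: the quotients from the normalized
derivatives. `sl_pair`: the quotients of two stars on one line are near, law level.
-/

set_option autoImplicit false

namespace Pool.SL77

open Finset Polynomial
open Pool.Agent.H49.Ent Pool.Agent.H32.Dense Pool.STK
open Pool.BFL (Pb)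
open Pool.STB (Pb_mono Pb_or)
open Pool.K2S (cpn)
open Pool.CLU (cpn_law cpn_pos cpn_marg)

section

variable {Ω Λ E : Type} {N K : ℕ} {X : SlD Ω Λ E N K}
  {ρ0 : ℝ} {M : ℕ} {ε εu εg ε1 ε2 δ θ Lq Y : ℝ} {W : Fin 2 → Fin (N + 1 + 1) → Fin 2 → Ω}

/-- An affine polynomial. -/
theorem eval_aff {P : ℝ[X]} (h : derivative (derivative P) = 0) (x y : ℝ) :
    P.eval x = P.eval y + (derivative P).eval y * (x - y) := by
  have h1 := tay P (a := y) (b := x) (M := 0) fun s _ => by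
    rw [h, eval_zero, abs_zero]
  rw [zero_mul, zero_mul] at h1
  have h2 := abs_eq_zero.1 (le_antisymm h1 (abs_nonneg _))
  linarith

/-- **The crude bound of the level polynomial.** -/
theorem SlG.top (H : SlG X ρ0 M ε εu εg ε1 ε2 δ θ Lq Y W) (h0 : 0 < ρ0) (h1 : ρ0 ≤ 1 / 2)
    (hδ : 0 < δ) (hθ : 1 ≤ θ) (hθρ : θ ^ 2 * ρ0 ≤ 1 / 2) (hη : θ * (2 * εu) / δ ≤ 1)
    (s : ℝ) (hs : |s| ≤ 1) :
    |(triP (slE0 X (slW X W)) (slE1 X (slW X W)) (slD0 X (slW X W)) (slD1 X (slW X W))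
        (slW X W).2.2 ρ0).eval s -
      (triP (slE0 X (slW X W)) (slE1 X (slW X W)) (slD0 X (slW X W)) (slD1 X (slW X W))
        (slW X W).2.2 ρ0).eval 0| ≤ 4 * (2 * Y + K * (Y * Lq)) := by
  obtain ⟨a1, a2, a3, a4, a5, a6⟩ := H.hts
  obtain ⟨b1, b2, -, -⟩ := H.crude
  obtain ⟨t1, t2, t3⟩ := H.times h0.le
  have hθ0 : 0 < θ := by linarith
  obtain ⟨c0, hc0⟩ : ∃ c0, c0 = (slW X W).2.2 := ⟨_, rfl⟩
  have hc : |c0| ≤ 1 := by rw [hc0]; exact H.hc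
  rw [← hc0] at t1 t2 t3 ⊢
  obtain ⟨A, hA⟩ : ∃ A, A = X.tm ρ0 M (W 0 0 0) := ⟨_, rfl⟩
  obtain ⟨B, hB⟩ : ∃ B, B = X.tm ρ0 M (W 1 0 0) := ⟨_, rfl⟩
  rw [← hA] at a1 t1 t2
  rw [← hB] at a2 t3
  obtain ⟨d0, hd0⟩ : ∃ d0, d0 = (derivative (slD0 X (slW X W))).eval c0 := ⟨_, rfl⟩
  obtain ⟨d1, hd1⟩ : ∃ d1, d1 = (derivative (slD1 X (slW X W))).eval c0 := ⟨_, rfl⟩
  have hd0b : |d0| ≤ θ * δ := by rw [hd0, a5]; exact H.stA.s1
  have hd1b : δ ≤ θ * |d1| := by rw [hd1, a6]; exact H.stB.s0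
  have hd1p : 0 < |d1| := by
    by_contra hc'
    have h2 : |d1| = 0 := le_antisymm (not_lt.1 hc') (abs_nonneg _)
    rw [h2, mul_zero] at hd1b
    linarith
  have hd1n : d1 ≠ 0 := abs_pos.1 hd1p
  have hBb : |B| ≤ 3 / 2 := by
    have := abs_add_le (B - c0) c0
    rw [sub_add_cancel] at this
    linarith
  -- the arguments
  have harg0 : ∀ s : ℝ, |s| ≤ 1 → |c0 + ρ0 * s| ≤ 4 := by
    intro s hs
    have e1 := abs_add_le c0 (ρ0 * s)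
    rw [abs_mul, abs_of_pos h0] at e1
    have e2 : ρ0 * |s| ≤ ρ0 * 1 := mul_le_mul_of_nonneg_left hs h0.le
    linarith
  have harg1 : ∀ s : ℝ, |s| ≤ 1 → |c0 + ((slD0 X (slW X W)).eval c0 -
      (slD1 X (slW X W)).eval c0 + (derivative (slD0 X (slW X W))).eval c0 *
        (c0 + ρ0 * s - c0)) / (derivative (slD1 X (slW X W))).eval c0| ≤ 4 := by
    intro s hs
    rw [← hd0, ← hd1]
    obtain ⟨β, hβ⟩ : ∃ β, β = c0 + ((slD0 X (slW X W)).eval c0 -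
      (slD1 X (slW X W)).eval c0 + d0 * (c0 + ρ0 * s - c0)) / d1 := ⟨_, rfl⟩
    rw [← hβ]
    have e0 := eval_aff a3 A c0
    have e1 := eval_aff a4 B c0
    rw [← hd0] at e0
    rw [← hd1] at e1
    have e2 : d1 * (β - B) = ((slD0 X (slW X W)).eval A - slh X W) -
        ((slD1 X (slW X W)).eval B - slh X W) + d0 * (c0 + ρ0 * s - A) := by
      rw [hβ, e0, e1]
      field_simp
      ring
    have e3 : |c0 + ρ0 * s - A| ≤ 2 * ρ0 := by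
      have f1 : c0 + ρ0 * s - A = ρ0 * s - (A - c0) := by ring
      rw [f1]
      refine (abs_sub _ _).trans ?_
      rw [abs_mul, abs_of_pos h0]
      have e2 : ρ0 * |s| ≤ ρ0 * 1 := mul_le_mul_of_nonneg_left hs h0.le
      linarith
    have e4 : |d1 * (β - B)| ≤ 2 * εu + θ * δ * (2 * ρ0) := by
      rw [e2]
      refine (abs_add_le _ _).trans (add_le_add ?_ ?_)
      · refine (abs_sub _ _).trans ?_
        linarith
      · rw [abs_mul]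
        exact mul_le_mul hd0b e3 (abs_nonneg _) (by positivity)
    have e5 : |β - B| ≤ 2 := by
      rw [abs_mul] at e4
      have f1 : δ * |β - B| ≤ θ * (2 * εu + θ * δ * (2 * ρ0)) := by
        calc δ * |β - B| ≤ θ * |d1| * |β - B| := mul_le_mul_of_nonneg_right hd1b (abs_nonneg _)
          _ = θ * (|d1| * |β - B|) := by ring
          _ ≤ _ := mul_le_mul_of_nonneg_left e4 hθ0.le
      have f2 : θ * (2 * εu + θ * δ * (2 * ρ0)) ≤ 2 * δ := by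
        rw [div_le_iff₀ hδ] at hη
        have f3 : θ * (θ * δ * (2 * ρ0)) = δ * (2 * (θ ^ 2 * ρ0)) := by ring
        have f4 : δ * (2 * (θ ^ 2 * ρ0)) ≤ δ * 1 := mul_le_mul_of_nonneg_left (by linarith) hδ.le
        linarith
      have f3 : δ * |β - B| ≤ δ * 2 := by linarith
      exact le_of_mul_le_mul_left f3 hδ
    have := abs_add_le (β - B) B
    rw [sub_add_cancel] at this
    linarith
  have hP : ∀ s : ℝ, |s| ≤ 1 → |(triP (slE0 X (slW X W)) (slE1 X (slW X W))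
      (slD0 X (slW X W)) (slD1 X (slW X W)) c0 ρ0).eval s| ≤ 2 * (2 * Y + K * (Y * Lq)) := by
    intro s hs
    rw [triP_eval]
    refine (abs_sub _ _).trans ?_
    have f1 := b1 _ (harg0 s hs)
    have f2 := b2 _ (harg1 s hs)
    linarith
  refine (abs_sub _ _).trans ?_
  have f1 := hP s hs
  have f2 := hP 0 (by rw [abs_zero]; norm_num)
  linarith

/-- **The quotients from the normalized derivatives.** -/
theorem slg_quo (D : ℕ) : ∃ K₂ : ℝ, 1 ≤ K₂ ∧ ∀ {Ω Λ E : Type} {N K : ℕ} {X : SlD Ω Λ E N K}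
    {ρ0 : ℝ} {M : ℕ} {ε εu εg ε1 ε2 δ θ Lq Y : ℝ} {W : Fin 2 → Fin (N + 1 + 1) → Fin 2 → Ω}
    (_ : X.Deg D) (_ : SlG X ρ0 M ε εu εg ε1 ε2 δ θ Lq Y W) (_ : 0 < ρ0) (_ : ρ0 ≤ 1 / 2)
    (_ : 0 < δ) (_ : εu ≤ 1) (_ : 0 ≤ εg) {Gc : ℝ},
    |((derivative (slE0 X (slW X W))).eval (X.tm ρ0 M (W 0 0 0)) -
          (derivative (sler X W)).eval (X.tm ρ0 M (W 0 0 0))) /
            (derivative (slD0 X (slW X W))).eval (X.tm ρ0 M (W 0 0 0)) -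
        ((derivative (slE1 X (slW X W))).eval (X.tm ρ0 M (W 1 0 0)) -
          (derivative (sler X W)).eval (X.tm ρ0 M (W 1 0 0))) /
            (derivative (slD1 X (slW X W))).eval (X.tm ρ0 M (W 1 0 0))| ≤ Gc →
    |(qst (X.vN ρ0 M) (X.vU ρ0 M) (W 0 0 0) (W 0 0 1) - X.vC ρ0 M (W 0 0 1)) -
      (qst (X.vN ρ0 M) (X.vU ρ0 M) (W 1 0 0) (W 1 0 1) - X.vC ρ0 M (W 1 0 1))| ≤
      Gc + 2 * ((2 * εg + K * (Lq * Lq * εu)) * θ / δ + K * (Lq * Lq * εu)) +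
        K₂ * ε2 * (2 * ρ0) := by
  obtain ⟨K₂, hK₂, hmk⟩ := mkv D
  refine ⟨K₂, hK₂, ?_⟩
  intro Ω Λ E N K X ρ0 M ε εu εg ε1 ε2 δ θ Lq Y W hdeg H h0 h1 hδ hu hεg Gc hG
  obtain ⟨a1, a2, a3, a4, a5, a6⟩ := H.hts
  obtain ⟨t1, t2, t3⟩ := H.times h0.le
  have hc : |(slW X W).2.2| ≤ 1 := H.hc
  have htm0 : X.tm ρ0 M (W 0 0 1) = X.tm ρ0 M (W 0 0 0) := by
    unfold SlD.tm
    rw [H.hcA, H.htA]
  have htm1 : X.tm ρ0 M (W 1 0 1) = X.tm ρ0 M (W 1 0 0) := by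
    unfold SlD.tm
    rw [H.hcB, H.htB]
  obtain ⟨A, hA⟩ : ∃ A, A = X.tm ρ0 M (W 0 0 0) := ⟨_, rfl⟩
  obtain ⟨B, hB⟩ : ∃ B, B = X.tm ρ0 M (W 1 0 0) := ⟨_, rfl⟩
  have hAb : |A| ≤ 3 / 2 := by
    have := abs_add_le (A - (slW X W).2.2) (slW X W).2.2
    rw [sub_add_cancel] at this
    rw [hA] at this ⊢
    linarith
  have hBb : |B| ≤ 3 / 2 := by
    have := abs_add_le (B - (slW X W).2.2) (slW X W).2.2
    rw [sub_add_cancel] at this
    rw [hB] at this ⊢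
    linarith
  rw [← hA, ← hB] at hG
  rw [← hA] at a1 t2
  rw [← hB] at a2 t3
  have hx0 : (derivative (slD0 X (slW X W))).eval A =
      X.vU ρ0 M (W 0 0 0) - X.vU ρ0 M (W 0 0 1) := a5 A
  have hx1 : (derivative (slD1 X (slW X W))).eval B =
      X.vU ρ0 M (W 1 0 0) - X.vU ρ0 M (W 1 0 1) := a6 B
  have hl1 : X.nL (X.l (W 1 0 1)) = X.nL (X.l (W 0 0 1)) := by rw [H.hl]
  have f0 := f_der (K := K) H.pr.qb (m := X.nL (X.l (W 0 0 0))) (n := X.nL (X.l (W 0 0 0)))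
      (n2 := X.nL (X.l (W 0 0 1))) (nr := X.nL (X.l (W 0 (Fin.succ 0) 1)))
      (gr := X.gC (X.ell (W 0 (Fin.succ 0) 1))) (D := slD0 X (slW X W))
      (x := A) (εg := εg) (εd := εu) hδ (by linarith) a1 hu
      (by rw [hx0]; exact H.stA.s0) (by rw [sub_self, abs_zero]; exact hεg)
      (H.sr.g1 _ (by linarith))
  have f1 := f_der (K := K) H.pr.qb (m := X.gC (X.ell (W 1 0 0))) (n := X.nL (X.l (W 1 0 0)))
      (n2 := X.nL (X.l (W 0 0 1))) (nr := X.nL (X.l (W 0 (Fin.succ 0) 1)))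
      (gr := X.gC (X.ell (W 0 (Fin.succ 0) 1))) (D := slD1 X (slW X W))
      (x := B) (εg := εg) (εd := εu) hδ (by linarith) a2 hu
      (by rw [hx1]; exact H.stB.s0) (H.s1.g1 _ (by linarith))
      (H.sr.g1 _ (by linarith))
  -- the slopes of the row
  obtain ⟨R, hR⟩ : ∃ R : ℝ[X], R = Qd (X.qk fun j => X.ell (W 0 j.succ 1))
      (X.ck fun j => X.ell (W 0 j.succ 1)) (slh X W) - X.cL (X.l (W 0 0 1)) := ⟨_, rfl⟩
  have hRd : R.natDegree ≤ D := by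
    rw [hR]
    exact (natDegree_sub_le _ _).trans (max_le (Qd_deg (hdeg.c _) _) (hdeg.cc _))
  have hRb : ∀ s : ℝ, |s| ≤ 1 → |R.eval s| ≤ ε2 := fun s hs => by
    rw [hR]
    exact H.pr.e2 s hs
  have hRm : |R.eval A - R.eval B| ≤ K₂ * ε2 * (2 * ρ0) := by
    have hAB : |A - B| ≤ 2 * ρ0 := by
      have := abs_sub_le A (slW X W).2.2 B
      rw [abs_sub_comm (slW X W).2.2 B] at this
      linarith
    have hε2 : 0 ≤ ε2 := (abs_nonneg _).trans (hRb 0 (by rw [abs_zero]; norm_num))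
    refine (mvt R (a := B) (b := A) (M := K₂ * ε2) fun s hs => ?_).trans
      (mul_le_mul_of_nonneg_left hAB (mul_nonneg (by linarith) hε2))
    have := (hmk R 0 1 ε2 hRd one_pos (fun s hs => hRb s (by rwa [sub_zero] at hs)) s (by
      have := abs_add_le (s - B) B
      rw [sub_add_cancel] at this
      rw [sub_zero]
      linarith)).2
    rwa [div_one] at this
  -- the quotients
  have q0 : qst (X.vN ρ0 M) (X.vU ρ0 M) (W 0 0 0) (W 0 0 1) =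
      ((derivative (X.nL (X.l (W 0 0 0)))).eval A - (derivative (X.nL (X.l (W 0 0 1)))).eval A) /
        (derivative (slD0 X (slW X W))).eval A := by
    unfold qst
    rw [hx0]
    unfold SlD.vN
    rw [htm0, ← hA]
  have q1 : qst (X.vN ρ0 M) (X.vU ρ0 M) (W 1 0 0) (W 1 0 1) =
      ((derivative (X.nL (X.l (W 1 0 0)))).eval B - (derivative (X.nL (X.l (W 0 0 1)))).eval B) /
        (derivative (slD1 X (slW X W))).eval B := by
    unfold qst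
    rw [hx1]
    unfold SlD.vN
    rw [htm1, ← hB, hl1]
  have c0 : X.vC ρ0 M (W 0 0 1) = (X.cL (X.l (W 0 0 1))).eval A := by
    unfold SlD.vC
    rw [htm0, ← hA]
  have c1 : X.vC ρ0 M (W 1 0 1) = (X.cL (X.l (W 0 0 1))).eval B := by
    unfold SlD.vC
    rw [htm1, ← hB, H.hl]
  obtain ⟨y0, hy0⟩ : ∃ y0, y0 = ((derivative (slE0 X (slW X W))).eval A -
    (derivative (sler X W)).eval A) / (derivative (slD0 X (slW X W))).eval A := ⟨_, rfl⟩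
  obtain ⟨y1, hy1⟩ : ∃ y1, y1 = ((derivative (slE1 X (slW X W))).eval B -
    (derivative (sler X W)).eval B) / (derivative (slD1 X (slW X W))).eval B := ⟨_, rfl⟩
  obtain ⟨R0, hR0⟩ : ∃ R0, R0 = (Qd (X.qk fun j => X.ell (W 0 j.succ 1))
    (X.ck fun j => X.ell (W 0 j.succ 1)) (slh X W)).eval A := ⟨_, rfl⟩
  obtain ⟨R1, hR1⟩ : ∃ R1, R1 = (Qd (X.qk fun j => X.ell (W 0 j.succ 1))
    (X.ck fun j => X.ell (W 0 j.succ 1)) (slh X W)).eval B := ⟨_, rfl⟩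
  have f0' : |y0 - (qst (X.vN ρ0 M) (X.vU ρ0 M) (W 0 0 0) (W 0 0 1) - R0)| ≤
      (2 * εg + K * (Lq * Lq * εu)) * θ / δ + K * (Lq * Lq * εu) := by
    rw [hy0, q0, hR0]
    exact f0
  have f1' : |y1 - (qst (X.vN ρ0 M) (X.vU ρ0 M) (W 1 0 0) (W 1 0 1) - R1)| ≤
      (2 * εg + K * (Lq * Lq * εu)) * θ / δ + K * (Lq * Lq * εu) := by
    rw [hy1, q1, hR1]
    exact f1
  rw [← hy0, ← hy1] at hG
  have hRm' : |(R0 - X.vC ρ0 M (W 0 0 1)) - (R1 - X.vC ρ0 M (W 1 0 1))| ≤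
      K₂ * ε2 * (2 * ρ0) := by
    rw [c0, c1, hR0, hR1]
    rw [hR, eval_sub, eval_sub] at hRm
    exact hRm
  have e1 : (qst (X.vN ρ0 M) (X.vU ρ0 M) (W 0 0 0) (W 0 0 1) - X.vC ρ0 M (W 0 0 1)) -
      (qst (X.vN ρ0 M) (X.vU ρ0 M) (W 1 0 0) (W 1 0 1) - X.vC ρ0 M (W 1 0 1)) =
      (y0 - y1) - (y0 - (qst (X.vN ρ0 M) (X.vU ρ0 M) (W 0 0 0) (W 0 0 1) - R0)) +
      (y1 - (qst (X.vN ρ0 M) (X.vU ρ0 M) (W 1 0 0) (W 1 0 1) - R1)) +
      ((R0 - X.vC ρ0 M (W 0 0 1)) - (R1 - X.vC ρ0 M (W 1 0 1))) := by ring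
  rw [e1]
  obtain ⟨z0, hz0⟩ : ∃ z0, z0 = y0 - (qst (X.vN ρ0 M) (X.vU ρ0 M) (W 0 0 0) (W 0 0 1) - R0) :=
    ⟨_, rfl⟩
  obtain ⟨z1, hz1⟩ : ∃ z1, z1 = y1 - (qst (X.vN ρ0 M) (X.vU ρ0 M) (W 1 0 0) (W 1 0 1) - R1) :=
    ⟨_, rfl⟩
  obtain ⟨z2, hz2⟩ : ∃ z2, z2 = (R0 - X.vC ρ0 M (W 0 0 1)) - (R1 - X.vC ρ0 M (W 1 0 1)) :=
    ⟨_, rfl⟩
  rw [← hz0] at f0' ⊢
  rw [← hz1] at f1' ⊢
  rw [← hz2] at hRm' ⊢
  have g1 := abs_add_le (y0 - y1 - z0 + z1) z2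
  have g2 := abs_add_le (y0 - y1 - z0) z1
  have g3 := abs_sub (y0 - y1) z0
  linarith

end

end Pool.SL77
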