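import Pool.Agent.H54.ND.Own

/-!
# A path which is small at a full time is small at all times

`rmz_all`: a polynomial which depends, up to `δ`, only on `W`, and is small at a time which is full
given `W`, is small for all times.
-/

set_option autoImplicit false

namespace Pool.SL77

open Finset
open Pool.Agent.H49.Ent Pool.Agent.H32.Dense Pool.STK
open Pool.BFL (Pb)
open Pool.STB (Pb_mono Pb_or)
open Pool.ND54 (tu)

/-- **A path which is small at a full time is small at all times.** -/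
theorem rmz_all (d : ℕ) : ∃ C : ℕ, 1 ≤ C ∧ ∀ (Ω Λ : Type) [Fintype Ω] (q : Ω → ℝ)
    (W : Ω → Λ) (t : Ω → ℤ) (R : Ω → Polynomial ℝ) (Sep : Λ → Prop) (M : ℕ)
    (e c₁ ρ δ η : ℝ), IsLaw q → 1 ≤ M → 0 < ρ → ρ < 1 →
    (C : ℝ) ≤ ρ ^ C * M → (∀ ω, 0 < q ω → |t ω| ≤ (M : ℤ)) →
    Real.log (2 * M + 1) - e ≤ CH q t W →
    (∀ ω, (R ω).natDegree ≤ d) → 0 ≤ δ → 0 ≤ η →
    (∀ ω ω', 0 < q ω → 0 < q ω' → W ω = W ω' → Sep (W ω) →
      ∀ τ ∈ Set.Icc (0 : ℝ) 1, |(R ω).eval τ - (R ω').eval τ| ≤ δ) →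
    Pb q (fun ω => ¬ (Sep (W ω) ∧ |(R ω).eval (tu M (t ω))| ≤ η)) ≤ c₁ → 0 < η + δ →
    Pb q (fun ω => ¬ (Sep (W ω) ∧ ∀ τ ∈ Set.Icc (0 : ℝ) 1,
      |(R ω).eval τ| ≤ C / ρ ^ C * (η + δ))) ≤
      3 * c₁ + (e + Real.log 2) / Real.log (1 / ρ) := by
  classical
  obtain ⟨C, hC, hone⟩ := Pool.ND54.lvl_one d
  refine ⟨13 * C, by omega, ?_⟩
  intro Ω Λ _ q W t R Sep M e c₁ ρ δ η hql hM hρ hρ1 hCM htM hft hdeg hδ hη hrep hgood hηδ
  have q0 := hql.nonneg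
  have hC1 : (1 : ℝ) ≤ C := by exact_mod_cast hC
  have hM0 : (1 : ℝ) ≤ M := by exact_mod_cast hM
  have hρC : 0 < ρ ^ C := pow_pos hρ C
  have hρC1 : ρ ^ C ≤ 1 := pow_le_one₀ hρ.le hρ1.le
  have hρle : ρ ^ (13 * C) ≤ ρ ^ C := pow_le_pow_of_le_one hρ.le hρ1.le (by omega)
  have hρ9 : 0 < ρ ^ (13 * C) := pow_pos hρ _
  have hcc : ((13 * C : ℕ) : ℝ) = 13 * C := by push_cast; ring
  have hCM1 : (C : ℝ) ≤ ρ ^ C * M := by
    rw [hcc] at hCM
    have h2 : ρ ^ (13 * C) * M ≤ ρ ^ C * M := mul_le_mul_of_nonneg_right hρle (by linarith)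
    linarith
  -- a crude bound
  obtain ⟨Bd, hBd0, hBd⟩ : ∃ Bd : ℝ, 0 ≤ Bd ∧ ∀ ω, ∀ τ ∈ Set.Icc (0 : ℝ) 1,
      |(R ω).eval τ| ≤ Bd := by
    refine ⟨∑ ω, ∑ i ∈ range (d + 1), |(R ω).coeff i|, by positivity, fun ω τ hτ => ?_⟩
    rw [Polynomial.eval_eq_sum_range' (Nat.lt_succ_of_le (hdeg ω))]
    refine (Finset.abs_sum_le_sum_abs _ _).trans ?_
    refine (Finset.sum_le_sum (g := fun i => |(R ω).coeff i|) fun i _ => ?_).trans ?_
    · rw [abs_mul, abs_pow, abs_of_nonneg hτ.1]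
      calc |(R ω).coeff i| * τ ^ i ≤ |(R ω).coeff i| * 1 :=
            mul_le_mul_of_nonneg_left (pow_le_one₀ hτ.1 hτ.2) (abs_nonneg _)
        _ = |(R ω).coeff i| := mul_one _
    · exact Finset.single_le_sum (f := fun ω => ∑ i ∈ range (d + 1), |(R ω).coeff i|)
        (fun ω _ => Finset.sum_nonneg fun i _ => abs_nonneg _) (Finset.mem_univ ω)
  -- the scale
  obtain ⟨Xd, hX⟩ : ∃ Xd : ℕ, 1 ≤ 2 ^ Xd * (η + δ) := by
    obtain ⟨Xd, h1⟩ := pow_unbounded_of_one_lt (1 / (η + δ)) (by norm_num : (1 : ℝ) < 2)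
    refine ⟨Xd, ?_⟩
    rw [div_lt_iff₀ hηδ] at h1
    exact h1.le
  have hX0 : (0 : ℝ) < 2 ^ Xd := by positivity
  obtain ⟨K, hK⟩ : ∃ K : ℝ, K = 2 * (2 ^ Xd * (η + δ)) := ⟨_, rfl⟩
  have hK1 : 1 ≤ K := by rw [hK]; linarith
  obtain ⟨α₀, hα1, hα2⟩ := exists_nat_pow_near hK1 (by norm_num : (1 : ℝ) < 2)
  obtain ⟨V₀, hV₀⟩ : ∃ V₀ : ℝ, V₀ = C * 2 ^ (α₀ + 1) / ρ ^ C := ⟨_, rfl⟩
  obtain ⟨V₁, hV₁⟩ : ∃ V₁ : ℝ, V₁ = 2 ^ Xd * (2 * (Bd + δ)) := ⟨_, rfl⟩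
  obtain ⟨β, hβ⟩ : ∃ β : ℕ, V₁ < 2 ^ β := pow_unbounded_of_one_lt V₁ (by norm_num)
  have hV₀0 : 0 < V₀ := by rw [hV₀]; positivity
  have key := hone Ω Λ Unit q W t (fun _ => ()) R (fun _ => 0) Sep (fun _ => True)
    (fun _ _ => {0}) 1 M Xd (fun _ => 1) (fun _ => α₀ + 1) (fun _ => α₀ + 1 + β)
    (fun k => if k = 0 then V₀ else V₁) K e 0 c₁ ρ δ η Bd hql hM hρ hρ1
    (by linarith [mul_nonneg hρC.le (by linarith : (0 : ℝ) ≤ M)]) htM hft hdeg hδ (by linarith)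
    hrep (by
      refine le_trans (Pb_mono q0 ?_) hgood
      intro ω _ h h2
      apply h
      refine ⟨h2.1, hBd ω, ?_⟩
      rw [zero_sub, abs_neg]
      exact h2.2) (by
      intro k hk ω _ _
      simp) (by
      intro k hk w
      simp) (by
      refine le_of_eq ?_
      unfold Pb
      refine Finset.sum_eq_zero fun ω _ => ?_
      simp) (by
      rw [hK]
      linarith) (by
      rw [if_neg (by omega), hV₁]) (by
      intro k hk
      have hk0 : k = 0 := by omega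
      rw [hk0]
      refine ⟨by omega, hα2.le, ?_, ?_, ?_, ?_⟩
      · rw [if_pos rfl]
        exact hV₀0
      · rw [if_neg (by omega), pow_add]
        have : (1 : ℝ) ≤ 2 ^ (α₀ + 1) := one_le_pow₀ (by norm_num)
        have h3 : (0 : ℝ) ≤ 2 ^ β := by positivity
        nlinarith
      · rw [if_pos rfl, hV₀]
        have e1 : ρ ^ C * (C * 2 ^ (α₀ + 1) / ρ ^ C) = C * 2 ^ (α₀ + 1) := by
          field_simp
        rw [e1]
        simp
      · simp only [Nat.cast_one, mul_one]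
        exact hCM1)
  refine le_trans (Pb_mono q0 ?_) (key.trans (le_of_eq ?_))
  · intro ω _ h h2
    apply h
    refine ⟨h2.1, fun τ hτ => ?_⟩
    have h3 := h2.2 τ hτ
    rw [zero_sub, abs_neg, if_pos rfl] at h3
    refine h3.trans ?_
    have h4 : (2 : ℝ) ^ (α₀ + 1) ≤ 2 * K := by rw [pow_succ]; linarith
    have h5 : V₀ ≤ C * (2 * K) / ρ ^ C := by
      rw [hV₀]
      exact div_le_div_of_nonneg_right (mul_le_mul_of_nonneg_left h4 (by linarith)) hρC.le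
    have h6 : K ≤ C * K / ρ ^ C := by
      rw [le_div_iff₀ hρC]
      have a1 : K * ρ ^ C ≤ K * 1 := mul_le_mul_of_nonneg_left hρC1 (by linarith)
      have a2 : 1 * K ≤ C * K := mul_le_mul_of_nonneg_right hC1 (by linarith)
      linarith
    have h7 : (2 * K + 2 * V₀) / 2 ^ Xd ≤ 12 * C / ρ ^ C * (η + δ) := by
      rw [div_le_iff₀ hX0]
      have e2 : C * (2 * K) / ρ ^ C = 2 * (C * K / ρ ^ C) := by ring
      rw [e2] at h5
      have e3 : 12 * C / ρ ^ C * (η + δ) * 2 ^ Xd = 6 * (C * K / ρ ^ C) := by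
        rw [hK]
        ring
      rw [e3]
      linarith
    have h8 : δ ≤ C / ρ ^ C * (η + δ) := by
      have a1 : 1 ≤ C / ρ ^ C := by
        rw [le_div_iff₀ hρC]
        linarith
      have a2 : 1 * (η + δ) ≤ C / ρ ^ C * (η + δ) := mul_le_mul_of_nonneg_right a1 hηδ.le
      linarith
    have h9 : 13 * C / ρ ^ C * (η + δ) ≤ ((13 * C : ℕ) : ℝ) / ρ ^ (13 * C) * (η + δ) := by
      rw [hcc]
      refine mul_le_mul_of_nonneg_right ?_ hηδ.le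
      exact div_le_div_of_nonneg_left (by positivity) hρ9 hρle
    refine le_trans ?_ h9
    have e4 : 13 * C / ρ ^ C * (η + δ) = 12 * C / ρ ^ C * (η + δ) + C / ρ ^ C * (η + δ) := by ring
    rw [e4]
    linarith
  · push_cast
    ring

/-- **The slopes of a tuple**, law level. -/
theorem slp_tup (D d : ℕ) : ∃ C : ℕ, 1 ≤ C ∧ ∀ (Ω Λ L Y : Type) [Fintype Ω] (q : Ω → ℝ)
    (y : Ω → Y) (σ : Ω → Λ) (ell : Ω → L) (t : Ω → ℤ) (cP : Λ → Polynomial ℝ)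
    (hL : L → ℝ) (M : ℕ) (e c₁ ρ δC η s Su Lb : ℝ), IsLaw q → 1 ≤ M → 0 < ρ → ρ < 1 →
    (C : ℝ) ≤ ρ ^ C * M → (∀ ω, 0 < q ω → |t ω| ≤ (M : ℤ)) →
    Real.log (2 * M + 1) - e ≤ CH (Pool.K2S.cpn q y (2 * D + 1)) (fun w => t (w 0))
      (fun w => (σ (w 0), fun i => ell (w i))) →
    (∀ l, (cP l).natDegree ≤ d) → 0 ≤ δC → 0 < η → 0 < s → 0 ≤ Su → Lb = (Su / s) ^ (D - 1) →
    (∀ ω ω', 0 < q ω → 0 < q ω' → ell ω = ell ω' → ∀ τ ∈ Set.Icc (0 : ℝ) 1,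
      |(cP (σ ω)).eval τ - (cP (σ ω')).eval τ| ≤ δC) →
    Pb (Pool.K2S.cpn q y (2 * D + 1)) (fun w => ¬ ((∀ i j, i ≠ j →
        s ≤ |hL (ell (w i)) - hL (ell (w j))| ∧ |hL (ell (w i)) - hL (ell (w j))| ≤ Su) ∧
      |(cP (σ (w 0))).eval (tu M (t (w 0))) - ∑ k : Fin D, (Lagrange.basis Finset.univ
          (fun k : Fin D => hL (ell (w (Pool.ND54.ai k)))) k).eval (hL (ell (w 0))) *
          (cP (σ (w (Pool.ND54.ai k)))).eval (tu M (t (w 0)))| ≤ η)) ≤ c₁ →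
    Pb (Pool.K2S.cpn q y (2 * D + 1)) (fun w => ¬ ((∀ i j, i ≠ j →
        s ≤ |hL (ell (w i)) - hL (ell (w j))| ∧ |hL (ell (w i)) - hL (ell (w j))| ≤ Su) ∧
      ∀ τ ∈ Set.Icc (0 : ℝ) 1, |(cP (σ (w 0))).eval τ - ∑ k : Fin D, (Lagrange.basis Finset.univ
          (fun k : Fin D => hL (ell (w (Pool.ND54.ai k)))) k).eval (hL (ell (w 0))) *
          (cP (σ (w (Pool.ND54.ai k)))).eval τ| ≤ C / ρ ^ C * (η + D * Lb * δC))) ≤
      3 * c₁ + (e + Real.log 2) / Real.log (1 / ρ) := by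
  classical
  obtain ⟨C, hC, hrmz⟩ := rmz_all d
  refine ⟨C, hC, ?_⟩
  intro Ω Λ L Y _ q y σ ell t cP hL M e c₁ ρ δC η s Su Lb hql hM hρ hρ1 hCM htM hft hcd hδC hη hs
    hSu hLb hell hgood
  obtain ⟨Q, hQ⟩ : ∃ Q, Q = Pool.K2S.cpn q y (2 * D + 1) := ⟨_, rfl⟩
  have hQl : IsLaw Q := by rw [hQ]; exact Pool.CLU.cpn_law hql y _
  have Q0 := hQl.nonneg
  rw [← hQ] at hft hgood ⊢
  have hpos : ∀ w, 0 < Q w → ∀ i, 0 < q (w i) := by
    intro w hw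
    rw [hQ] at hw
    exact (Pool.CLU.cpn_pos hql.nonneg y _ w hw).1
  have hLb0 : 0 ≤ Lb := by rw [hLb]; positivity
  obtain ⟨W, hW⟩ : ∃ W : (Fin (2 * D + 1 + 1) → Ω) → Λ × (Fin (2 * D + 1 + 1) → L),
      W = fun w => (σ (w 0), fun i => ell (w i)) := ⟨_, rfl⟩
  obtain ⟨Sep, hSep⟩ : ∃ Sep : Λ × (Fin (2 * D + 1 + 1) → L) → Prop, Sep = fun l =>
      ∀ i j, i ≠ j → s ≤ |hL (l.2 i) - hL (l.2 j)| ∧ |hL (l.2 i) - hL (l.2 j)| ≤ Su := ⟨_, rfl⟩
  obtain ⟨Be, hBe⟩ : ∃ Be : Λ × (Fin (2 * D + 1 + 1) → L) → Fin D → ℝ, Be = fun l k =>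
      (Lagrange.basis Finset.univ (fun k : Fin D => hL (l.2 (Pool.ND54.ai k))) k).eval
        (hL (l.2 0)) := ⟨_, rfl⟩
  obtain ⟨R, hR⟩ : ∃ R : (Fin (2 * D + 1 + 1) → Ω) → Polynomial ℝ, R = fun w => cP (σ (w 0)) -
      ∑ k : Fin D, Polynomial.C (Be (W w) k) * cP (σ (w (Pool.ND54.ai k))) := ⟨_, rfl⟩
  have hRe : ∀ w τ, (R w).eval τ = (cP (σ (w 0))).eval τ - ∑ k : Fin D, Be (W w) k *
      (cP (σ (w (Pool.ND54.ai k)))).eval τ := by
    intro w τ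
    rw [hR]
    simp only [Polynomial.eval_sub, Polynomial.eval_finsetSum, Polynomial.eval_mul,
      Polynomial.eval_C]
  have hbas : ∀ l, Sep l → ∀ k, |Be l k| ≤ Lb := by
    intro l hl k
    rw [hSep] at hl
    rw [hBe, hLb]
    refine Pool.NDD66.bas_le hs (fun i j hij => (hl _ _ fun h => hij (Pool.ND54.ai_inj h)).1)
      (fun j => ?_) k
    by_cases h0 : (0 : Fin (2 * D + 1 + 1)) = Pool.ND54.ai j
    · rw [← h0, sub_self, abs_zero]
      exact hSu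
    · exact (hl _ _ h0).2
  have key := hrmz _ _ Q W (fun w => t (w 0)) R Sep M e c₁ ρ (D * Lb * δC) η hQl hM hρ hρ1 hCM
    (fun w hw => htM _ (hpos w hw 0)) (by rw [hW]; exact hft) (fun w => by
      rw [hR]
      refine (Polynomial.natDegree_sub_le _ _).trans (max_le (hcd _) ?_)
      exact Polynomial.natDegree_sum_le_of_forall_le _ _ fun k _ =>
        (Polynomial.natDegree_C_mul_le _ _).trans (hcd _)) (by positivity) hη.le
    (fun w w' hw hw' hWW hsep τ hτ => by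
      have h1 : σ (w 0) = σ (w' 0) ∧ ∀ i, ell (w i) = ell (w' i) := by
        rw [hW] at hWW
        exact ⟨(Prod.ext_iff.1 hWW).1, fun i => congrFun (Prod.ext_iff.1 hWW).2 i⟩
      rw [hRe, hRe, ← hWW, ← h1.1]
      have e1 : (cP (σ (w 0))).eval τ - ∑ k : Fin D, Be (W w) k *
          (cP (σ (w (Pool.ND54.ai k)))).eval τ - ((cP (σ (w 0))).eval τ - ∑ k : Fin D,
          Be (W w) k * (cP (σ (w' (Pool.ND54.ai k)))).eval τ) = -∑ k : Fin D, Be (W w) k *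
          ((cP (σ (w (Pool.ND54.ai k)))).eval τ - (cP (σ (w' (Pool.ND54.ai k)))).eval τ) := by
        have e2 : ∑ k : Fin D, Be (W w) k *
          ((cP (σ (w (Pool.ND54.ai k)))).eval τ - (cP (σ (w' (Pool.ND54.ai k)))).eval τ) =
          ∑ k : Fin D, Be (W w) k * (cP (σ (w (Pool.ND54.ai k)))).eval τ -
          ∑ k : Fin D, Be (W w) k * (cP (σ (w' (Pool.ND54.ai k)))).eval τ := by
          rw [← Finset.sum_sub_distrib]
          exact Finset.sum_congr rfl fun k _ => by ring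
        rw [e2]
        ring
      rw [e1, abs_neg]
      refine (Finset.abs_sum_le_sum_abs _ _).trans ?_
      refine (Finset.sum_le_sum (g := fun _ => Lb * δC) fun k _ => ?_).trans (le_of_eq ?_)
      · rw [abs_mul]
        exact mul_le_mul (hbas _ hsep k)
          (hell _ _ (hpos w hw _) (hpos w' hw' _) (h1.2 _) τ hτ) (abs_nonneg _) hLb0
      · rw [Finset.sum_const, Finset.card_univ, Fintype.card_fin, nsmul_eq_mul]
        ring) (by
      refine le_trans (Pb_mono Q0 ?_) hgood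
      intro w _ h h2
      apply h
      refine ⟨by rw [hSep, hW]; exact h2.1, ?_⟩
      rw [hRe, hBe, hW]
      exact h2.2) (by positivity)
  refine le_trans (Pb_mono Q0 ?_) key
  intro w _ h h2
  apply h
  refine ⟨?_, fun τ hτ => ?_⟩
  · have h3 := h2.1
    rw [hSep, hW] at h3
    exact h3
  · have h3 := h2.2 τ hτ
    rw [hRe, hBe, hW] at h3
    exact h3

end Pool.SL77
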