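import Pool.Agent.H77.SL.Cor
import Pool.Agent.H77.ND.Two

/-!
# The triangle on one line, law level

`Tri`: the hypotheses of `star_core` for one configuration. `tri_ev`: an arbitrary law `q` and an
arbitrary conditioning `W`, the time `t` is full given `W`, the level `nu` of the last line takes few
values in all blocks: the two normalized derivatives are near, off a small event.
-/

set_option autoImplicit false

namespace Pool.SL77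

open Finset Polynomial
open Pool.Agent.H49.Ent Pool.Agent.H32.Dense Pool.STK
open Pool.BFL (Pb)
open Pool.STB (Pb_mono Pb_or)

/-- The relations of the triangle. -/
structure Tri (E0 E1 er D0 D1 : ℝ[X]) (A B c0 ρ0 ρt δ θ κ ε1 X ε εu : ℝ) : Prop where
  hc : |c0| ≤ 1
  hA : |A - c0| ≤ ρ0
  hB : |B - c0| ≤ ρ0
  g0 : ∀ s : ℝ, |s - A| ≤ ρt → |E0.eval s - er.eval s| ≤ X
  a0 : |E0.eval A - er.eval A| ≤ ε
  g1 : ∀ s : ℝ, |s - B| ≤ ρt → |E1.eval s - er.eval s| ≤ X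
  a1 : |E1.eval B - er.eval B| ≤ ε
  he : ∀ s : ℝ, |s| ≤ 1 → |er.eval s| ≤ ε1
  d0 : ∀ s : ℝ, |s| ≤ 2 → |(derivative (derivative D0)).eval s| ≤ κ
  d1 : ∀ s : ℝ, |s| ≤ 2 → |(derivative (derivative D1)).eval s| ≤ κ
  s0 : δ ≤ θ * |(derivative D0).eval c0|
  s1 : δ ≤ θ * |(derivative D1).eval c0|
  hu : |D0.eval A - D1.eval B| ≤ εu

/-- The polynomial of the level. -/
noncomputable def triP (E0 E1 D0 D1 : ℝ[X]) (c0 ρ0 : ℝ) : ℝ[X] :=
  E0.comp (C c0 + C ρ0 * X) -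
    E1.comp (C (c0 + (D0.eval c0 - D1.eval c0) / (derivative D1).eval c0) +
      C ((derivative D0).eval c0 / (derivative D1).eval c0 * ρ0) * X)

theorem triP_eval (E0 E1 D0 D1 : ℝ[X]) (c0 ρ0 τ : ℝ) :
    (triP E0 E1 D0 D1 c0 ρ0).eval τ = E0.eval (c0 + ρ0 * τ) -
      E1.eval (c0 + (D0.eval c0 - D1.eval c0 +
        (derivative D0).eval c0 * (c0 + ρ0 * τ - c0)) / (derivative D1).eval c0) := by
  unfold triP
  simp only [eval_sub, eval_comp, eval_add, eval_mul, eval_C, eval_X]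
  congr 2
  ring

theorem triP_der (E0 E1 D0 D1 : ℝ[X]) (c0 ρ0 τ : ℝ) :
    (derivative (triP E0 E1 D0 D1 c0 ρ0)).eval τ =
      ρ0 * ((derivative E0).eval (c0 + ρ0 * τ) -
        (derivative D0).eval c0 / (derivative D1).eval c0 *
          (derivative E1).eval (c0 + (D0.eval c0 - D1.eval c0 +
            (derivative D0).eval c0 * (c0 + ρ0 * τ - c0)) / (derivative D1).eval c0)) := by
  have e1 : c0 + (D0.eval c0 - D1.eval c0 +
      (derivative D0).eval c0 * (c0 + ρ0 * τ - c0)) / (derivative D1).eval c0 =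
      c0 + (D0.eval c0 - D1.eval c0) / (derivative D1).eval c0 +
        (derivative D0).eval c0 / (derivative D1).eval c0 * ρ0 * τ := by ring
  rw [e1]
  unfold triP
  simp only [derivative_sub, derivative_comp, derivative_add, derivative_C, derivative_mul,
    derivative_X, zero_add, zero_mul, mul_one, eval_sub, eval_mul, eval_comp, eval_add, eval_C,
    eval_X]
  ring

theorem triP_deg {E0 E1 : ℝ[X]} {D : ℕ} (D0 D1 : ℝ[X]) (c0 ρ0 : ℝ) (h0 : E0.natDegree ≤ D)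
    (h1 : E1.natDegree ≤ D) : (triP E0 E1 D0 D1 c0 ρ0).natDegree ≤ D := by
  have hlin : ∀ a b : ℝ, (C a + C b * X : ℝ[X]).natDegree ≤ 1 := by
    intro a b
    refine (natDegree_add_le _ _).trans (max_le ?_ ?_)
    · rw [natDegree_C]
      exact Nat.zero_le _
    · exact (natDegree_C_mul_le _ _).trans natDegree_X_le
  have hc : ∀ (E : ℝ[X]) (a b : ℝ), E.natDegree ≤ D →
      (E.comp (C a + C b * X)).natDegree ≤ D := by
    intro E a b h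
    refine natDegree_comp_le.trans ?_
    calc E.natDegree * (C a + C b * X : ℝ[X]).natDegree ≤ D * 1 := Nat.mul_le_mul h (hlin a b)
      _ = D := Nat.mul_one D
  unfold triP
  exact (natDegree_sub_le _ _).trans (max_le (hc E0 _ _ h0) (hc E1 _ _ h1))

/-- **The triangle on one line, law level.** -/
theorem tri_ev (D : ℕ) : ∃ (K : ℝ) (C₀ : ℕ), 1 ≤ K ∧ 1 ≤ C₀ ∧ ∀ (Ω Λ X' : Type) [Fintype Ω]
    (q : Ω → ℝ) (W : Ω → Λ) (t : Ω → ℤ) (x : Λ → X') (E0 E1 D0 D1 : Λ → ℝ[X]) (c0 : Λ → ℝ)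
    (er : Ω → ℝ[X]) (B lr l1 : Ω → ℝ) (ν : Ω → ℤ) (Bν : Ω → Prop)
    (S : ℕ → X' × ℤ → Finset ℤ) (n M : ℕ) (N a b : ℕ → ℕ) (V : ℕ → ℝ)
    (ρ0 ρt δ θ κ ε1 X ε εu η e c₀ c₁ c₂ ρ Kν : ℝ),
    IsLaw q → 1 ≤ M → 0 < ρ → ρ < 1 → (C₀ : ℝ) ≤ ρ ^ C₀ * (2 * M + 1) →
    (∀ ω, 0 < q ω → |t ω| ≤ (M : ℤ)) → Real.log (2 * M + 1) - e ≤ CH q t W →
    (∀ l, (E0 l).natDegree ≤ D) → (∀ l, (E1 l).natDegree ≤ D) → (∀ ω, (er ω).natDegree ≤ D) →
    0 < ρt → ρt ≤ ρ0 → ρ0 ≤ 1 / 2 → 0 < δ → 1 ≤ θ → 0 ≤ κ → θ * κ * ρ0 ≤ δ / 2 →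
    θ * εu / δ + 2 * θ * κ * ρ0 ^ 2 / δ ≤ η → η ≤ ρt →
    Pb q (fun ω => ¬ (Tri (E0 (W ω) - C (lr ω)) (E1 (W ω) + C (l1 ω - lr ω)) (er ω)
      (D0 (W ω)) (D1 (W ω)) (c0 (W ω) + ρ0 * ((t ω : ℝ) / M)) (B ω) (c0 (W ω)) ρ0 ρt δ θ κ ε1 X
      ε εu ∧ |(ν ω : ℝ) - l1 ω| ≤ 1)) ≤ c₁ →
    2 * ε + K * (ε1 * ρ0 + X / ρt * η) + 1 ≤ Kν →
    (∀ k < n, ∀ ω, 0 < q ω → Bν ω → ν ω / 2 ^ a k ∈ S k (x (W ω), ν ω / 2 ^ b k)) →
    (∀ k < n, ∀ w, (S k w).card ≤ N k) → Pb q (fun ω => ¬ Bν ω) ≤ c₀ →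
    Pb q (fun ω => ¬ ∀ s : ℝ, |s| ≤ 1 →
      |(triP (E0 (W ω)) (E1 (W ω)) (D0 (W ω)) (D1 (W ω)) (c0 (W ω)) ρ0).eval s -
        (triP (E0 (W ω)) (E1 (W ω)) (D0 (W ω)) (D1 (W ω)) (c0 (W ω)) ρ0).eval 0| ≤ V n) ≤ c₂ →
    (∀ k < n, a k ≤ b k ∧ Kν ≤ 2 ^ a k ∧ 0 < V k ∧ V (k + 1) ≤ 2 ^ b k ∧
      (C₀ : ℝ) * N k * 2 ^ a k ≤ ρ ^ C₀ * V k ∧ (C₀ : ℝ) * N k ≤ ρ ^ C₀ * M) →
    Pb q (fun ω => ¬ |((derivative (E0 (W ω))).eval (c0 (W ω) + ρ0 * ((t ω : ℝ) / M)) -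
          (derivative (er ω)).eval (c0 (W ω) + ρ0 * ((t ω : ℝ) / M))) /
            (derivative (D0 (W ω))).eval (c0 (W ω) + ρ0 * ((t ω : ℝ) / M)) -
        ((derivative (E1 (W ω))).eval (B ω) - (derivative (er ω)).eval (B ω)) /
            (derivative (D1 (W ω))).eval (B ω)| ≤
        K * (θ / δ) * (V 0 / ρ0 + (X / ρt ^ 2 + ε1) * η + (X / ρt + ε1) * (θ * κ * ρ0 / δ) + ε1)) ≤
      c₀ + 2 * c₁ + c₂ + n * ((e + Real.log 2) / Real.log (1 / ρ)) := by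
  classical
  obtain ⟨K₁, hK₁, hcore⟩ := star_core D
  obtain ⟨K₂, hK₂, hmk⟩ := mkv D
  obtain ⟨C₀, hC₀, htwo⟩ := Pool.ND77.two_lineG D
  refine ⟨K₁ * K₂, C₀, one_le_mul_of_one_le_of_one_le hK₁ hK₂, hC₀, ?_⟩
  intro Ω Λ X' _ q W t x E0 E1 D0 D1 c0 er B lr l1 ν Bν S n M N a b V ρ0 ρt δ θ κ ε1 X ε εu η e
    c₀ c₁ c₂ ρ Kν hql hM hρ hρ1 hCM htM hft hE0 hE1 her hρt hρt0 hρ0 hδ hθ hκ hθρ hη hηt hT hKν hrow
    hcard hB htop hnum
  have q0 := hql.nonneg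
  have hθ0 : 0 < θ := by linarith
  have hρ00 : 0 < ρ0 := by linarith
  have hK12 : K₁ ≤ K₁ * K₂ := by nlinarith
  obtain ⟨P, hP⟩ : ∃ P : Λ → ℝ[X], P = fun l => triP (E0 l) (E1 l) (D0 l) (D1 l) (c0 l) ρ0 :=
    ⟨_, rfl⟩
  obtain ⟨Gd, hGd⟩ : ∃ Gd : Ω → Prop, Gd = fun ω => Tri (E0 (W ω) - C (lr ω))
      (E1 (W ω) + C (l1 ω - lr ω)) (er ω) (D0 (W ω)) (D1 (W ω))
      (c0 (W ω) + ρ0 * ((t ω : ℝ) / M)) (B ω) (c0 (W ω)) ρ0 ρt δ θ κ ε1 X ε εu ∧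
        |(ν ω : ℝ) - l1 ω| ≤ 1 := ⟨_, rfl⟩
  have hGd1 : Pb q (fun ω => ¬ Gd ω) ≤ c₁ := by
    rw [hGd]
    exact hT
  -- the core at one configuration
  have hcr : ∀ ω, Gd ω →
      |(ν ω : ℝ) - (P (W ω)).eval ((t ω : ℝ) / M)| ≤ Kν ∧
      ∀ V' : ℝ, |(derivative (E0 (W ω))).eval (c0 (W ω) + ρ0 * ((t ω : ℝ) / M)) -
        (derivative (D0 (W ω))).eval (c0 (W ω)) / (derivative (D1 (W ω))).eval (c0 (W ω)) *
          (derivative (E1 (W ω))).eval (c0 (W ω) + ((D0 (W ω)).eval (c0 (W ω)) -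
            (D1 (W ω)).eval (c0 (W ω)) + (derivative (D0 (W ω))).eval (c0 (W ω)) *
              (c0 (W ω) + ρ0 * ((t ω : ℝ) / M) - c0 (W ω))) /
                (derivative (D1 (W ω))).eval (c0 (W ω)))| ≤ V' →
      |((derivative (E0 (W ω))).eval (c0 (W ω) + ρ0 * ((t ω : ℝ) / M)) -
          (derivative (er ω)).eval (c0 (W ω) + ρ0 * ((t ω : ℝ) / M))) /
            (derivative (D0 (W ω))).eval (c0 (W ω) + ρ0 * ((t ω : ℝ) / M)) -
        ((derivative (E1 (W ω))).eval (B ω) - (derivative (er ω)).eval (B ω)) /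
            (derivative (D1 (W ω))).eval (B ω)| ≤
        K₁ * (θ / δ) * (V' + (X / ρt ^ 2 + ε1) * η + (X / ρt + ε1) * (θ * κ * ρ0 / δ) + ε1) := by
    intro ω hω
    rw [hGd] at hω
    obtain ⟨⟨h1, h2, h3, h4, h5, h6, h7, h8, h9, h10, h11, h12, h13⟩, h14⟩ := hω
    obtain ⟨k1, k2⟩ := hcore (E0 (W ω) - C (lr ω)) (E1 (W ω) + C (l1 ω - lr ω)) (er ω)
      (D0 (W ω)) (D1 (W ω)) (c0 (W ω) + ρ0 * ((t ω : ℝ) / M)) (B ω) (c0 (W ω)) ρ0 ρt δ θ κ ε1 X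
      ε εu η
      ((natDegree_sub_le _ _).trans (max_le (hE0 _) (by rw [natDegree_C]; exact Nat.zero_le _)))
      ((natDegree_add_le _ _).trans (max_le (hE1 _) (by rw [natDegree_C]; exact Nat.zero_le _)))
      (her ω) hρt hρt0 hρ0 hδ hθ hθρ h1 h2 h3 h4 h5 h6 h7 h8 h9 h10 h11 h12 h13 hη hηt
    have hX0 : 0 ≤ X := (abs_nonneg _).trans (h4 _ (by rw [sub_self, abs_zero]; exact hρt.le))
    have he10 : 0 ≤ ε1 := (abs_nonneg _).trans (h8 0 (by rw [abs_zero]; norm_num))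
    have hη0 : 0 ≤ η := by
      have : 0 ≤ εu := (abs_nonneg _).trans h13
      exact le_trans (by positivity) hη
    constructor
    · rw [eval_sub, eval_add, eval_C, eval_C] at k1
      have e1 : (ν ω : ℝ) - (P (W ω)).eval ((t ω : ℝ) / M) = ((ν ω : ℝ) - l1 ω) -
          ((E0 (W ω)).eval (c0 (W ω) + ρ0 * ((t ω : ℝ) / M)) - lr ω -
          ((E1 (W ω)).eval (c0 (W ω) + ((D0 (W ω)).eval (c0 (W ω)) -
            (D1 (W ω)).eval (c0 (W ω)) + (derivative (D0 (W ω))).eval (c0 (W ω)) *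
              (c0 (W ω) + ρ0 * ((t ω : ℝ) / M) - c0 (W ω))) /
                (derivative (D1 (W ω))).eval (c0 (W ω))) + (l1 ω - lr ω))) := by
        rw [hP, triP_eval]
        ring
      rw [e1]
      refine (abs_sub _ _).trans ?_
      have e2 : K₁ * (ε1 * ρ0 + X / ρt * η) ≤ K₁ * K₂ * (ε1 * ρ0 + X / ρt * η) :=
        mul_le_mul_of_nonneg_right hK12 (by positivity)
      linarith
    · intro V' hV'
      have e1 : ∀ c : ℝ, derivative (E0 (W ω) - C c) = derivative (E0 (W ω)) := fun c => by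
        rw [derivative_sub, derivative_C, sub_zero]
      have e2 : ∀ c : ℝ, derivative (E1 (W ω) + C c) = derivative (E1 (W ω)) := fun c => by
        rw [derivative_add, derivative_C, add_zero]
      rw [e1, e2] at k2
      exact k2 V' hV'
  -- the level in a full time
  have h2 := htwo Ω Λ X' q W t x P ν Bν S n M N a b V Kν e c₀ c₁ c₂ ρ hql hM hρ hρ1 hCM htM hft
    (fun l => by rw [hP]; exact triP_deg _ _ _ _ (hE0 l) (hE1 l))
    ((Pb_mono q0 fun ω _ h hc => h ((hcr ω hc).1)).trans hGd1) hrow hcard hB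
    (by rw [hP]; exact htop) hnum
  have h3 : Pb q (fun ω => ¬ |((derivative (E0 (W ω))).eval (c0 (W ω) + ρ0 * ((t ω : ℝ) / M)) -
          (derivative (er ω)).eval (c0 (W ω) + ρ0 * ((t ω : ℝ) / M))) /
            (derivative (D0 (W ω))).eval (c0 (W ω) + ρ0 * ((t ω : ℝ) / M)) -
        ((derivative (E1 (W ω))).eval (B ω) - (derivative (er ω)).eval (B ω)) /
            (derivative (D1 (W ω))).eval (B ω)| ≤
        K₁ * K₂ * (θ / δ) *
          (V 0 / ρ0 + (X / ρt ^ 2 + ε1) * η + (X / ρt + ε1) * (θ * κ * ρ0 / δ) + ε1)) ≤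
      Pb q (fun ω => ¬ Gd ω ∨ ¬ ∀ s : ℝ, |s| ≤ 1 →
        |(P (W ω)).eval s - (P (W ω)).eval 0| ≤ V 0) := by
    refine Pb_mono q0 fun ω hω h => ?_
    by_contra hcon
    rw [not_or, not_not, not_not] at hcon
    obtain ⟨hG, hosc⟩ := hcon
    apply h
    have hG' := hG
    rw [hGd] at hG'
    have hTr := hG'.1
    have hX0 : 0 ≤ X := (abs_nonneg _).trans (hTr.g0 _ (by rw [sub_self, abs_zero]; exact hρt.le))
    have he10 : 0 ≤ ε1 := (abs_nonneg _).trans (hTr.he 0 (by rw [abs_zero]; norm_num))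
    have hη0 : 0 ≤ η := by
      have : 0 ≤ εu := (abs_nonneg _).trans hTr.hu
      exact le_trans (by positivity) hη
    have hV0 : 0 ≤ V 0 := (abs_nonneg _).trans (hosc 0 (by rw [abs_zero]; norm_num))
    have ht1 : |(t ω : ℝ) / M| ≤ 1 := by
      have hM0 : (0 : ℝ) < M := by exact_mod_cast hM
      rw [abs_div, abs_of_pos hM0, div_le_one hM0]
      have := htM ω hω
      exact_mod_cast this
    have hdeg : (P (W ω) - C ((P (W ω)).eval 0)).natDegree ≤ D :=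
      (natDegree_sub_le _ _).trans (max_le (by rw [hP]; exact triP_deg _ _ _ _ (hE0 _) (hE1 _))
        (by rw [natDegree_C]; exact Nat.zero_le _))
    have hd := (hmk (P (W ω) - C ((P (W ω)).eval 0)) 0 1 (V 0) hdeg one_pos (fun s hs => by
      rw [eval_sub, eval_C]
      rw [sub_zero] at hs
      exact hosc s hs) ((t ω : ℝ) / M) (by rw [sub_zero]; linarith)).2
    rw [derivative_sub, derivative_C, sub_zero, div_one, hP] at hd
    simp only at hd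
    rw [triP_der, abs_mul, abs_of_pos hρ00] at hd
    have hV' := (hcr ω hG).2 (K₂ * V 0 / ρ0) (by
      rw [le_div_iff₀ hρ00, mul_comm]
      exact hd)
    refine hV'.trans ?_
    have hθδ : 0 ≤ θ / δ := by positivity
    have e1 : K₁ * K₂ * (θ / δ) *
        (V 0 / ρ0 + (X / ρt ^ 2 + ε1) * η + (X / ρt + ε1) * (θ * κ * ρ0 / δ) + ε1) =
        K₁ * (θ / δ) * (K₂ * V 0 / ρ0) +
        K₂ * (K₁ * (θ / δ) * ((X / ρt ^ 2 + ε1) * η + (X / ρt + ε1) * (θ * κ * ρ0 / δ) + ε1)) := by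
      ring
    have e2 : K₁ * (θ / δ) * (K₂ * V 0 / ρ0 + (X / ρt ^ 2 + ε1) * η +
        (X / ρt + ε1) * (θ * κ * ρ0 / δ) + ε1) =
        K₁ * (θ / δ) * (K₂ * V 0 / ρ0) +
        1 * (K₁ * (θ / δ) * ((X / ρt ^ 2 + ε1) * η + (X / ρt + ε1) * (θ * κ * ρ0 / δ) + ε1)) := by
      ring
    rw [e1, e2]
    have hK10 : 0 ≤ K₁ := by linarith
    exact add_le_add le_rfl (mul_le_mul_of_nonneg_right hK₂ (by positivity))
  refine h3.trans ((Pb_or q0 _ _).trans ?_)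
  linarith

end Pool.SL77
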